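import Pool.Agent.H49.SZ.Fub

set_option autoImplicit false

/-!
# [H49 SZ AVG] Circle averages

* `avg_rot`: `Real.circleAverage_eq_integral_add`.
* `avg_pow`: `circleMap 0 r t ^ k = circleMap 0 (r^k) (k t)`; substitution (`intervalIntegral.integral_comp_mul_left`) and
  periodicity (`Function.Periodic.intervalIntegral_add_zsmul_eq` or induction on `k`).
* `M1mono`: Poisson formula `DiffContOnCl.circleAverage_poissonKernel_smul`: for `w = r₁ e^{iθ}`, `‖K w‖` is at most the
  average of `poissonKernel 0 w · ‖K ·‖` over `|z| = r₂`; average over `θ`, Fubini, and the average of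
  `θ ↦ poissonKernel 0 (r₁ e^{iθ}) z` is `1` for `|z| = r₂` (symmetry of the kernel in the angle and the formula for `K = 1`).
-/

namespace Pool.Agent.H49.SZ

open Set Metric Real MeasureTheory

theorem avg_rot (F : ℂ → ℝ) (t r : ℝ) :
    circleAverage (fun z => F (Complex.exp (t * Complex.I) * z)) 0 r = circleAverage F 0 r := by
  rw [circleAverage_eq_integral_add (f := F) t, circleAverage]
  congr 1
  apply intervalIntegral.integral_congr
  intro x _
  simp only [circleMap, zero_add]
  congr 1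
  push_cast
  rw [add_mul, Complex.exp_add]
  ring

theorem avg_pow {F : ℂ → ℝ} {k : ℕ} (hk : k ≠ 0) {r : ℝ}
    (hF : Continuous fun t : ℝ => F (circleMap 0 (r ^ k) t)) :
    circleAverage (fun z => F (z ^ k)) 0 r = circleAverage F 0 (r ^ k) := by
  have hk' : (k : ℝ) ≠ 0 := by exact_mod_cast hk
  have h1 : ∀ t : ℝ, F (circleMap 0 r t ^ k) = F (circleMap 0 (r ^ k) ((k : ℝ) * t)) := by
    intro t
    congr 1
    simp only [circleMap, zero_add, mul_pow, ← Complex.exp_nat_mul]
    push_cast
    ring_nf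
  have h2 : Function.Periodic (fun t : ℝ => F (circleMap 0 (r ^ k) t)) (2 * π) := by
    intro t
    simp only [periodic_circleMap 0 (r ^ k) t]
  rw [circleAverage, circleAverage]
  congr 1
  simp only [h1]
  rw [intervalIntegral.integral_comp_mul_left (fun t : ℝ => F (circleMap 0 (r ^ k) t)) hk']
  have h3 := h2.intervalIntegral_add_zsmul_eq (k : ℤ) 0 (fun a b => hF.intervalIntegrable a b)
  simp only [zero_add, natCast_zsmul, nsmul_eq_mul] at h3
  rw [mul_zero, h3, smul_eq_mul, ← mul_assoc, inv_mul_cancel₀ hk', one_mul]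

theorem M1mono {K : ℂ → ℂ} (hK : DifferentiableOn ℂ K (ball 0 1)) {r₁ r₂ : ℝ} (h0 : 0 ≤ r₁)
    (h : r₁ ≤ r₂) (h1 : r₂ < 1) :
    circleAverage (fun z => ‖K z‖) 0 r₁ ≤ circleAverage (fun z => ‖K z‖) 0 r₂ := by
  rcases h.eq_or_lt with rfl | hlt
  · exact le_rfl
  have hr2 : 0 < r₂ := h0.trans_lt hlt
  have hpi : (0 : ℝ) < 2 * π := by positivity
  -- the kernel
  set p : ℝ → ℝ := fun u => (r₂ ^ 2 - r₁ ^ 2) / ‖circleMap 0 r₂ u - r₁‖ ^ 2 with hp
  have hpos : ∀ u, 0 < ‖circleMap 0 r₂ u - r₁‖ := by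
    intro u
    rw [norm_pos_iff, sub_ne_zero]
    intro e
    have e1 := congrArg norm e
    rw [norm_circleMap_zero, Complex.norm_real, Real.norm_eq_abs, abs_of_pos hr2,
      abs_of_nonneg h0] at e1
    linarith
  have hp0 : ∀ u, 0 ≤ p u := by
    intro u
    have : r₁ ^ 2 ≤ r₂ ^ 2 := pow_le_pow_left₀ h0 h 2
    exact div_nonneg (by linarith) (by positivity)
  have hpc : Continuous p := by
    apply Continuous.div continuous_const
    · exact (((continuous_circleMap 0 r₂).sub continuous_const).norm).pow 2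
    · intro u
      exact (pow_pos (hpos u) 2).ne'
  have hpp : Function.Periodic p (2 * π) := by
    intro u
    simp only [hp, periodic_circleMap 0 r₂ u]
  have hk : Continuous fun t : ℝ => ‖K (circleMap 0 r₂ t)‖ :=
    (cont_circle hK.continuousOn hr2.le h1).norm
  have hk1 : Continuous fun t : ℝ => ‖K (circleMap 0 r₁ t)‖ :=
    (cont_circle hK.continuousOn h0 (hlt.trans h1)).norm
  have hkp : Function.Periodic (fun t : ℝ => ‖K (circleMap 0 r₂ t)‖) (2 * π) := by
    intro t
    simp only [periodic_circleMap 0 r₂ t]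
  -- Poisson for the constant
  have hone : (2 * π)⁻¹ * ∫ u in (0 : ℝ)..2 * π, p u = 1 := by
    have hw : ((r₁ : ℝ) : ℂ) ∈ ball (0 : ℂ) r₂ := by
      rw [mem_ball_zero_iff, Complex.norm_real, Real.norm_eq_abs, abs_of_nonneg h0]
      exact hlt
    have h3 := DiffContOnCl.circleAverage_poissonKernel_smul (E := ℂ) (f := fun _ => (1 : ℂ))
      (c := 0) (R := r₂) (diffContOnCl_const) hw
    have h4 : circleAverage (poissonKernel 0 (r₁ : ℂ) • fun _ : ℂ => (1 : ℂ)) 0 r₂ =
        (((2 * π)⁻¹ * ∫ u in (0 : ℝ)..2 * π, p u : ℝ) : ℂ) := by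
      rw [circleAverage]
      have h5 : ∀ u : ℝ, (poissonKernel 0 (r₁ : ℂ) • fun _ : ℂ => (1 : ℂ)) (circleMap 0 r₂ u) =
          ((p u : ℝ) : ℂ) := by
        intro u
        simp only [Pi.smul_apply', poissonKernel_def, hp, sub_zero, norm_circleMap_zero,
          Complex.norm_real, Real.norm_eq_abs, sq_abs]
        rw [Complex.real_smul, mul_one]
      simp only [h5]
      rw [intervalIntegral.integral_ofReal]
      rw [Complex.real_smul]
      push_cast
      rfl
    rw [h4] at h3
    exact_mod_cast h3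
  -- pointwise bound
  have hpt : ∀ θ : ℝ, ‖K (circleMap 0 r₁ θ)‖ ≤
      (2 * π)⁻¹ * ∫ u in (0 : ℝ)..2 * π, p u * ‖K (circleMap 0 r₂ (u + θ))‖ := by
    intro θ
    have hw : circleMap 0 r₁ θ ∈ ball (0 : ℂ) r₂ := by
      rw [mem_ball_zero_iff, norm_circleMap_zero, abs_of_nonneg h0]
      exact hlt
    have hd : DiffContOnCl ℂ K (ball 0 r₂) := by
      apply DifferentiableOn.diffContOnCl
      apply hK.mono
      rw [closure_ball _ hr2.ne']
      exact closedBall_subset_ball h1
    have h3 := DiffContOnCl.circleAverage_poissonKernel_smul (E := ℂ) hd hw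
    rw [circleAverage_eq_integral_add θ] at h3
    rw [← h3, norm_smul, Real.norm_eq_abs, abs_of_pos (inv_pos.2 hpi)]
    apply mul_le_mul_of_nonneg_left _ (inv_pos.2 hpi).le
    refine (intervalIntegral.norm_integral_le_integral_norm hpi.le).trans (le_of_eq ?_)
    apply intervalIntegral.integral_congr
    intro u _
    simp only [Pi.smul_apply', norm_smul, Real.norm_eq_abs]
    have h5 : poissonKernel 0 (circleMap 0 r₁ θ) (circleMap 0 r₂ (u + θ)) = p u := by
      simp only [poissonKernel_def, hp, sub_zero, norm_circleMap_zero, sq_abs]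
      congr 2
      have h6 : circleMap 0 r₂ (u + θ) - circleMap 0 r₁ θ =
          (circleMap 0 r₂ u - r₁) * Complex.exp (θ * Complex.I) := by
        simp only [circleMap, zero_add]
        push_cast
        rw [add_mul, Complex.exp_add]
        ring
      rw [h6, norm_mul, Complex.norm_exp_ofReal_mul_I, mul_one]
    rw [h5, abs_of_nonneg (hp0 u)]
  -- integrate
  have hcont : Continuous (Function.uncurry fun θ u : ℝ =>
      p u * ‖K (circleMap 0 r₂ (u + θ))‖) := by
    have e1 : Continuous fun x : ℝ × ℝ => ‖K (circleMap 0 r₂ (x.2 + x.1))‖ :=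
      hk.comp (continuous_snd.add continuous_fst)
    exact (hpc.comp continuous_snd).mul e1
  have hinner : ∀ u : ℝ, ∫ θ in (0 : ℝ)..2 * π, p u * ‖K (circleMap 0 r₂ (u + θ))‖ =
      p u * ∫ θ in (0 : ℝ)..2 * π, ‖K (circleMap 0 r₂ θ)‖ := by
    intro u
    rw [intervalIntegral.integral_const_mul]
    congr 1
    rw [intervalIntegral.integral_comp_add_left (fun t => ‖K (circleMap 0 r₂ t)‖) u]
    have := hkp.intervalIntegral_add_eq u 0
    rw [add_zero, this, zero_add]
  rw [circleAverage, circleAverage, smul_eq_mul, smul_eq_mul]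
  apply mul_le_mul_of_nonneg_left _ (inv_pos.2 hpi).le
  calc ∫ θ in (0 : ℝ)..2 * π, ‖K (circleMap 0 r₁ θ)‖
      ≤ ∫ θ in (0 : ℝ)..2 * π, ((2 * π)⁻¹ *
          ∫ u in (0 : ℝ)..2 * π, p u * ‖K (circleMap 0 r₂ (u + θ))‖) := by
        apply intervalIntegral.integral_mono_on hpi.le (hk1.intervalIntegrable _ _)
        · apply Continuous.intervalIntegrable
          exact continuous_const.mul
            (intervalIntegral.continuous_parametric_intervalIntegral_of_continuous' hcont _ _)
        · intro θ _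
          exact hpt θ
    _ = (2 * π)⁻¹ * ∫ θ in (0 : ℝ)..2 * π,
          ∫ u in (0 : ℝ)..2 * π, p u * ‖K (circleMap 0 r₂ (u + θ))‖ := by
        rw [intervalIntegral.integral_const_mul]
    _ = (2 * π)⁻¹ * ∫ u in (0 : ℝ)..2 * π,
          ∫ θ in (0 : ℝ)..2 * π, p u * ‖K (circleMap 0 r₂ (u + θ))‖ := by
        rw [fubini _ hcont hpi.le hpi.le]
    _ = ∫ θ in (0 : ℝ)..2 * π, ‖K (circleMap 0 r₂ θ)‖ := by
        simp only [hinner]
        rw [intervalIntegral.integral_mul_const, ← mul_assoc, hone, one_mul]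

end Pool.Agent.H49.SZ
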