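import Pool.Agent.H49.SZ.Lim

set_option autoImplicit false

/-!
# [H49 SZ BAI] The Baire category argument

`Y = {l : ℕ → ℂ | UU (ser l) ∧ ∀ j ≥ 1, ‖l j‖ ≤ -2 * (l 0).re}` is closed in `ℕ → ℂ` (`IsSeqClosed.isClosed`, `uu_limit`; along a convergent
sequence `(l i 0)` is bounded, hence all coefficients), so `↥Y` is a Baire space (`IsClosed.completeSpace_coe`/completely metrizable).
The sets `F C = {l ∈ Y | ∀ n ≥ 1, ‖cc lam (ser l) n‖ ≤ C * n^(2 lam - 1)}`, `C : ℕ`, are closed (`cc_limit`) and cover `Y`; one of them has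
an interior point `l₀` (`nonempty_interior_of_iUnion_of_closed`); neighbourhoods in the product topology: finitely many coordinates.
For `UU L`: `l = tc L ∈ Y` (`tc_re`, `tc_zero`), `ser (tc L) = L` on the disc (`ser_tc`, `UU.congr`), `cc lam (ser (tc L)) = cc lam L` (`tc_congr`).
-/

namespace Pool.Agent.H49.SZ

open Set Metric Real Filter Topology

theorem cc_congr {lam : ℝ} {L K : ℂ → ℂ} (h : ∀ z ∈ ball (0 : ℂ) 1, L z = K z) (n : ℕ) :
    cc lam L n = cc lam K n := by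
  unfold cc
  apply tc_congr one_pos
  intro z hz
  rw [h z hz, h 0 (mem_ball_self one_pos)]

theorem ser_zero (l : ℕ → ℂ) : ser l 0 = l 0 := by
  rw [ser, tsum_eq_single 0]
  · simp
  · intro j hj
    simp [zero_pow hj]

/-- the space of coefficient sequences -/
def YY : Set (ℕ → ℂ) := {l | UU (ser l) ∧ ∀ j, 1 ≤ j → ‖l j‖ ≤ -2 * (l 0).re}

theorem YY_bound {l : ℕ → ℂ} (hl : l ∈ YY) (j : ℕ) : ‖l j‖ ≤ -2 * (l 0).re := by
  rcases Nat.eq_zero_or_pos j with rfl | hj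
  · have h1 := hl.1.re 0 (mem_ball_self one_pos)
    have h2 := hl.1.im
    rw [ser_zero] at h1 h2
    have h3 : ‖l 0‖ ≤ |(l 0).re| + |(l 0).im| := Complex.norm_le_abs_re_add_abs_im _
    rw [h2, abs_zero, abs_of_nonpos h1] at h3
    linarith
  · exact hl.2 j hj

theorem tc_mem_YY {L : ℂ → ℂ} (hL : UU L) : tc L ∈ YY := by
  refine ⟨hL.congr fun z hz => (ser_tc hL.diff hz).symm, fun j hj => ?_⟩
  rw [tc_zero]
  exact tc_re hL.diff hL.re (by omega)

/-- sequences in `YY` which converge have bounded coefficients -/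
theorem seq_bound {l : ℕ → ℕ → ℂ} {l₀ : ℕ → ℂ} (hl : ∀ i, l i ∈ YY)
    (h : Tendsto l atTop (𝓝 l₀)) : ∃ B : ℝ, ∀ i j, ‖l i j‖ ≤ B := by
  have h0 : Tendsto (fun i => -2 * (l i 0).re) atTop (𝓝 (-2 * (l₀ 0).re)) := by
    have h1 := (Complex.continuous_re.tendsto _).comp ((tendsto_pi_nhds.1 h) 0)
    exact h1.const_mul (-2)
  obtain ⟨B, hB⟩ := h0.bddAbove_range
  refine ⟨B, fun i j => (YY_bound (hl i) j).trans (hB ⟨i, rfl⟩)⟩

theorem isClosed_YY : IsClosed YY := by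
  apply IsSeqClosed.isClosed
  intro l l₀ hl h
  obtain ⟨B, hB⟩ := seq_bound hl h
  have hp := tendsto_pi_nhds.1 h
  refine ⟨uu_limit hB (fun i => (hl i).1) hp, fun j hj => ?_⟩
  have h1 : Tendsto (fun i => -2 * (l i 0).re) atTop (𝓝 (-2 * (l₀ 0).re)) :=
    ((Complex.continuous_re.tendsto _).comp (hp 0)).const_mul (-2)
  exact le_of_tendsto_of_tendsto' (hp j).norm h1 fun i => (hl i).2 j hj

theorem baire {lam : ℝ} (hS : ∀ L : ℂ → ℂ, UU L → SzP lam L) :
    ∃ L₀ : ℂ → ℂ, UU L₀ ∧ ∃ ε : ℝ, 0 < ε ∧ ∃ J : ℕ, ∃ C : ℝ, 0 ≤ C ∧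
      ∀ L : ℂ → ℂ, UU L → (∀ j ≤ J, ‖tc L j - tc L₀ j‖ < ε) →
        ∀ n : ℕ, 1 ≤ n → ‖cc lam L n‖ ≤ C * (n : ℝ) ^ (2 * lam - 1) := by
  have : TopologicalSpace.IsCompletelyMetrizableSpace YY := isClosed_YY.isCompletelyMetrizableSpace
  have : Nonempty YY := by
    have h0 : UU (fun _ : ℂ => (0 : ℂ)) := by
      refine ⟨differentiableOn_const _, fun z _ => by simp, by simp, ?_⟩
      intro z _ w _ h
      simpa [fn] using h
    exact ⟨⟨tc _, tc_mem_YY h0⟩⟩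
  set F : ℕ → Set YY := fun C => {l | ∀ n : ℕ, 1 ≤ n →
    ‖cc lam (ser l.1) n‖ ≤ C * (n : ℝ) ^ (2 * lam - 1)} with hF
  have hclosed : ∀ C, IsClosed (F C) := by
    intro C
    apply IsSeqClosed.isClosed
    intro l l₀ hl h
    have h1 : Tendsto (fun i => (l i).1) atTop (𝓝 l₀.1) :=
      (continuous_subtype_val.tendsto _).comp h
    obtain ⟨B, hB⟩ := seq_bound (fun i => (l i).2) h1
    intro n hn
    have h2 := cc_limit hB (tendsto_pi_nhds.1 h1) lam n
    exact le_of_tendsto h2.norm (Eventually.of_forall fun i => hl i n hn)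
  have hcover : ⋃ C, F C = univ := by
    rw [eq_univ_iff_forall]
    intro l
    obtain ⟨C, hC⟩ := hS _ l.2.1
    obtain ⟨N, hN⟩ := exists_nat_ge C
    rw [mem_iUnion]
    refine ⟨N, fun n hn => (hC n hn).trans ?_⟩
    exact mul_le_mul_of_nonneg_right hN (by positivity)
  obtain ⟨C, x, hx⟩ := nonempty_interior_of_iUnion_of_closed hclosed hcover
  obtain ⟨U, hU, hUF⟩ := isOpen_induced_iff.1 (isOpen_interior (s := F C))
  have hxU : x.1 ∈ U := by
    have : x ∈ Subtype.val ⁻¹' U := by rw [hUF]; exact hx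
    exact this
  obtain ⟨I, u, hu, hIu⟩ := isOpen_pi_iff.1 hU x.1 hxU
  have hev : ∀ᶠ ε : ℝ in 𝓝[>] 0, ∀ a ∈ I, ball (x.1 a) ε ⊆ u a := by
    rw [Filter.eventually_all_finset]
    intro a ha
    obtain ⟨δ, hδ, hb⟩ := Metric.isOpen_iff.1 (hu a ha).1 (x.1 a) (hu a ha).2
    have h1 : ∀ᶠ ε : ℝ in 𝓝[>] 0, ε < δ := nhdsWithin_le_nhds (gt_mem_nhds hδ)
    filter_upwards [h1] with ε hε
    exact (ball_subset_ball hε.le).trans hb
  obtain ⟨ε, hε, hε0⟩ := (hev.and self_mem_nhdsWithin).exists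
  have hε0' : 0 < ε := hε0
  refine ⟨ser x.1, x.2.1, ε, hε0', I.sup id, C, by positivity, ?_⟩
  intro L hL hclose n hn
  have hB : ∀ j, ‖x.1 j‖ ≤ -2 * (x.1 0).re := YY_bound x.2
  have h1 : tc L ∈ U := by
    apply hIu
    intro a ha
    apply hε a ha
    rw [mem_ball, dist_eq_norm]
    have h2 := hclose a (Finset.le_sup (f := id) ha)
    rwa [tc_ser hB] at h2
  have h2 : (⟨tc L, tc_mem_YY hL⟩ : YY) ∈ interior (F C) := by
    rw [← hUF]
    exact h1
  have h3 := interior_subset h2 n hn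
  have h4 : cc lam (ser (tc L)) n = cc lam L n := cc_congr (fun z hz => ser_tc hL.diff hz) n
  rwa [h4] at h3

end Pool.Agent.H49.SZ
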