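import Pool.Agent.H49.SZ.Pert

set_option autoImplicit false

/-!
# [H49 SZ CAU] Cauchy's estimate in the perturbation parameter

For `|z| = 1/2` put `Q_z(η) = exp (lam (pe s χ η L z - pe s χ η L 0)) = exp (lam (log (1 + η χ(sz)) + L(sz(1+ηχ(sz))) - L 0))`, analytic in
`|η| < 1/m` (`|χ| ≤ 1`, `m ≥ 2`).  `Q_z'(0) = lam * (χ * HH lam L)(s z)` is the average over `|η| = 1/(2m)` of `Q_z(η) η⁻¹` (`tc_eq_avg`, `n = 1`).
Multiply by `(z^n)⁻¹` and average over `|z| = 1/2` (`tc_eq_avg`, `tc_scale`): by Fubini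
`lam s^n tc (χ HH) n = average over η of η⁻¹ cc lam (pe s χ η L) n`.
-/

namespace Pool.Agent.H49.SZ

open Set Metric Real Filter Topology

/-- `(f/(f'(0) z))^lam z f'/f` -/
noncomputable def HH (lam : ℝ) (L : ℂ → ℂ) (z : ℂ) : ℂ :=
  Complex.exp (lam * (L z - L 0)) * lgd L z

theorem tc_const_mul {G : ℂ → ℂ} {R : ℝ} (hR : 0 < R) (hG : DifferentiableOn ℂ G (ball 0 R))
    (c : ℂ) (n : ℕ) : tc (fun z => c * G z) n = c * tc G n := by
  apply tc_unique hR
  intro z hz
  have h1 := (tc_hasSum hG hz).mul_left c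
  have h2 : (fun n => c * (tc G n * z ^ n)) = fun n => c * tc G n * z ^ n := by
    funext n
    ring
  rwa [h2] at h1

theorem HH_diff {L : ℂ → ℂ} (hL : UU L) (lam : ℝ) : DifferentiableOn ℂ (HH lam L) (ball 0 1) := by
  have h1 : DifferentiableOn ℂ (deriv L) (ball 0 1) := hL.diff.deriv isOpen_ball
  unfold HH lgd
  have h2 : DifferentiableOn ℂ (fun z => Complex.exp (lam * (L z - L 0))) (ball 0 1) :=
    ((hL.diff.sub_const _).const_mul _).cexp
  have h3 : DifferentiableOn ℂ (fun z => 1 + z * deriv L z) (ball 0 1) :=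
    (differentiableOn_id.mul h1).const_add _
  exact h2.mul h3

theorem slit_of_small {w : ℂ} (h : ‖w‖ < 1) : 1 + w ∈ Complex.slitPlane := by
  left
  have h1 : -‖w‖ ≤ w.re := by
    have := Complex.abs_re_le_norm w
    exact (abs_le.1 this).1
  simp only [Complex.add_re, Complex.one_re]
  linarith

/-- the derivative in the parameter -/
theorem deriv_Q {L : ℂ → ℂ} {lam : ℝ} {c w : ℂ} (hw : DifferentiableAt ℂ L w) :
    HasDerivAt (fun η : ℂ => Complex.exp (lam * (Complex.log (1 + η * c) +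
      L (w * (1 + η * c)) - L 0))) (lam * (c * HH lam L w)) 0 := by
  have h1 : HasDerivAt (fun η : ℂ => 1 + η * c) c 0 := by
    have := ((hasDerivAt_id (0 : ℂ)).mul_const c).const_add 1
    simpa using this
  have h2 : HasDerivAt (fun η : ℂ => Complex.log (1 + η * c)) c 0 := by
    have h3 := h1.clog (by simp)
    simpa using h3
  have h4 : HasDerivAt (fun η : ℂ => w * (1 + η * c)) (w * c) 0 := h1.const_mul w
  have h5 : HasDerivAt (fun η : ℂ => L (w * (1 + η * c))) (deriv L w * (w * c)) 0 := by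
    have h6 : HasDerivAt L (deriv L w) (w * (1 + 0 * c)) := by
      rw [zero_mul, add_zero, mul_one]
      exact hw.hasDerivAt
    exact h6.comp (0 : ℂ) h4
  have h7 := (((h2.add h5).sub_const (L 0)).const_mul (lam : ℂ)).cexp
  refine h7.congr_deriv ?_
  simp only [zero_mul, add_zero, Complex.log_one, mul_one, HH, lgd, Pi.add_apply]
  ring_nf

theorem cauchy_eta {L : ℂ → ℂ} (hL : UU L) {g : ℂ → ℂ} (hg : Differentiable ℂ g) {m : ℕ}
    (hm : 2 ≤ m) (hb : ∀ z : ℂ, ‖z‖ ≤ 1 → ‖z ^ (m + 1) * g z‖ ≤ 1) {lam : ℝ} (h0 : 0 < lam) {n : ℕ}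
    {B : ℝ} (hB : ∀ η : ℂ, ‖η‖ = 1 / (2 * m) →
      ‖cc lam (pe (1 - 1 / m) (fun z => z ^ (m + 1) * g z) η L) n‖ ≤ B) :
    1 / (2 * m) * lam * (1 - 1 / m) ^ n * ‖tc (fun z => z ^ (m + 1) * g z * HH lam L z) n‖ ≤ B := by
  have hpi : (0 : ℝ) < 2 * π := by positivity
  have hmr : (2 : ℝ) ≤ m := by exact_mod_cast hm
  set s : ℝ := 1 - 1 / m with hs
  have hs0 : 0 < s := by
    have : (1 : ℝ) / m ≤ 1 / 2 := one_div_le_one_div_of_le (by norm_num) hmr
    rw [hs]; linarith
  have hs1 : s ≤ 1 := by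
    have : (0 : ℝ) < 1 / m := by positivity
    rw [hs]; linarith
  set ρ : ℝ := 1 / (2 * m) with hρ
  have hρ0 : 0 < ρ := by positivity
  have hρ1 : ρ < 1 / 2 := by
    rw [hρ, div_lt_iff₀ (by positivity)]
    linarith
  set χ : ℂ → ℂ := fun z => z ^ (m + 1) * g z with hχ
  have hχd : Differentiable ℂ χ := (differentiable_id.pow _).mul hg
  have hχ1 : ∀ z : ℂ, ‖z‖ < 1 → ‖χ (s * z)‖ ≤ 1 := by
    intro z hz
    apply hb
    rw [norm_mul, Complex.norm_real, Real.norm_eq_abs, abs_of_pos hs0]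
    nlinarith [norm_nonneg z]
  set Q : ℂ → ℂ → ℂ := fun z η => Complex.exp (lam * (Complex.log (1 + η * χ (s * z)) +
    L (s * z * (1 + η * χ (s * z))) - L 0)) with hQ
  have hsm : ∀ z : ℂ, ‖z‖ < 1 → (s : ℂ) * z ∈ ball (0 : ℂ) 1 := fun z hz =>
    dil_mem hs0 hs1 (mem_ball_zero_iff.2 hz)
  have hmem : ∀ z η : ℂ, ‖z‖ ≤ 1 / 2 → ‖η‖ < 1 →
      (s : ℂ) * z * (1 + η * χ (s * z)) ∈ ball (0 : ℂ) 1 := by
    intro z η hz hη
    have e1 : ‖(s : ℂ) * z‖ ≤ 1 / 2 := by
      rw [norm_mul, Complex.norm_real, Real.norm_eq_abs, abs_of_pos hs0]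
      nlinarith [norm_nonneg z]
    have e2 : ‖1 + η * χ (s * z)‖ < 2 := by
      have e3 := hχ1 z (by linarith)
      calc ‖1 + η * χ (s * z)‖ ≤ ‖(1 : ℂ)‖ + ‖η * χ (s * z)‖ := norm_add_le _ _
        _ = 1 + ‖η‖ * ‖χ (s * z)‖ := by rw [norm_one, norm_mul]
        _ < 2 := by nlinarith [norm_nonneg η, norm_nonneg (χ (s * z))]
    rw [mem_ball_zero_iff, norm_mul]
    nlinarith [norm_nonneg ((s : ℂ) * z), norm_nonneg (1 + η * χ (s * z))]
  have hslit : ∀ z η : ℂ, ‖z‖ < 1 → ‖η‖ < 1 → 1 + η * χ (s * z) ∈ Complex.slitPlane := by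
    intro z η hz hη
    apply slit_of_small
    rw [norm_mul]
    have := hχ1 z hz
    nlinarith [norm_nonneg η, norm_nonneg (χ (s * z))]
  -- analyticity in the parameter
  have hQd : ∀ z : ℂ, ‖z‖ ≤ 1 / 2 → DifferentiableOn ℂ (Q z) (ball 0 1) := by
    intro z hz
    have e1 : Differentiable ℂ fun η : ℂ => 1 + η * χ (s * z) := by fun_prop
    have e2 : DifferentiableOn ℂ (fun η : ℂ => Complex.log (1 + η * χ (s * z))) (ball 0 1) :=
      e1.differentiableOn.clog fun η hη => hslit z η (by linarith) (mem_ball_zero_iff.1 hη)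
    have e3 : DifferentiableOn ℂ (fun η : ℂ => L (s * z * (1 + η * χ (s * z)))) (ball 0 1) :=
      hL.diff.comp (e1.const_mul _).differentiableOn fun η hη =>
        hmem z η hz (mem_ball_zero_iff.1 hη)
    exact (((e2.add e3).sub_const _).const_mul _).cexp
  have hQ1 : ∀ z : ℂ, ‖z‖ ≤ 1 / 2 → (lam : ℂ) * (χ (s * z) * HH lam L (s * z)) =
      circleAverage (fun η => Q z η * (η ^ 1)⁻¹) 0 ρ := by
    intro z hz
    rw [← tc_eq_avg (hQd z hz) hρ0 (by linarith) 1]
    have e1 := deriv_Q (L := L) (lam := lam) (c := χ (s * z)) (w := s * z)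
      (hL.diffAt (hsm z (by linarith)))
    rw [tc, iteratedDeriv_one, Nat.factorial_one, Nat.cast_one, div_one]
    exact e1.deriv.symm
  -- the coefficient in z
  have hχH : DifferentiableOn ℂ (fun z => χ z * HH lam L z) (ball 0 1) :=
    hχd.differentiableOn.mul (HH_diff hL lam)
  have hGd : DifferentiableOn ℂ (fun z => (lam : ℂ) * (χ (s * z) * HH lam L (s * z)))
      (ball 0 1) := by
    apply DifferentiableOn.const_mul
    exact hχH.comp (differentiableOn_id.const_mul _) fun z hz => hsm z (mem_ball_zero_iff.1 hz)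
  have hcoef : (lam : ℂ) * ((s : ℂ) ^ n * tc (fun z => χ z * HH lam L z) n) =
      circleAverage (fun z => (lam : ℂ) * (χ (s * z) * HH lam L (s * z)) * (z ^ n)⁻¹) 0
        (1 / 2) := by
    rw [← tc_eq_avg hGd (by norm_num) (by norm_num) n]
    have e1 : DifferentiableOn ℂ (fun z => χ (s * z) * HH lam L (s * z)) (ball 0 1) :=
      hχH.comp (differentiableOn_id.const_mul _) fun z hz => hsm z (mem_ball_zero_iff.1 hz)
    rw [tc_const_mul one_pos e1, tc_scale one_pos hχH (s : ℂ) n]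
  -- continuity
  have hzn : ∀ t : ℝ, ‖circleMap 0 (1 / 2) t‖ = 1 / 2 := by
    intro t
    rw [norm_circleMap_zero, abs_of_pos (by norm_num)]
  have hηn : ∀ t : ℝ, ‖circleMap 0 ρ t‖ = ρ := by
    intro t
    rw [norm_circleMap_zero, abs_of_pos hρ0]
  have hz0 : ∀ t : ℝ, circleMap 0 (1 / 2) t ^ n ≠ 0 := fun t =>
    pow_ne_zero _ (circleMap_ne (by norm_num) t)
  have hη0 : ∀ t : ℝ, circleMap 0 ρ t ^ 1 ≠ 0 := fun t =>
    pow_ne_zero _ (circleMap_ne hρ0.ne' t)
  have hQc : Continuous fun x : ℝ × ℝ => Q (circleMap 0 (1 / 2) x.1) (circleMap 0 ρ x.2) := by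
    have c1 : Continuous fun x : ℝ × ℝ => circleMap 0 (1 / 2) x.1 :=
      (continuous_circleMap 0 _).comp continuous_fst
    have c2 : Continuous fun x : ℝ × ℝ => circleMap 0 ρ x.2 :=
      (continuous_circleMap 0 _).comp continuous_snd
    have c3 : Continuous fun x : ℝ × ℝ => χ (s * circleMap 0 (1 / 2) x.1) :=
      hχd.continuous.comp (continuous_const.mul c1)
    have c4 : Continuous fun x : ℝ × ℝ =>
        1 + circleMap 0 ρ x.2 * χ (s * circleMap 0 (1 / 2) x.1) :=
      continuous_const.add (c2.mul c3)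
    have c5 : Continuous fun x : ℝ × ℝ =>
        Complex.log (1 + circleMap 0 ρ x.2 * χ (s * circleMap 0 (1 / 2) x.1)) :=
      c4.clog fun x => hslit _ _ (by rw [hzn]; norm_num) (by rw [hηn]; linarith)
    have c6 : Continuous fun x : ℝ × ℝ => L (s * circleMap 0 (1 / 2) x.1 *
        (1 + circleMap 0 ρ x.2 * χ (s * circleMap 0 (1 / 2) x.1))) :=
      hL.diff.continuousOn.comp_continuous ((continuous_const.mul c1).mul c4) fun x =>
        hmem _ _ (hzn _).le (by rw [hηn]; linarith)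
    exact Complex.continuous_exp.comp (continuous_const.mul ((c5.add c6).sub continuous_const))
  have hFc : Continuous (Function.uncurry fun θ α : ℝ =>
      Q (circleMap 0 (1 / 2) θ) (circleMap 0 ρ α) * (circleMap 0 ρ α ^ 1)⁻¹ *
        (circleMap 0 (1 / 2) θ ^ n)⁻¹) := by
    apply Continuous.mul
    · apply hQc.mul
      apply Continuous.inv₀
      · exact ((continuous_circleMap 0 _).comp continuous_snd).pow 1
      · intro x
        exact hη0 x.2
    · apply Continuous.inv₀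
      · exact ((continuous_circleMap 0 _).comp continuous_fst).pow n
      · intro x
        exact hz0 x.1
  -- Fubini
  have hfub : (lam : ℂ) * ((s : ℂ) ^ n * tc (fun z => χ z * HH lam L z) n) =
      circleAverage (fun η => (η ^ 1)⁻¹ * cc lam (pe s χ η L) n) 0 ρ := by
    rw [hcoef]
    have e1 : circleAverage (fun z => (lam : ℂ) * (χ (s * z) * HH lam L (s * z)) * (z ^ n)⁻¹) 0
        (1 / 2) = (2 * π)⁻¹ • ∫ θ in (0 : ℝ)..2 * π, (2 * π)⁻¹ • ∫ α in (0 : ℝ)..2 * π,
          Q (circleMap 0 (1 / 2) θ) (circleMap 0 ρ α) * (circleMap 0 ρ α ^ 1)⁻¹ *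
            (circleMap 0 (1 / 2) θ ^ n)⁻¹ := by
      rw [circleAverage]
      congr 1
      apply intervalIntegral.integral_congr
      intro θ _
      simp only
      rw [hQ1 _ (hzn θ).le, circleAverage, intervalIntegral.integral_mul_const, smul_mul_assoc]
    have e2 : circleAverage (fun η => (η ^ 1)⁻¹ * cc lam (pe s χ η L) n) 0 ρ =
        (2 * π)⁻¹ • ∫ α in (0 : ℝ)..2 * π, (2 * π)⁻¹ • ∫ θ in (0 : ℝ)..2 * π,
          Q (circleMap 0 (1 / 2) θ) (circleMap 0 ρ α) * (circleMap 0 ρ α ^ 1)⁻¹ *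
            (circleMap 0 (1 / 2) θ ^ n)⁻¹ := by
      rw [circleAverage]
      congr 1
      apply intervalIntegral.integral_congr
      intro α _
      simp only
      have hpe := pe_uu hL hg hm hb (η := circleMap 0 ρ α) (by rw [hηn])
      have e3 : cc lam (pe s χ (circleMap 0 ρ α) L) n =
          circleAverage (fun z => Q z (circleMap 0 ρ α) * (z ^ n)⁻¹) 0 (1 / 2) := by
        have e4 : DifferentiableOn ℂ (fun z => Complex.exp (lam *
            (pe s χ (circleMap 0 ρ α) L z - pe s χ (circleMap 0 ρ α) L 0))) (ball 0 1) :=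
          ((hpe.diff.sub_const _).const_mul _).cexp
        rw [cc, tc_eq_avg e4 (r := 1 / 2) (by norm_num) (by norm_num) n]
        have e5 : ∀ z : ℂ, Complex.exp (lam *
            (pe s χ (circleMap 0 ρ α) L z - pe s χ (circleMap 0 ρ α) L 0)) =
            Q z (circleMap 0 ρ α) := by
          intro z
          have e6 : pe s χ (circleMap 0 ρ α) L 0 = (Real.log s : ℂ) + L 0 := pe_zero s g m _ L
          rw [e6]
          simp only [hQ, pe]
          congr 2
          ring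
        simp only [e5]
      rw [e3, circleAverage, mul_smul_comm, ← intervalIntegral.integral_const_mul]
      congr 1
      apply intervalIntegral.integral_congr
      intro θ _
      simp only
      ring
    rw [e1, e2]
    congr 1
    rw [intervalIntegral.integral_smul, intervalIntegral.integral_smul,
      fubini _ hFc hpi.le hpi.le]
  have hnorm : ‖(lam : ℂ) * ((s : ℂ) ^ n * tc (fun z => χ z * HH lam L z) n)‖ ≤ ρ⁻¹ * B := by
    rw [hfub]
    apply norm_avg_le
    intro η hη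
    rw [abs_of_pos hρ0] at hη
    rw [norm_mul, pow_one, norm_inv, hη]
    exact mul_le_mul_of_nonneg_left (hB η hη) (inv_pos.2 hρ0).le
  rw [norm_mul, norm_mul, norm_pow, Complex.norm_real, Complex.norm_real, Real.norm_eq_abs,
    Real.norm_eq_abs, abs_of_pos h0, abs_of_pos hs0] at hnorm
  calc ρ * lam * s ^ n * ‖tc (fun z => χ z * HH lam L z) n‖
      = ρ * (lam * (s ^ n * ‖tc (fun z => χ z * HH lam L z) n‖)) := by ring
    _ ≤ ρ * (ρ⁻¹ * B) := mul_le_mul_of_nonneg_left hnorm hρ0.le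
    _ = B := by rw [← mul_assoc, mul_inv_cancel₀ hρ0.ne', one_mul]

end Pool.Agent.H49.SZ
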