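import Pool.Agent.H49.SZ.Defs

set_option autoImplicit false

/-!
# [H49 SZ CLS] Closure properties of `UU` and of the logarithmic derivative
-/

namespace Pool.Agent.H49.SZ

open Set Metric Real

theorem UU.cmp {L K : ℂ → ℂ} (hL : UU L) (hK : UU K) : UU (cmp L K) := by
  refine ⟨?_, ?_, ?_, ?_⟩
  · unfold SZ.cmp
    exact hK.diff.add (hL.diff.comp hK.diff_fn fun z hz => hK.fn_mem hz)
  · intro z hz
    simp only [SZ.cmp, Complex.add_re]
    have h1 := hK.re z hz
    have h2 := hL.re _ (hK.fn_mem hz)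
    linarith
  · simp [SZ.cmp, fn_zero, hK.im, hL.im]
  · intro z hz w hw h
    rw [fn_cmp, fn_cmp] at h
    exact hK.inj hz hw (hL.inj (hK.fn_mem hz) (hK.fn_mem hw) h)

theorem pow_mem {k : ℕ} (hk : k ≠ 0) {z : ℂ} (hz : z ∈ ball (0 : ℂ) 1) :
    z ^ k ∈ ball (0 : ℂ) 1 := by
  rw [mem_ball_zero_iff] at hz ⊢
  rw [norm_pow]
  exact pow_lt_one₀ (norm_nonneg z) hz hk

theorem UU.rt {k : ℕ} (hk : k ≠ 0) {L : ℂ → ℂ} (hL : UU L) : UU (rt k L) := by
  have hk' : (k : ℂ) ≠ 0 := by exact_mod_cast hk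
  have hk0 : (0 : ℝ) < k := by exact_mod_cast Nat.pos_of_ne_zero hk
  refine ⟨?_, ?_, ?_, ?_⟩
  · unfold SZ.rt
    exact (hL.diff.comp (differentiableOn_id.pow k) fun z hz => pow_mem hk hz).div_const _
  · intro z hz
    have h1 := hL.re _ (pow_mem hk hz)
    have h2 : (SZ.rt k L z).re = (L (z ^ k)).re / k := by
      simp only [SZ.rt]
      rw [Complex.div_natCast_re]
    rw [h2]
    exact div_nonpos_of_nonpos_of_nonneg h1 hk0.le
  · have h2 : (SZ.rt k L 0).im = (L 0).im / k := by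
      simp only [SZ.rt, zero_pow hk]
      rw [Complex.div_natCast_im]
    rw [h2, hL.im, zero_div]
  · intro z hz w hw h
    have h1 : z ^ k = w ^ k := by
      apply hL.inj (pow_mem hk hz) (pow_mem hk hw)
      rw [← fn_rt_pow hk, ← fn_rt_pow hk, h]
    simp only [fn, SZ.rt, h1] at h
    exact mul_right_cancel₀ (Complex.exp_ne_zero _) h

theorem rot_mem (t : ℝ) {z : ℂ} (hz : z ∈ ball (0 : ℂ) 1) :
    Complex.exp (t * Complex.I) * z ∈ ball (0 : ℂ) 1 := by
  rw [mem_ball_zero_iff] at hz ⊢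
  rwa [norm_mul, Complex.norm_exp_ofReal_mul_I, one_mul]

theorem UU.rot (t : ℝ) {L : ℂ → ℂ} (hL : UU L) : UU (rot t L) := by
  refine ⟨?_, ?_, ?_, ?_⟩
  · unfold SZ.rot
    exact hL.diff.comp (differentiableOn_id.const_mul _) fun z hz => rot_mem t hz
  · intro z hz
    exact hL.re _ (rot_mem t hz)
  · simp [SZ.rot, hL.im]
  · intro z hz w hw h
    rw [fn_rot, fn_rot] at h
    have h1 := mul_left_cancel₀ (Complex.exp_ne_zero _) h
    exact mul_left_cancel₀ (Complex.exp_ne_zero _) (hL.inj (rot_mem t hz) (rot_mem t hw) h1)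

theorem dil_mem {s : ℝ} (hs : 0 < s) (hs1 : s ≤ 1) {z : ℂ} (hz : z ∈ ball (0 : ℂ) 1) :
    (s : ℂ) * z ∈ ball (0 : ℂ) 1 := by
  rw [mem_ball_zero_iff] at hz ⊢
  rw [norm_mul, Complex.norm_real, Real.norm_eq_abs, abs_of_pos hs]
  nlinarith [norm_nonneg z]

theorem UU.dil {s : ℝ} (hs : 0 < s) (hs1 : s ≤ 1) {L : ℂ → ℂ} (hL : UU L) : UU (dil s L) := by
  refine ⟨?_, ?_, ?_, ?_⟩
  · unfold SZ.dil
    exact (differentiableOn_const _).add
      (hL.diff.comp (differentiableOn_id.const_mul _) fun z hz => dil_mem hs hs1 hz)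
  · intro z hz
    have h1 := hL.re _ (dil_mem hs hs1 hz)
    have h2 := Real.log_nonpos hs.le hs1
    simp only [SZ.dil, Complex.add_re, Complex.ofReal_re]
    linarith
  · simp [SZ.dil, hL.im]
  · intro z hz w hw h
    rw [fn_dil hs, fn_dil hs] at h
    have h1 := hL.inj (dil_mem hs hs1 hz) (dil_mem hs hs1 hw) h
    exact mul_left_cancel₀ (by exact_mod_cast hs.ne') h1

theorem UU.diffAt {L : ℂ → ℂ} (hL : UU L) {z : ℂ} (hz : z ∈ ball (0 : ℂ) 1) :
    DifferentiableAt ℂ L z :=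
  (hL.diff z hz).differentiableAt (isOpen_ball.mem_nhds hz)

theorem hasDerivAt_fn {L : ℂ → ℂ} {z : ℂ} (h : DifferentiableAt ℂ L z) :
    HasDerivAt (fn L) (Complex.exp (L z) * lgd L z) z := by
  unfold fn
  have h1 := (hasDerivAt_id z).mul h.hasDerivAt.cexp
  have h2 : 1 * Complex.exp (L z) + id z * (Complex.exp (L z) * deriv L z) =
      Complex.exp (L z) * lgd L z := by
    simp only [lgd, id]
    ring
  rw [h2] at h1
  exact h1

theorem lgd_cmp {L K : ℂ → ℂ} {z : ℂ} (hK : DifferentiableAt ℂ K z)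
    (hL : DifferentiableAt ℂ L (fn K z)) : lgd (cmp L K) z = lgd K z * lgd L (fn K z) := by
  have h1 : HasDerivAt (cmp L K)
      (deriv K z + deriv L (fn K z) * (Complex.exp (K z) * lgd K z)) z := by
    unfold cmp
    exact hK.hasDerivAt.add (hL.hasDerivAt.comp z (hasDerivAt_fn hK))
  rw [lgd, h1.deriv]
  simp only [lgd, fn]
  ring

theorem lgd_rt {k : ℕ} (hk : k ≠ 0) {L : ℂ → ℂ} {z : ℂ} (hL : DifferentiableAt ℂ L (z ^ k)) :
    lgd (rt k L) z = lgd L (z ^ k) := by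
  have hk' : (k : ℂ) ≠ 0 := by exact_mod_cast hk
  have h1 : HasDerivAt (rt k L) (deriv L (z ^ k) * (k * z ^ (k - 1)) / k) z := by
    unfold rt
    exact (hL.hasDerivAt.comp z (hasDerivAt_pow k z)).div_const _
  rw [lgd, h1.deriv, lgd]
  have h2 : z ^ k = z * z ^ (k - 1) := by
    rw [← pow_succ', Nat.sub_add_cancel (Nat.pos_of_ne_zero hk)]
  rw [h2]
  field_simp

theorem lgd_rot (t : ℝ) {L : ℂ → ℂ} {z : ℂ}
    (hL : DifferentiableAt ℂ L (Complex.exp (t * Complex.I) * z)) :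
    lgd (rot t L) z = lgd L (Complex.exp (t * Complex.I) * z) := by
  have h1 : HasDerivAt (rot t L) (deriv L (Complex.exp (t * Complex.I) * z) *
      (Complex.exp (t * Complex.I) * 1)) z := by
    unfold rot
    exact hL.hasDerivAt.comp z ((hasDerivAt_id z).const_mul _)
  rw [lgd, h1.deriv, lgd]
  ring

theorem lgd_dil (s : ℝ) {L : ℂ → ℂ} {z : ℂ} (hL : DifferentiableAt ℂ L (s * z)) :
    lgd (dil s L) z = lgd L (s * z) := by
  have h1 : HasDerivAt (dil s L) (deriv L (s * z) * (s * 1)) z := by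
    unfold dil
    exact (hL.hasDerivAt.comp z ((hasDerivAt_id z).const_mul _)).const_add _
  rw [lgd, h1.deriv, lgd]
  ring

theorem UU.continuousOn_lgd {L : ℂ → ℂ} (hL : UU L) : ContinuousOn (lgd L) (ball 0 1) := by
  unfold lgd
  have h1 : DifferentiableOn ℂ (deriv L) (ball 0 1) := hL.diff.deriv isOpen_ball
  exact continuousOn_const.add (continuousOn_id.mul h1.continuousOn)

theorem UU.continuousOn_fn {L : ℂ → ℂ} (hL : UU L) : ContinuousOn (fn L) (ball 0 1) :=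
  hL.diff_fn.continuousOn

end Pool.Agent.H49.SZ
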