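import Mathlib

set_option autoImplicit false

/-!
# [H49 SZ] Univalent self-maps of the disc and their logarithms

`f = fn L`, `f z = z exp (L z)`; `UU L` says that `f` is an injective analytic self-map of the unit disc with `f 0 = 0`,
`f' 0 > 0`.
-/

namespace Pool.Agent.H49.SZ

open Set Metric Real

/-- `z e^{L z}` -/
noncomputable def fn (L : ℂ → ℂ) (z : ℂ) : ℂ := z * Complex.exp (L z)

/-- `fn L` is a univalent self-map of the disc -/
structure UU (L : ℂ → ℂ) : Prop where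
  diff : DifferentiableOn ℂ L (ball 0 1)
  re : ∀ z ∈ ball (0 : ℂ) 1, (L z).re ≤ 0
  im : (L 0).im = 0
  inj : InjOn (fn L) (ball 0 1)

/-- logarithm of the composition `fn L ∘ fn K` -/
noncomputable def cmp (L K : ℂ → ℂ) (z : ℂ) : ℂ := K z + L (fn K z)

/-- logarithm of the root transform `(f (z^k))^{1/k}` -/
noncomputable def rt (k : ℕ) (L : ℂ → ℂ) (z : ℂ) : ℂ := L (z ^ k) / k

/-- logarithm of `e^{-it} f (e^{it} z)` -/
noncomputable def rot (t : ℝ) (L : ℂ → ℂ) (z : ℂ) : ℂ := L (Complex.exp (t * Complex.I) * z)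

/-- logarithm of `f (s z)` -/
noncomputable def dil (s : ℝ) (L : ℂ → ℂ) (z : ℂ) : ℂ := (Real.log s : ℂ) + L (s * z)

/-- `z f' / f = 1 + z L'` -/
noncomputable def lgd (L : ℂ → ℂ) (z : ℂ) : ℂ := 1 + z * deriv L z

/-- the functional -/
noncomputable def EN (N : ℝ → ℝ) (L : ℂ → ℂ) (r : ℝ) : ℝ :=
  circleAverage (fun z => N ‖fn L z‖ * ‖lgd L z‖) 0 r

/-- the weight `0.88 s^0.1 + 0.12 s` -/
noncomputable def NN (s : ℝ) : ℝ := 0.88 * s ^ (0.1 : ℝ) + 0.12 * s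

/-- Taylor coefficients -/
noncomputable def tc (G : ℂ → ℂ) (n : ℕ) : ℂ := iteratedDeriv n G 0 / (n.factorial : ℂ)

/-- power series -/
noncomputable def ser (l : ℕ → ℂ) (z : ℂ) : ℂ := ∑' j, l j * z ^ j

/-- the coefficients of the root transform, `lam = 1 / p` -/
noncomputable def cc (lam : ℝ) (L : ℂ → ℂ) (n : ℕ) : ℂ :=
  tc (fun z => Complex.exp (lam * (L z - L 0))) n

/-- Szego's estimate -/
def SzP (lam : ℝ) (L : ℂ → ℂ) : Prop :=
  ∃ C : ℝ, ∀ n : ℕ, 1 ≤ n → ‖cc lam L n‖ ≤ C * (n : ℝ) ^ (2 * lam - 1)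

theorem fn_zero (L : ℂ → ℂ) : fn L 0 = 0 := by simp [fn]

theorem norm_fn (L : ℂ → ℂ) (z : ℂ) : ‖fn L z‖ = ‖z‖ * Real.exp (L z).re := by
  rw [fn, norm_mul, Complex.norm_exp]

theorem UU.norm_fn_le {L : ℂ → ℂ} (h : UU L) {z : ℂ} (hz : z ∈ ball (0 : ℂ) 1) :
    ‖fn L z‖ ≤ ‖z‖ := by
  rw [norm_fn]
  have h1 : Real.exp (L z).re ≤ 1 := Real.exp_le_one_iff.2 (h.re z hz)
  nlinarith [norm_nonneg z]

theorem UU.fn_mem {L : ℂ → ℂ} (h : UU L) {z : ℂ} (hz : z ∈ ball (0 : ℂ) 1) :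
    fn L z ∈ ball (0 : ℂ) 1 := by
  have h1 := h.norm_fn_le hz
  rw [mem_ball_zero_iff] at hz ⊢
  linarith

theorem UU.diff_fn {L : ℂ → ℂ} (h : UU L) : DifferentiableOn ℂ (fn L) (ball 0 1) := by
  unfold fn
  exact differentiableOn_id.mul h.diff.cexp

theorem fn_cmp (L K : ℂ → ℂ) (z : ℂ) : fn (cmp L K) z = fn L (fn K z) := by
  simp only [fn, cmp, Complex.exp_add]
  ring

theorem fn_rt_pow {k : ℕ} (hk : k ≠ 0) (L : ℂ → ℂ) (z : ℂ) : fn (rt k L) z ^ k = fn L (z ^ k) := by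
  have hk' : (k : ℂ) ≠ 0 := by exact_mod_cast hk
  simp only [fn, rt, mul_pow, ← Complex.exp_nat_mul]
  rw [mul_div_cancel₀ _ hk']

theorem fn_rot (t : ℝ) (L : ℂ → ℂ) (z : ℂ) :
    fn (rot t L) z = Complex.exp (-(t * Complex.I)) * fn L (Complex.exp (t * Complex.I) * z) := by
  simp only [fn, rot, Complex.exp_neg]
  have := Complex.exp_ne_zero (t * Complex.I)
  field_simp

theorem fn_dil {s : ℝ} (hs : 0 < s) (L : ℂ → ℂ) (z : ℂ) : fn (dil s L) z = fn L (s * z) := by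
  simp only [fn, dil, Complex.exp_add]
  rw [Complex.ofReal_log hs.le, Complex.exp_log (by exact_mod_cast hs.ne')]
  ring

end Pool.Agent.H49.SZ
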