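import Pool.Agent.H49.SZ.Step

set_option autoImplicit false

/-!
# [H49 SZ SNOW] Univalent functions with large integral means

Induction on `n`: `L = 0` for `n = 0` (`fn 0 z = z`, `lgd 0 z = 1`), then `step` with `r = (1/2)^(1/k^(n+1))`, `r^k = (1/2)^(1/k^n)`.
`(cmp (rot t P) (rt k L)) 0 = L 0 / k + P 0`.
-/

namespace Pool.Agent.H49.SZ

open Set Metric Real

theorem UU_zero : UU (fun _ => 0) := by
  refine ⟨differentiableOn_const _, fun z _ => by simp, by simp, ?_⟩
  intro z _ w _ h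
  simpa [fn] using h

theorem snow {N : ℝ → ℝ} (hN : Continuous N) {P : ℂ → ℂ} (hP : UU P) {k : ℕ} (hk : 2 ≤ k) {κ : ℝ}
    (hκ : 0 ≤ κ) (hcert : ∀ x : ℝ, 0 < x → x < 1 → κ * N (x ^ k) ≤ EN N P x) (n : ℕ) :
    ∃ L : ℂ → ℂ, UU L ∧ -(L 0).re ≤ 2 * -(P 0).re ∧
      κ ^ n * N (1 / 2) ≤ EN N L ((1 / 2 : ℝ) ^ ((1 : ℝ) / (k : ℝ) ^ n)) := by
  have hP0 : (P 0).re ≤ 0 := hP.re 0 (mem_ball_self one_pos)
  have hk0 : k ≠ 0 := by omega
  have hkr : (2 : ℝ) ≤ k := by exact_mod_cast hk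
  induction n with
  | zero =>
    refine ⟨fun _ => 0, UU_zero, by simp only [Complex.zero_re, neg_zero]; linarith, ?_⟩
    have h1 : EN N (fun _ => 0) (1 / 2) = N (1 / 2) := by
      rw [EN, circleAverage, smul_eq_mul]
      have h2 : ∀ t : ℝ, N ‖fn (fun _ => 0) (circleMap 0 (1 / 2) t)‖ *
          ‖lgd (fun _ => 0) (circleMap 0 (1 / 2) t)‖ = N (1 / 2) := by
        intro t
        have e1 : ‖fn (fun _ => 0) (circleMap 0 (1 / 2) t)‖ = 1 / 2 := by
          rw [norm_fn, norm_circleMap_zero]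
          simp
        have e2 : lgd (fun _ => 0) (circleMap 0 (1 / 2) t) = 1 := by
          simp [lgd]
        rw [e1, e2, norm_one, mul_one]
      simp only [h2]
      rw [intervalIntegral.integral_const, sub_zero, smul_eq_mul, ← mul_assoc,
        inv_mul_cancel₀ (by positivity), one_mul]
    rw [pow_zero, pow_zero, one_mul, div_one, Real.rpow_one, h1]
  | succ n ih =>
    obtain ⟨L, hL, hb, hE⟩ := ih
    set r : ℝ := (1 / 2 : ℝ) ^ ((1 : ℝ) / (k : ℝ) ^ (n + 1)) with hr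
    have hkp : (0 : ℝ) < (k : ℝ) ^ (n + 1) := by positivity
    have hr0 : 0 < r := Real.rpow_pos_of_pos (by norm_num) _
    have hr1 : r < 1 := Real.rpow_lt_one (by norm_num) (by norm_num) (by positivity)
    have hrk : r ^ k = (1 / 2 : ℝ) ^ ((1 : ℝ) / (k : ℝ) ^ n) := by
      rw [hr, ← Real.rpow_natCast, ← Real.rpow_mul (by norm_num)]
      congr 1
      rw [pow_succ]
      have : (k : ℝ) ≠ 0 := by positivity
      field_simp
    obtain ⟨t, ht⟩ := step hN hP hk0 hcert hL hr0 hr1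
    refine ⟨cmp (rot t P) (rt k L), (hP.rot t).cmp (hL.rt hk0), ?_, ?_⟩
    · have e1 : cmp (rot t P) (rt k L) 0 = L 0 / k + P 0 := by
        simp [cmp, rot, rt, fn_zero, zero_pow hk0]
      rw [e1, Complex.add_re, Complex.div_natCast_re]
      have h3 : -(L 0).re / k ≤ 2 * -(P 0).re / k :=
        div_le_div_of_nonneg_right hb (by positivity)
      have h4 : 2 * -(P 0).re / k ≤ -(P 0).re := by
        rw [div_le_iff₀ (by positivity)]
        nlinarith
      have h5 : -((L 0).re / k) = -(L 0).re / k := by ring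
      linarith
    · refine le_trans ?_ ht
      rw [hrk, pow_succ']
      calc κ * κ ^ n * N (1 / 2) = κ * (κ ^ n * N (1 / 2)) := by ring
        _ ≤ _ := mul_le_mul_of_nonneg_left hE hκ

end Pool.Agent.H49.SZ
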