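import Pool.Agent.H49.SZ.Glu
import Pool.Agent.H49.SZ.Snow

set_option autoImplicit false

/-!
# [H49 SZ FIN] The contradiction

`tail_bound`: with `r = (1/2)^(1/20^n)`, `m = N * 20^n * n^2`: `r^((j+m+1)/N) ≤ 2^(-n^2) * 2^(-j/(N 20^n))`; `(j+m+3)^2 ≤ 2 (j+1)^2 (m+3)^2`...
any bound of the form `C_N * (20^n)^p * n^q * 2^(-n^2)` is enough, so the tail is bounded by a constant depending on `N` only.
`main_fin`: `E_n := EN NN L_n r_n ≥ 1.95^n NN (1/2)`, `NN s ≤ s^(0.1) ≤ s^(lam/N)` for `0 ≤ s ≤ 1`, `lam/N ≤ 0.1` (`N₀ = 10`);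
`m^(2 lam) ≤ m^(2/9)`, `m = N 20^n n^2`; `(20^n)^(2/9) = (20^(2/9))^n`, `20^(2/9) < 1.946 < 1.95` (`20^2 < 1.946^9`).
-/

namespace Pool.Agent.H49.SZ

open Set Metric Real Filter Topology

theorem fin_num (n : ℕ) (hn : 1 ≤ n) :
    (20 : ℝ) ^ (5 * n) * (n : ℝ) ^ 4 ≤ 2 ^ 169 * 2 ^ (n ^ 2) := by
  have h1 : (20 : ℝ) ^ (5 * n) ≤ 2 ^ (22 * n) := by
    rw [pow_mul, pow_mul]
    exact pow_le_pow_left₀ (by norm_num) (by norm_num) n
  have h2 : (n : ℝ) ^ 4 ≤ 2 ^ (4 * n) := by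
    have h3 : (n : ℝ) ≤ 2 ^ n := by exact_mod_cast Nat.lt_two_pow_self.le
    rw [mul_comm, pow_mul]
    exact pow_le_pow_left₀ (Nat.cast_nonneg n) h3 4
  have h3 : 22 * n + 4 * n ≤ 169 + n ^ 2 := by
    have : (22 * n + 4 * n : ℤ) ≤ 169 + n ^ 2 := by nlinarith [sq_nonneg ((n : ℤ) - 13)]
    exact_mod_cast this
  calc (20 : ℝ) ^ (5 * n) * (n : ℝ) ^ 4 ≤ 2 ^ (22 * n) * 2 ^ (4 * n) :=
        mul_le_mul h1 h2 (by positivity) (by positivity)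
    _ = 2 ^ (22 * n + 4 * n) := (pow_add _ _ _).symm
    _ ≤ 2 ^ (169 + n ^ 2) := pow_le_pow_right₀ (by norm_num) h3
    _ = 2 ^ 169 * 2 ^ (n ^ 2) := pow_add _ _ _

theorem tail_bound (N : ℕ) (hN : 1 ≤ N) : ∃ C : ℝ, ∀ n : ℕ, 1 ≤ n →
    ∑' j : ℕ, ((j : ℝ) + (N * 20 ^ n * n ^ 2 : ℕ) + 3) ^ 2 *
      ((1 / 2 : ℝ) ^ ((1 : ℝ) / (20 : ℝ) ^ n)) ^ (((j : ℝ) + (N * 20 ^ n * n ^ 2 : ℕ) + 1) / N) ≤
      C := by
  refine ⟨256 * (N : ℝ) ^ 5 * 2 ^ 169, fun n hn => ?_⟩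
  have hN1 : (1 : ℝ) ≤ N := by exact_mod_cast hN
  have hn1 : (1 : ℝ) ≤ n := by exact_mod_cast hn
  have hT : (1 : ℝ) ≤ (20 : ℝ) ^ n := one_le_pow₀ (by norm_num)
  set a : ℝ := N * 20 ^ n with ha
  have ha1 : 1 ≤ a := by
    rw [ha]
    nlinarith
  have ha0 : 0 < a := by linarith
  have hM : ((N * 20 ^ n * n ^ 2 : ℕ) : ℝ) = a * n ^ 2 := by
    push_cast
    ring
  rw [hM]
  set M : ℝ := a * n ^ 2 with hMdef
  have hn2 : (1 : ℝ) ≤ (n : ℝ) ^ 2 := one_le_pow₀ hn1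
  have hM1 : 1 ≤ M := by
    rw [hMdef]
    nlinarith
  set q : ℝ := (1 / 2 : ℝ) ^ (1 / a) with hq
  have hq0 : 0 < q := Real.rpow_pos_of_pos (by norm_num) _
  have hqa : q ^ a = 1 / 2 := by
    rw [hq, ← Real.rpow_mul (by norm_num), one_div_mul_cancel ha0.ne', Real.rpow_one]
  -- Bernoulli
  have hq1 : q ≤ 1 - 1 / (2 * a) := by
    have h1 : 1 + a * (-(1 / (2 * a))) ≤ (1 + -(1 / (2 * a))) ^ a := by
      apply one_add_mul_self_le_rpow_one_add _ ha1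
      rw [neg_le_neg_iff, div_le_one (by positivity)]
      linarith
    have h2 : 1 + a * (-(1 / (2 * a))) = 1 / 2 := by
      field_simp
      norm_num
    rw [h2, ← hqa] at h1
    have h3 : 0 ≤ 1 + -(1 / (2 * a)) := by
      have : 1 / (2 * a) ≤ 1 := by
        rw [div_le_one (by positivity)]
        linarith
      linarith
    have h4 := (Real.rpow_le_rpow_iff hq0.le h3 ha0).1 h1
    linarith
  have hq2 : q < 1 := by
    have : 0 < 1 / (2 * a) := by positivity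
    linarith
  have hterm : ∀ j : ℕ, ((j : ℝ) + M + 3) ^ 2 *
      ((1 / 2 : ℝ) ^ ((1 : ℝ) / (20 : ℝ) ^ n)) ^ (((j : ℝ) + M + 1) / N) ≤
      (2 * (M + 3) ^ 2 * (1 / 2) ^ (n ^ 2)) * (((j + 2).choose 2 : ℕ) * q ^ j) := by
    intro j
    have hj : (0 : ℝ) ≤ j := Nat.cast_nonneg j
    have h1 : ((1 / 2 : ℝ) ^ ((1 : ℝ) / (20 : ℝ) ^ n)) ^ (((j : ℝ) + M + 1) / N) ≤
        (1 / 2) ^ (n ^ 2) * q ^ j := by
      have e1 : ((1 / 2 : ℝ) ^ ((1 : ℝ) / (20 : ℝ) ^ n)) ^ (((j : ℝ) + M + 1) / N) =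
          q ^ ((j : ℝ) + M + 1) := by
        rw [hq, ← Real.rpow_mul (by norm_num), ← Real.rpow_mul (by norm_num)]
        congr 1
        rw [ha]
        have : (N : ℝ) ≠ 0 := by positivity
        have h20 : (20 : ℝ) ^ n ≠ 0 := by positivity
        field_simp
      rw [e1, Real.rpow_add hq0, Real.rpow_add hq0, Real.rpow_one, Real.rpow_natCast]
      have e2 : q ^ M = (1 / 2) ^ (n ^ 2) := by
        rw [hMdef, Real.rpow_mul hq0.le, hqa]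
        have : ((n : ℝ) ^ 2) = ((n ^ 2 : ℕ) : ℝ) := by push_cast; ring
        rw [this, Real.rpow_natCast]
      rw [e2]
      have h5 : 0 ≤ q ^ j * (1 / 2 : ℝ) ^ (n ^ 2) := by positivity
      calc q ^ j * (1 / 2) ^ (n ^ 2) * q ≤ q ^ j * (1 / 2) ^ (n ^ 2) * 1 :=
            mul_le_mul_of_nonneg_left hq2.le h5
        _ = (1 / 2) ^ (n ^ 2) * q ^ j := by ring
    have h2 : ((j : ℝ) + M + 3) ^ 2 ≤ (2 * (M + 3) ^ 2) * ((j + 2).choose 2 : ℕ) := by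
      have e3 : (((j + 2).choose 2 : ℕ) : ℝ) = (j + 2) * (j + 1) / 2 := by
        rw [Nat.cast_choose_two]
        push_cast
        ring
      rw [e3]
      have h6 : (j : ℝ) + M + 3 ≤ (j + 1) * (M + 3) := by nlinarith
      calc ((j : ℝ) + M + 3) ^ 2 ≤ ((j + 1) * (M + 3)) ^ 2 :=
            pow_le_pow_left₀ (by positivity) h6 2
        _ = (j + 1) ^ 2 * (M + 3) ^ 2 := by ring
        _ ≤ ((j + 2) * (j + 1)) * (M + 3) ^ 2 := by
            apply mul_le_mul_of_nonneg_right _ (by positivity)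
            nlinarith
        _ = _ := by ring
    calc ((j : ℝ) + M + 3) ^ 2 *
          ((1 / 2 : ℝ) ^ ((1 : ℝ) / (20 : ℝ) ^ n)) ^ (((j : ℝ) + M + 1) / N)
        ≤ ((2 * (M + 3) ^ 2) * ((j + 2).choose 2 : ℕ)) * ((1 / 2) ^ (n ^ 2) * q ^ j) :=
          mul_le_mul h2 h1 (by positivity) (by positivity)
      _ = _ := by ring
  have hqn : ‖q‖ < 1 := by
    rw [Real.norm_eq_abs, abs_of_pos hq0]
    exact hq2
  have hs := (summable_choose_mul_geometric_of_norm_lt_one 2 hqn).mul_left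
    (2 * (M + 3) ^ 2 * (1 / 2) ^ (n ^ 2))
  have hs' : Summable fun j : ℕ => ((j : ℝ) + M + 3) ^ 2 *
      ((1 / 2 : ℝ) ^ ((1 : ℝ) / (20 : ℝ) ^ n)) ^ (((j : ℝ) + M + 1) / N) :=
    Summable.of_nonneg_of_le (fun j => by positivity) hterm hs
  refine (hs'.tsum_le_tsum hterm hs).trans ?_
  rw [tsum_mul_left, tsum_choose_mul_geometric_of_norm_lt_one 2 hqn]
  have h7 : 1 / (1 - q) ^ (2 + 1) ≤ (2 * a) ^ 3 := by
    have h8 : 1 / (2 * a) ≤ 1 - q := by linarith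
    have h9 : 0 < 1 / (2 * a) := by positivity
    rw [div_le_iff₀ (pow_pos (by linarith) _)]
    calc (1 : ℝ) = ((2 * a) * (1 / (2 * a))) ^ 3 := by
          rw [mul_one_div_cancel (by positivity)]
          norm_num
      _ = (2 * a) ^ 3 * (1 / (2 * a)) ^ 3 := mul_pow _ _ _
      _ ≤ (2 * a) ^ 3 * (1 - q) ^ (2 + 1) := by
          apply mul_le_mul_of_nonneg_left _ (by positivity)
          exact pow_le_pow_left₀ h9.le h8 3
  have h10 : (M + 3) ^ 2 ≤ (4 * M) ^ 2 := pow_le_pow_left₀ (by positivity) (by linarith) 2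
  have h11 := fin_num n hn
  have hpos : (0 : ℝ) < 2 ^ (n ^ 2) := by positivity
  calc 2 * (M + 3) ^ 2 * (1 / 2) ^ (n ^ 2) * (1 / (1 - q) ^ (2 + 1))
      ≤ 2 * (4 * M) ^ 2 * (1 / 2) ^ (n ^ 2) * (2 * a) ^ 3 := by
        apply mul_le_mul _ h7 _ (by positivity)
        · apply mul_le_mul_of_nonneg_right _ (by positivity)
          linarith
        · have : 0 < 1 - q := by linarith
          positivity
    _ = 256 * (N : ℝ) ^ 5 * (((20 : ℝ) ^ (5 * n) * (n : ℝ) ^ 4) * (1 / 2) ^ (n ^ 2)) := by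
        rw [hMdef, ha]
        ring
    _ ≤ 256 * (N : ℝ) ^ 5 * ((2 ^ 169 * 2 ^ (n ^ 2)) * (1 / 2) ^ (n ^ 2)) := by
        apply mul_le_mul_of_nonneg_left _ (by positivity)
        exact mul_le_mul_of_nonneg_right h11 (by positivity)
    _ = 256 * (N : ℝ) ^ 5 * 2 ^ 169 := by
        have : (2 : ℝ) ^ (n ^ 2) * (1 / 2) ^ (n ^ 2) = 1 := by
          rw [← mul_pow]
          norm_num
        rw [mul_assoc (2 ^ 169 : ℝ), this, mul_one]

/-- the growth comparison -/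
theorem growth (N : ℕ) (C D : ℝ) {lam : ℝ} (h0 : 0 < lam) (h9 : lam ≤ 1 / 9) :
    ∃ n₀ : ℕ, ∀ n ≥ n₀, C * (((N * 20 ^ n * n ^ 2 : ℕ) : ℝ) ^ (2 * lam) + D) <
      1.95 ^ n * NN (1 / 2) := by
  have hNN : 0 < NN (1 / 2) := by
    have : 0 < (1 / 2 : ℝ) ^ (0.1 : ℝ) := Real.rpow_pos_of_pos (by norm_num) _
    unfold NN
    linarith
  have hg : (20 : ℝ) ^ (2 / 9 : ℝ) ≤ 1.946 := by
    have e1 : (1.946 : ℝ) = ((1.946 : ℝ) ^ (9 : ℕ)) ^ (1 / 9 : ℝ) := by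
      rw [← Real.rpow_natCast, ← Real.rpow_mul (by norm_num)]
      norm_num
    have e2 : (20 : ℝ) ^ (2 / 9 : ℝ) = ((20 : ℝ) ^ (2 : ℕ)) ^ (1 / 9 : ℝ) := by
      rw [← Real.rpow_natCast, ← Real.rpow_mul (by norm_num)]
      norm_num
    rw [e1, e2]
    exact Real.rpow_le_rpow (by norm_num) (by norm_num) (by norm_num)
  have hM : ∀ n : ℕ, ((N * 20 ^ n * n ^ 2 : ℕ) : ℝ) ^ (2 * lam) ≤
      ((N : ℝ) + 1) * ((n : ℝ) + 1) ^ 2 * 1.946 ^ n := by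
    intro n
    have hn0 : (0 : ℝ) ≤ n := Nat.cast_nonneg n
    have hN0 : (0 : ℝ) ≤ N := Nat.cast_nonneg N
    have hT : (1 : ℝ) ≤ (20 : ℝ) ^ n := one_le_pow₀ (by norm_num)
    have h1 : ((N * 20 ^ n * n ^ 2 : ℕ) : ℝ) ≤ ((N : ℝ) + 1) * (20 ^ n * ((n : ℝ) + 1) ^ 2) := by
      push_cast
      rw [mul_assoc]
      apply mul_le_mul (by linarith) _ (by positivity) (by positivity)
      apply mul_le_mul_of_nonneg_left _ (by positivity)
      exact pow_le_pow_left₀ hn0 (by linarith) 2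
    have h2 : (1 : ℝ) ≤ ((n : ℝ) + 1) ^ 2 := one_le_pow₀ (by linarith)
    have h3 : (1 : ℝ) ≤ ((N : ℝ) + 1) * (20 ^ n * ((n : ℝ) + 1) ^ 2) := by
      have : (1 : ℝ) ≤ 20 ^ n * ((n : ℝ) + 1) ^ 2 := one_le_mul_of_one_le_of_one_le hT h2
      exact one_le_mul_of_one_le_of_one_le (by linarith) this
    calc ((N * 20 ^ n * n ^ 2 : ℕ) : ℝ) ^ (2 * lam)
        ≤ (((N : ℝ) + 1) * (20 ^ n * ((n : ℝ) + 1) ^ 2)) ^ (2 * lam) :=
          Real.rpow_le_rpow (Nat.cast_nonneg _) h1 (by linarith)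
      _ ≤ (((N : ℝ) + 1) * (20 ^ n * ((n : ℝ) + 1) ^ 2)) ^ (2 / 9 : ℝ) :=
          Real.rpow_le_rpow_of_exponent_le h3 (by linarith)
      _ = ((N : ℝ) + 1) ^ (2 / 9 : ℝ) * (((20 : ℝ) ^ n) ^ (2 / 9 : ℝ) *
            (((n : ℝ) + 1) ^ 2) ^ (2 / 9 : ℝ)) := by
          rw [Real.mul_rpow (by positivity) (by positivity),
            Real.mul_rpow (by positivity) (by positivity)]
      _ ≤ ((N : ℝ) + 1) * (1.946 ^ n * ((n : ℝ) + 1) ^ 2) := by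
          have a1 : ((N : ℝ) + 1) ^ (2 / 9 : ℝ) ≤ (N : ℝ) + 1 := by
            calc ((N : ℝ) + 1) ^ (2 / 9 : ℝ) ≤ ((N : ℝ) + 1) ^ (1 : ℝ) :=
                  Real.rpow_le_rpow_of_exponent_le (by linarith) (by norm_num)
              _ = (N : ℝ) + 1 := Real.rpow_one _
          have a2 : (((n : ℝ) + 1) ^ 2) ^ (2 / 9 : ℝ) ≤ ((n : ℝ) + 1) ^ 2 := by
            calc (((n : ℝ) + 1) ^ 2) ^ (2 / 9 : ℝ) ≤ (((n : ℝ) + 1) ^ 2) ^ (1 : ℝ) :=
                  Real.rpow_le_rpow_of_exponent_le h2 (by norm_num)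
              _ = _ := Real.rpow_one _
          have a3 : ((20 : ℝ) ^ n) ^ (2 / 9 : ℝ) ≤ 1.946 ^ n := by
            rw [← Real.rpow_natCast, ← Real.rpow_mul (by norm_num), mul_comm,
              Real.rpow_mul (by norm_num), Real.rpow_natCast]
            exact pow_le_pow_left₀ (Real.rpow_nonneg (by norm_num) _) hg n
          apply mul_le_mul a1 _ (by positivity) (by positivity)
          exact mul_le_mul a3 a2 (by positivity) (by positivity)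
      _ = _ := by ring
  set r : ℝ := 1.946 / 1.95 with hr
  have hr0 : 0 < r := by rw [hr]; norm_num
  have hr1 : r < 1 := by rw [hr]; norm_num
  have t1 : Tendsto (fun n : ℕ => (((n : ℕ) + 1 : ℕ) : ℝ) ^ 2 * r ^ (n + 1)) atTop (𝓝 0) := by
    have := tendsto_pow_const_mul_const_pow_of_abs_lt_one 2 (r := r) (by
      rw [abs_of_pos hr0]; exact hr1)
    exact this.comp (tendsto_add_atTop_nat 1)
  have t2 : Tendsto (fun n : ℕ => (1 / 1.95 : ℝ) ^ n) atTop (𝓝 0) :=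
    tendsto_pow_atTop_nhds_zero_of_lt_one (by norm_num) (by norm_num)
  have t3 : Tendsto (fun n : ℕ => |C| * (((N : ℝ) + 1) * ((((n : ℕ) + 1 : ℕ) : ℝ) ^ 2 *
      r ^ (n + 1)) * r⁻¹ + |D| * (1 / 1.95 : ℝ) ^ n)) atTop (𝓝 0) := by
    have := (((t1.const_mul ((N : ℝ) + 1)).mul_const r⁻¹).add (t2.const_mul |D|)).const_mul |C|
    simpa using this
  obtain ⟨n₀, hn₀⟩ := eventually_atTop.1 (t3.eventually (gt_mem_nhds hNN))
  refine ⟨n₀, fun n hn => ?_⟩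
  have h1 := hn₀ n hn
  have h195 : (0 : ℝ) < 1.95 ^ n := by positivity
  have h2 : C * (((N * 20 ^ n * n ^ 2 : ℕ) : ℝ) ^ (2 * lam) + D) ≤
      |C| * (((N : ℝ) + 1) * ((n : ℝ) + 1) ^ 2 * 1.946 ^ n + |D|) := by
    have hp : 0 ≤ ((N * 20 ^ n * n ^ 2 : ℕ) : ℝ) ^ (2 * lam) :=
      Real.rpow_nonneg (Nat.cast_nonneg _) _
    calc C * (((N * 20 ^ n * n ^ 2 : ℕ) : ℝ) ^ (2 * lam) + D)
        ≤ |C * (((N * 20 ^ n * n ^ 2 : ℕ) : ℝ) ^ (2 * lam) + D)| := le_abs_self _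
      _ = |C| * |((N * 20 ^ n * n ^ 2 : ℕ) : ℝ) ^ (2 * lam) + D| := abs_mul _ _
      _ ≤ |C| * (((N * 20 ^ n * n ^ 2 : ℕ) : ℝ) ^ (2 * lam) + |D|) := by
          apply mul_le_mul_of_nonneg_left _ (abs_nonneg C)
          refine (abs_add_le _ _).trans ?_
          rw [abs_of_nonneg hp]
      _ ≤ _ := by
          apply mul_le_mul_of_nonneg_left _ (abs_nonneg C)
          have := hM n
          linarith
  refine h2.trans_lt ?_
  have e3 : |C| * (((N : ℝ) + 1) * ((n : ℝ) + 1) ^ 2 * 1.946 ^ n + |D|) =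
      1.95 ^ n * (|C| * (((N : ℝ) + 1) * ((((n : ℕ) + 1 : ℕ) : ℝ) ^ 2 *
      r ^ (n + 1)) * r⁻¹ + |D| * (1 / 1.95 : ℝ) ^ n)) := by
    have e4 : (1.946 : ℝ) ^ n = 1.95 ^ n * r ^ n := by
      rw [← mul_pow, hr]
      norm_num
    have e5 : (1.95 : ℝ) ^ n * (1 / 1.95) ^ n = 1 := by
      rw [← mul_pow]
      norm_num
    have hr' : r ≠ 0 := hr0.ne'
    have e6 : r ^ (n + 1) * r⁻¹ = r ^ n := by
      rw [pow_succ, mul_assoc, mul_inv_cancel₀ hr', mul_one]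
    push_cast
    calc |C| * (((N : ℝ) + 1) * ((n : ℝ) + 1) ^ 2 * 1.946 ^ n + |D|)
        = |C| * (((N : ℝ) + 1) * ((n : ℝ) + 1) ^ 2 * (1.95 ^ n * (r ^ (n + 1) * r⁻¹)) +
            |D| * ((1.95 : ℝ) ^ n * (1 / 1.95) ^ n)) := by rw [e5, mul_one, e6, e4]
      _ = _ := by ring
  rw [e3]
  exact mul_lt_mul_of_pos_left h1 h195

theorem continuous_NN : Continuous NN := by
  unfold NN
  exact (continuous_const.mul (Real.continuous_rpow_const (by norm_num))).add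
    (continuous_const.mul continuous_id)

end Pool.Agent.H49.SZ
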