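import Pool.Agent.H49.SZ.Cls

set_option autoImplicit false

/-!
# [H49 SZ] Fubini for continuous functions, pigeonhole for averages
-/

namespace Pool.Agent.H49.SZ

open Set Metric Real MeasureTheory

theorem fubini {E : Type*} [NormedAddCommGroup E] [NormedSpace ℝ E] (f : ℝ → ℝ → E)
    (hf : Continuous (Function.uncurry f)) {a b c d : ℝ} (hab : a ≤ b) (hcd : c ≤ d) :
    ∫ x in a..b, ∫ y in c..d, f x y = ∫ y in c..d, ∫ x in a..b, f x y := by
  simp only [intervalIntegral.integral_of_le hab, intervalIntegral.integral_of_le hcd]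
  apply integral_integral_swap
  rw [Measure.prod_restrict]
  have h1 : IntegrableOn (Function.uncurry f) (Icc a b ×ˢ Icc c d) (volume.prod volume) :=
    hf.continuousOn.integrableOn_compact (isCompact_Icc.prod isCompact_Icc)
  exact h1.mono_set (prod_mono Ioc_subset_Icc_self Ioc_subset_Icc_self)

theorem circleMap_mem {r : ℝ} (h0 : 0 ≤ r) (h1 : r < 1) (t : ℝ) :
    circleMap 0 r t ∈ ball (0 : ℂ) 1 := by
  rw [mem_ball_zero_iff, norm_circleMap_zero, abs_of_nonneg h0]
  exact h1

theorem cont_circle {E : Type*} [TopologicalSpace E] {F : ℂ → E}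
    (hF : ContinuousOn F (ball 0 1)) {r : ℝ} (h0 : 0 ≤ r) (h1 : r < 1) :
    Continuous fun t : ℝ => F (circleMap 0 r t) :=
  hF.comp_continuous (continuous_circleMap 0 r) fun t => circleMap_mem h0 h1 t

theorem circleInt {F : ℂ → ℝ} (hF : ContinuousOn F (ball 0 1)) {r : ℝ} (h0 : 0 ≤ r) (h1 : r < 1) :
    CircleIntegrable F 0 r :=
  (cont_circle hF h0 h1).intervalIntegrable _ _

end Pool.Agent.H49.SZ
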