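import Pool.Agent.H49.SZ.VPk

set_option autoImplicit false

/-!
# [H49 SZ VP] The Vallée Poussin mean
-/

namespace Pool.Agent.H49.SZ

open Set Metric Real Filter Topology

section
variable {H : ℂ → ℂ} {R : ℝ}

theorem cont_H (hR : 1 < R) (hH : DifferentiableOn ℂ H (ball 0 R)) :
    Continuous fun t => H (ec t) := by
  apply hH.continuousOn.comp_continuous cont_ec
  intro t
  rw [mem_ball_zero_iff, norm_ec]
  exact hR

/-- the phase -/
noncomputable def ph (H : ℂ → ℂ) (t : ℝ) : ℂ :=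
  (starRingEnd ℂ) (H (ec t)) * ((‖H (ec t)‖ : ℝ) : ℂ)⁻¹

theorem cont_ph (hR : 1 < R) (hH : DifferentiableOn ℂ H (ball 0 R))
    (h0 : ∀ z : ℂ, ‖z‖ = 1 → H z ≠ 0) : Continuous (ph H) := by
  have h1 := cont_H hR hH
  unfold ph
  apply (Complex.continuous_conj.comp h1).mul
  apply (Complex.continuous_ofReal.comp h1.norm).inv₀
  intro t
  have h2 := (norm_pos_iff.2 (h0 _ (norm_ec t))).ne'
  simp only [Function.comp_apply]
  exact_mod_cast h2

theorem norm_ph (h0 : ∀ z : ℂ, ‖z‖ = 1 → H z ≠ 0) (t : ℝ) : ‖ph H t‖ = 1 := by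
  have h1 := norm_pos_iff.2 (h0 _ (norm_ec t))
  rw [ph, norm_mul, RCLike.norm_conj, norm_inv, Complex.norm_real, norm_norm,
    mul_inv_cancel₀ h1.ne']

theorem ph_mul (h0 : ∀ z : ℂ, ‖z‖ = 1 → H z ≠ 0) (t : ℝ) :
    H (ec t) * ph H t = ((‖H (ec t)‖ : ℝ) : ℂ) := by
  have h1 := norm_pos_iff.2 (h0 _ (norm_ec t))
  have h2 : ((‖H (ec t)‖ : ℝ) : ℂ) ≠ 0 := by exact_mod_cast h1.ne'
  have h3 : H (ec t) * (starRingEnd ℂ) (H (ec t)) = ((‖H (ec t)‖ : ℝ) : ℂ) ^ 2 := by
    rw [Complex.mul_conj, Complex.normSq_eq_norm_sq]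
    push_cast
    rfl
  rw [ph, ← mul_assoc, h3]
  field_simp

/-- Fourier coefficients of the phase -/
noncomputable def pp (H : ℂ → ℂ) (a b : ℕ) : ℂ := av fun t => ph H t * (ec t ^ b * (ec t ^ a)⁻¹)

theorem pp_le {a b : ℕ} (h : a ≤ b) : pp H a b = pp H 0 (b - a) := by
  unfold pp
  congr 1
  funext t
  have h1 : ec t ^ b = ec t ^ (b - a) * ec t ^ a := by
    rw [← pow_add, Nat.sub_add_cancel h]
  have h2 : ec t ^ a ≠ 0 := pow_ne_zero _ (ec_ne t)
  rw [h1, pow_zero, inv_one, mul_one, mul_assoc (ec t ^ (b - a)), mul_inv_cancel₀ h2, mul_one]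

theorem norm_pp (h0 : ∀ z : ℂ, ‖z‖ = 1 → H z ≠ 0) (a b : ℕ) : ‖pp H a b‖ ≤ 1 := by
  apply (norm_av _).trans
  have h1 : ∀ t, ‖ph H t * (ec t ^ b * (ec t ^ a)⁻¹)‖ = 1 := by
    intro t
    rw [norm_mul, norm_mul, norm_inv, norm_pow, norm_pow, norm_ec, norm_ph h0]
    simp
  simp only [h1]
  rw [intervalIntegral.integral_const, sub_zero, smul_eq_mul, mul_one,
    inv_mul_cancel₀ (by positivity)]

/-- Fejer sum of the phase -/
noncomputable def SS (H : ℂ → ℂ) (n : ℕ) (z : ℂ) : ℂ :=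
  ∑ a ∈ Finset.range n, ∑ b ∈ Finset.range n, pp H a b * (z ^ a * (z ^ b)⁻¹)

theorem SS_eq (hR : 1 < R) (hH : DifferentiableOn ℂ H (ball 0 R))
    (h0 : ∀ z : ℂ, ‖z‖ = 1 → H z ≠ 0) (n : ℕ) (z : ℂ) :
    SS H n z = av fun t => ph H t * KK n z (ec t) := by
  have hc : ∀ a b : ℕ, Continuous fun t =>
      (z ^ a * (z ^ b)⁻¹) * (ph H t * (ec t ^ b * (ec t ^ a)⁻¹)) := fun a b =>
    continuous_const.mul ((cont_ph hR hH h0).mul (cont_mon b a))
  have e1 : (fun t => ph H t * KK n z (ec t)) = fun t => ∑ a ∈ Finset.range n,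
      ∑ b ∈ Finset.range n, (z ^ a * (z ^ b)⁻¹) * (ph H t * (ec t ^ b * (ec t ^ a)⁻¹)) := by
    funext t
    rw [KK, Finset.mul_sum]
    apply Finset.sum_congr rfl
    intro a _
    rw [Finset.mul_sum]
    apply Finset.sum_congr rfl
    intro b _
    ring
  rw [e1]
  have e2 := av_sum (Finset.range n) (F := fun a t => ∑ b ∈ Finset.range n,
    (z ^ a * (z ^ b)⁻¹) * (ph H t * (ec t ^ b * (ec t ^ a)⁻¹)))
    (fun a _ => continuous_finsetSum _ fun b _ => hc a b)
  rw [e2, SS]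
  apply Finset.sum_congr rfl
  intro a _
  have e3 := av_sum (Finset.range n) (F := fun b t =>
    (z ^ a * (z ^ b)⁻¹) * (ph H t * (ec t ^ b * (ec t ^ a)⁻¹))) (fun b _ => hc a b)
  rw [e3]
  apply Finset.sum_congr rfl
  intro b _
  rw [av_mul_left, pp]
  ring

theorem norm_SS (hR : 1 < R) (hH : DifferentiableOn ℂ H (ball 0 R))
    (h0 : ∀ z : ℂ, ‖z‖ = 1 → H z ≠ 0) (n : ℕ) {z : ℂ} (hz : ‖z‖ = 1) : ‖SS H n z‖ ≤ n := by
  rw [SS_eq hR hH h0]
  apply (norm_av _).trans
  apply le_of_eq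
  rw [← int_KK n hz]
  congr 1
  apply intervalIntegral.integral_congr
  intro t _
  simp only
  rw [norm_mul, norm_ph h0, one_mul]

/-- moments of `H` -/
noncomputable def hq (H : ℂ → ℂ) (a b : ℕ) : ℂ := av fun t => ec t ^ a * (ec t ^ b)⁻¹ * H (ec t)

theorem hq_le (hR : 1 < R) (hH : DifferentiableOn ℂ H (ball 0 R)) {a b : ℕ} (h : a ≤ b) :
    hq H a b = tc H (b - a) := by
  rw [tc_eq_avg hH one_pos hR, hq, av, circleAverage]
  congr 1
  apply intervalIntegral.integral_congr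
  intro t _
  change ec t ^ a * (ec t ^ b)⁻¹ * H (ec t) = H (ec t) * (ec t ^ (b - a))⁻¹
  have h1 : ec t ^ b = ec t ^ (b - a) * ec t ^ a := by
    rw [← pow_add, Nat.sub_add_cancel h]
  have h2 : ec t ^ a ≠ 0 := pow_ne_zero _ (ec_ne t)
  rw [h1, mul_inv, mul_comm (ec t ^ (b - a))⁻¹, ← mul_assoc, mul_inv_cancel₀ h2, one_mul,
    mul_comm]

theorem hq_gt (hR : 1 < R) (hH : DifferentiableOn ℂ H (ball 0 R)) {a b : ℕ} (h : b < a) :
    hq H a b = 0 := by
  have h3 := avg_term_neg one_pos (tc_summable hH zero_le_one hR) (n := a - b) (by omega)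
  rw [← h3, hq, av, circleAverage]
  congr 1
  apply intervalIntegral.integral_congr
  intro t _
  change ec t ^ a * (ec t ^ b)⁻¹ * H (ec t) = (∑' j, tc H j * ec t ^ j) * ec t ^ (a - b)
  have hm : ec t ∈ ball (0 : ℂ) R := by rw [mem_ball_zero_iff, norm_ec]; exact hR
  rw [(tc_hasSum hH hm).tsum_eq]
  have h1 : ec t ^ a = ec t ^ (a - b) * ec t ^ b := by
    rw [← pow_add, Nat.sub_add_cancel h.le]
  have h2 : ec t ^ b ≠ 0 := pow_ne_zero _ (ec_ne t)
  rw [h1, mul_assoc (ec t ^ (a - b)), mul_inv_cancel₀ h2, mul_one, mul_comm]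

theorem av_SS (hR : 1 < R) (hH : DifferentiableOn ℂ H (ball 0 R)) (n : ℕ) :
    av (fun t => SS H n (ec t) * H (ec t)) =
      ∑ j ∈ Finset.range n, ((n : ℂ) - j) * (pp H 0 j * tc H j) := by
  have hHc := cont_H hR hH
  have hc : ∀ a b : ℕ, Continuous fun t => pp H a b * (ec t ^ a * (ec t ^ b)⁻¹ * H (ec t)) :=
    fun a b => continuous_const.mul ((cont_mon a b).mul hHc)
  have e1 : (fun t => SS H n (ec t) * H (ec t)) = fun t => ∑ a ∈ Finset.range n,
      ∑ b ∈ Finset.range n, pp H a b * (ec t ^ a * (ec t ^ b)⁻¹ * H (ec t)) := by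
    funext t
    rw [SS, Finset.sum_mul]
    apply Finset.sum_congr rfl
    intro a _
    rw [Finset.sum_mul]
    apply Finset.sum_congr rfl
    intro b _
    ring
  rw [e1]
  have e2 := av_sum (Finset.range n) (F := fun a t => ∑ b ∈ Finset.range n,
    pp H a b * (ec t ^ a * (ec t ^ b)⁻¹ * H (ec t)))
    (fun a _ => continuous_finsetSum _ fun b _ => hc a b)
  rw [e2, ← sum_pairs (fun j => pp H 0 j * tc H j) n]
  apply Finset.sum_congr rfl
  intro a _
  have e3 := av_sum (Finset.range n) (F := fun b t =>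
    pp H a b * (ec t ^ a * (ec t ^ b)⁻¹ * H (ec t))) (fun b _ => hc a b)
  rw [e3]
  apply Finset.sum_congr rfl
  intro b _
  rw [av_mul_left]
  change pp H a b * hq H a b = _
  split_ifs with h
  · rw [hq_le hR hH h, pp_le h]
  · rw [hq_gt hR hH (by omega), mul_zero]

theorem avg_norm (hR : 1 < R) (hH : DifferentiableOn ℂ H (ball 0 R))
    (h0 : ∀ z : ℂ, ‖z‖ = 1 → H z ≠ 0) :
    HasSum (fun j => pp H 0 j * tc H j) ((circleAverage (fun z => ‖H z‖) 0 1 : ℝ) : ℂ) := by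
  have h1 := hasSum_avg zero_le_one (tc_summable hH zero_le_one hR) (cont_ph hR hH h0)
  have h2 := h1.const_smul ((2 * π)⁻¹ : ℝ)
  have e1 : (fun j => (2 * π)⁻¹ • (tc H j * ∫ t in (0 : ℝ)..2 * π, circleMap 0 1 t ^ j * ph H t)) =
      fun j => pp H 0 j * tc H j := by
    funext j
    have e2 : pp H 0 j = (2 * π)⁻¹ • ∫ t in (0 : ℝ)..2 * π, circleMap 0 1 t ^ j * ph H t := by
      rw [pp, av]
      congr 1
      apply intervalIntegral.integral_congr
      intro t _
      simp only [pow_zero, inv_one, mul_one, ec]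
      ring
    rw [e2, ← mul_smul_comm, mul_comm]
  have e3 : (2 * π)⁻¹ • ∫ t in (0 : ℝ)..2 * π, (∑' j, tc H j * circleMap 0 1 t ^ j) * ph H t =
      ((circleAverage (fun z => ‖H z‖) 0 1 : ℝ) : ℂ) := by
    rw [circleAverage]
    have e4 : ∫ t in (0 : ℝ)..2 * π, (∑' j, tc H j * circleMap 0 1 t ^ j) * ph H t =
        ((∫ t in (0 : ℝ)..2 * π, ‖H (circleMap 0 1 t)‖ : ℝ) : ℂ) := by
      rw [← intervalIntegral.integral_ofReal]
      apply intervalIntegral.integral_congr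
      intro t _
      have hm : ec t ∈ ball (0 : ℂ) R := by rw [mem_ball_zero_iff, norm_ec]; exact hR
      change (∑' j, tc H j * ec t ^ j) * ph H t = ((‖H (ec t)‖ : ℝ) : ℂ)
      rw [(tc_hasSum hH hm).tsum_eq, ph_mul h0]
    rw [e4, Complex.real_smul, smul_eq_mul]
    push_cast
    rfl
  rw [e1, e3] at h2
  exact h2

theorem vp (hR : 1 < R) (hH : DifferentiableOn ℂ H (ball 0 R))
    (h0 : ∀ z : ℂ, ‖z‖ = 1 → H z ≠ 0) {m : ℕ} (hm : 1 ≤ m) :
    ∃ g : ℂ → ℂ, Differentiable ℂ g ∧ (∀ z : ℂ, ‖z‖ ≤ 1 → ‖z ^ (m + 1) * g z‖ ≤ 1) ∧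
      1 / 3 * circleAverage (fun z => ‖H z‖) 0 1 - ∑' j : ℕ, ‖tc H (j + m + 1)‖ ≤
        ‖tc (fun z => z ^ (m + 1) * g z * H z) (3 * m)‖ := by
  obtain ⟨k, rfl⟩ : ∃ k, m = k + 1 := ⟨m - 1, by omega⟩
  set m : ℕ := k + 1 with hmk
  have hm0 : (0 : ℝ) < m := by positivity
  have hmc : (m : ℂ) ≠ 0 := by
    rw [hmk]
    exact_mod_cast Nat.succ_ne_zero k
  set G : ℕ → ℂ → ℂ := fun n z => ∑ a ∈ Finset.range n, ∑ b ∈ Finset.range n,
    pp H a b * z ^ (2 * m - 1 + a - b) with hG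
  set g : ℂ → ℂ := fun z => (3 * (m : ℂ))⁻¹ * (G (2 * m) z - G m z) with hg
  have hGd : ∀ n, Differentiable ℂ (G n) := by
    intro n
    rw [hG]
    fun_prop
  have hgd : Differentiable ℂ g := ((hGd _).sub (hGd _)).const_mul _
  have hGS : ∀ n ≤ 2 * m, ∀ z : ℂ, z ≠ 0 → z ^ (m + 1) * G n z = z ^ (3 * m) * SS H n z := by
    intro n hn z hz
    simp only [hG, SS, Finset.mul_sum]
    apply Finset.sum_congr rfl
    intro a _
    apply Finset.sum_congr rfl
    intro b hb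
    have hb' := Finset.mem_range.1 hb
    have e1 : z ^ (m + 1) * (pp H a b * z ^ (2 * m - 1 + a - b)) =
        pp H a b * z ^ (3 * m + a - b) := by
      have e2 : 3 * m + a - b = (m + 1) + (2 * m - 1 + a - b) := by omega
      rw [e2, pow_add]
      ring
    have e3 : z ^ (3 * m) * z ^ a = z ^ (3 * m + a - b) * z ^ b := by
      rw [← pow_add, ← pow_add]
      congr 1
      omega
    have e4 : z ^ b ≠ 0 := pow_ne_zero _ hz
    rw [e1]
    calc pp H a b * z ^ (3 * m + a - b)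
        = pp H a b * (z ^ (3 * m + a - b) * z ^ b * (z ^ b)⁻¹) := by
          rw [mul_assoc, mul_inv_cancel₀ e4, mul_one]
      _ = pp H a b * (z ^ (3 * m) * z ^ a * (z ^ b)⁻¹) := by rw [e3]
      _ = z ^ (3 * m) * (pp H a b * (z ^ a * (z ^ b)⁻¹)) := by ring
  have hgS : ∀ z : ℂ, z ≠ 0 → z ^ (m + 1) * g z =
      z ^ (3 * m) * ((3 * (m : ℂ))⁻¹ * (SS H (2 * m) z - SS H m z)) := by
    intro z hz
    calc z ^ (m + 1) * g z = (3 * (m : ℂ))⁻¹ * (z ^ (m + 1) * G (2 * m) z - z ^ (m + 1) * G m z) := by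
          rw [hg]; ring
      _ = _ := by
          rw [hGS _ le_rfl z hz, hGS _ (by omega) z hz]
          ring
  refine ⟨g, hgd, ?_, ?_⟩
  · have hfd : Differentiable ℂ fun z : ℂ => z ^ (m + 1) * g z := (differentiable_id.pow _).mul hgd
    intro z hz
    apply Complex.norm_le_of_forall_mem_frontier_norm_le (U := ball (0 : ℂ) 1)
      (f := fun z : ℂ => z ^ (m + 1) * g z) isBounded_ball hfd.diffContOnCl
    · intro w hw
      rw [frontier_ball _ one_ne_zero, mem_sphere_zero_iff_norm] at hw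
      have hw0 : w ≠ 0 := by rintro rfl; simp at hw
      rw [hgS w hw0, norm_mul, norm_pow, hw, one_pow, one_mul, norm_mul, norm_inv, norm_mul,
        Complex.norm_natCast]
      have e1 : ‖(3 : ℂ)‖ = 3 := by simp
      rw [e1, inv_mul_le_iff₀ (by positivity), mul_one]
      calc ‖SS H (2 * m) w - SS H m w‖ ≤ ‖SS H (2 * m) w‖ + ‖SS H m w‖ := norm_sub_le _ _
        _ ≤ ((2 * m : ℕ) : ℝ) + m :=
            add_le_add (norm_SS hR hH h0 _ hw) (norm_SS hR hH h0 _ hw)
        _ = 3 * m := by push_cast; ring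
    · rw [closure_ball _ one_ne_zero, mem_closedBall_zero_iff]
      exact hz
  · -- the coefficient
    set f : ℕ → ℂ := fun j => pp H 0 j * tc H j with hf
    have hcoef : tc (fun z => z ^ (m + 1) * g z * H z) (3 * m) =
        (3 * (m : ℂ))⁻¹ * (∑ j ∈ Finset.range (2 * m), ((2 * m : ℕ) - j : ℂ) * f j -
          ∑ j ∈ Finset.range m, ((m : ℕ) - j : ℂ) * f j) := by
      have hd : DifferentiableOn ℂ (fun z => z ^ (m + 1) * g z * H z) (ball 0 R) :=
        ((differentiable_id.pow _).mul hgd).differentiableOn.mul hH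
      rw [tc_eq_avg hd one_pos hR (3 * m)]
      have e1 : circleAverage (fun z => z ^ (m + 1) * g z * H z * (z ^ (3 * m))⁻¹) 0 1 =
          av fun t => (3 * (m : ℂ))⁻¹ *
            (SS H (2 * m) (ec t) * H (ec t) - SS H m (ec t) * H (ec t)) := by
        rw [circleAverage, av]
        congr 1
        apply intervalIntegral.integral_congr
        intro t _
        change ec t ^ (m + 1) * g (ec t) * H (ec t) * (ec t ^ (3 * m))⁻¹ = _
        rw [hgS _ (ec_ne t)]
        have h2 : ec t ^ (3 * m) ≠ 0 := pow_ne_zero _ (ec_ne t)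
        field_simp
      have hcS : ∀ n, Continuous fun t => SS H n (ec t) * H (ec t) := by
        intro n
        apply Continuous.mul _ (cont_H hR hH)
        unfold SS
        exact continuous_finsetSum _ fun a _ => continuous_finsetSum _ fun b _ =>
          continuous_const.mul (cont_mon a b)
      have e2 : av (fun t => SS H (2 * m) (ec t) * H (ec t) - SS H m (ec t) * H (ec t)) =
          av (fun t => SS H (2 * m) (ec t) * H (ec t)) - av (fun t => SS H m (ec t) * H (ec t)) := by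
        rw [av, av, av, intervalIntegral.integral_sub ((hcS _).intervalIntegrable _ _)
          ((hcS _).intervalIntegrable _ _), smul_sub]
      rw [e1, av_mul_left, e2, av_SS hR hH, av_SS hR hH]
    have hsw := sum_weights f k
    rw [← hmk] at hsw
    have hk1 : ((k : ℂ) + 1) = m := by rw [hmk]; push_cast; rfl
    rw [hk1] at hsw
    rw [hcoef, hsw]
    have hsum := avg_norm hR hH h0
    have hhs := tc_summable hH zero_le_one hR
    simp only [one_pow, mul_one] at hhs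
    have hts : Summable fun j : ℕ => ‖tc H (j + m + 1)‖ := by
      have := (summable_nat_add_iff (m + 1)).2 hhs
      exact this
    have hfn : ∀ j, ‖f j‖ ≤ ‖tc H j‖ := by
      intro j
      rw [hf]
      simp only [norm_mul]
      have := norm_pp h0 0 j
      nlinarith [norm_nonneg (tc H j), norm_nonneg (pp H 0 j)]
    set T : ℝ := ∑' j : ℕ, ‖tc H (j + m + 1)‖ with hT
    -- split the sum of the average
    have hsplit : ((circleAverage (fun z => ‖H z‖) 0 1 : ℝ) : ℂ) =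
        ∑ j ∈ Finset.range (k + 2), f j + ∑' j, f (j + m + 1) := by
      rw [← hsum.tsum_eq, ← hsum.summable.sum_add_tsum_nat_add (k + 2)]
      congr 1
    have htail : ‖∑' j, f (j + m + 1)‖ ≤ T :=
      tsum_of_norm_bounded hts.hasSum fun j => hfn _
    have hfin : ‖∑ i ∈ Finset.range k, ((k : ℂ) - i) * f (i + m + 1)‖ ≤ m * T := by
      calc ‖∑ i ∈ Finset.range k, ((k : ℂ) - i) * f (i + m + 1)‖
          ≤ ∑ i ∈ Finset.range k, ‖((k : ℂ) - i) * f (i + m + 1)‖ := norm_sum_le _ _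
        _ ≤ ∑ i ∈ Finset.range k, m * ‖tc H (i + m + 1)‖ := by
            apply Finset.sum_le_sum
            intro i hi
            have hi' := Finset.mem_range.1 hi
            rw [norm_mul]
            apply mul_le_mul _ (hfn _) (norm_nonneg _) hm0.le
            have e1 : ((k : ℂ) - i) = ((k - i : ℕ) : ℂ) := by
              rw [Nat.cast_sub hi'.le]
            rw [e1, Complex.norm_natCast]
            exact_mod_cast (by omega : k - i ≤ m)
        _ = m * ∑ i ∈ Finset.range k, ‖tc H (i + m + 1)‖ := by rw [Finset.mul_sum]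
        _ ≤ m * T := by
            apply mul_le_mul_of_nonneg_left _ hm0.le
            exact hts.sum_le_tsum _ fun i _ => norm_nonneg _
    have havg : 0 ≤ circleAverage (fun z => ‖H z‖) 0 1 := by
      apply circleAverage_nonneg_of_nonneg
      intro z _
      exact norm_nonneg _
    have hT0 : 0 ≤ T := tsum_nonneg fun j => norm_nonneg _
    set A : ℝ := circleAverage (fun z => ‖H z‖) 0 1 with hA
    -- assemble
    have e1 : (3 * (m : ℂ))⁻¹ * (m * ∑ j ∈ Finset.range (k + 2), f j +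
        ∑ i ∈ Finset.range k, ((k : ℂ) - i) * f (i + m + 1)) =
        (1 / 3 : ℂ) * A - ((1 / 3 : ℂ) * ∑' j, f (j + m + 1) -
          (3 * (m : ℂ))⁻¹ * ∑ i ∈ Finset.range k, ((k : ℂ) - i) * f (i + m + 1)) := by
      rw [hsplit]
      field_simp
      ring
    rw [e1]
    have e2 : ‖(1 / 3 : ℂ) * ∑' j, f (j + m + 1) -
        (3 * (m : ℂ))⁻¹ * ∑ i ∈ Finset.range k, ((k : ℂ) - i) * f (i + m + 1)‖ ≤ T := by
      apply (norm_sub_le _ _).trans
      rw [norm_mul, norm_mul, norm_inv, norm_mul, Complex.norm_natCast]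
      have e3 : ‖(1 / 3 : ℂ)‖ = 1 / 3 := by simp
      have e4 : ‖(3 : ℂ)‖ = 3 := by simp
      rw [e3, e4]
      have e5 : (3 * (m : ℝ))⁻¹ * ‖∑ i ∈ Finset.range k, ((k : ℂ) - i) * f (i + m + 1)‖ ≤
          (3 * (m : ℝ))⁻¹ * (m * T) := mul_le_mul_of_nonneg_left hfin (by positivity)
      have e6 : (3 * (m : ℝ))⁻¹ * (m * T) = 1 / 3 * T := by field_simp
      linarith
    have e3 : ‖(1 / 3 : ℂ) * (A : ℂ)‖ = 1 / 3 * A := by
      rw [norm_mul, Complex.norm_real, Real.norm_eq_abs, abs_of_nonneg havg]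
      simp
    have e4 := norm_sub_norm_le ((1 / 3 : ℂ) * (A : ℂ)) ((1 / 3 : ℂ) * ∑' j, f (j + m + 1) -
        (3 * (m : ℂ))⁻¹ * ∑ i ∈ Finset.range k, ((k : ℂ) - i) * f (i + m + 1))
    rw [e3] at e4
    linarith

end

end Pool.Agent.H49.SZ
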