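import Pool.Agent.H49.SZ.Low
import Pool.Agent.H49.SZ.Bai
import Pool.Agent.H49.SZ.VP
import Pool.Agent.H49.SZ.Avg

set_option autoImplicit false

/-!
# [H49 SZ GLU] The main estimate

`base_tc`: coefficients of `K₂ = dil s' (cmp (dil ρ L₀) (rt N K))` and of its perturbation.
-/

namespace Pool.Agent.H49.SZ

open Set Metric Real Filter Topology

/-- `cmp (dil ρ L₀) (rt N K)` agrees up to order `N - 1` with `K 0 / N + log ρ + L₀ (ρ a z)`, `a = exp (K 0 / N)`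
(`tc_trunc`, `tc_scale`). -/
theorem base_tc {L₀ K : ℂ → ℂ} (h₀ : UU L₀) (hK : UU K) {ρ : ℝ} (hρ : 0 < ρ) (hρ1 : ρ ≤ 1) {N : ℕ}
    (hN : 1 ≤ N) {j : ℕ} (hj : 1 ≤ j) (hjN : j < N) :
    tc (cmp (dil ρ L₀) (rt N K)) j = ((ρ : ℂ) * Complex.exp (K 0 / N)) ^ j * tc L₀ j := by
  have hN0 : N ≠ 0 := by omega
  have hNc : (N : ℂ) ≠ 0 := by exact_mod_cast hN0
  have hU : UU (cmp (dil ρ L₀) (rt N K)) := (h₀.dil hρ hρ1).cmp (hK.rt hN0)
  have hr : UU (rt N K) := hK.rt hN0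
  set a : ℂ := Complex.exp (K 0 / N) with ha
  have hEd : DifferentiableOn ℂ (fun w => Complex.exp (K w / N)) (ball 0 1) :=
    (hK.diff.div_const (N : ℂ)).cexp
  have h12 : (1 / 2 : ℝ) < 1 := by norm_num
  obtain ⟨C1, hC1, hK1⟩ := lip_on hK.diff h12
  obtain ⟨C2, hC2, hE1⟩ := lip_on hEd h12
  obtain ⟨C3, hC3, hL1⟩ := lip_on h₀.diff h12
  have hKre : ∀ w ∈ ball (0 : ℂ) 1, ‖Complex.exp (K w / N)‖ ≤ 1 := by
    intro w hw
    rw [Complex.norm_exp, Real.exp_le_one_iff]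
    have h1 := hK.re w hw
    have h2 : (K w / N).re = (K w).re / N := by
      rw [← Complex.ofReal_natCast, Complex.div_ofReal_re]
    rw [h2]
    exact div_nonpos_of_nonpos_of_nonneg h1 (Nat.cast_nonneg N)
  have hρn : ‖(ρ : ℂ)‖ = ρ := by rw [Complex.norm_real, Real.norm_eq_abs, abs_of_pos hρ]
  have hpn : ∀ z ∈ ball (0 : ℂ) (1 / 2), z ^ N ∈ closedBall (0 : ℂ) (1 / 2) := by
    intro z hz
    rw [mem_ball_zero_iff] at hz
    rw [mem_closedBall_zero_iff, norm_pow]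
    calc ‖z‖ ^ N ≤ ‖z‖ ^ 1 := pow_le_pow_of_le_one (norm_nonneg z) (by linarith) hN
      _ ≤ 1 / 2 := by rw [pow_one]; exact hz.le
  have h00 : (0 : ℂ) ∈ closedBall (0 : ℂ) (1 / 2) := mem_closedBall_self (by norm_num)
  have hsub : closedBall (0 : ℂ) (1 / 2) ⊆ ball 0 1 := closedBall_subset_ball h12
  have hB : ∀ z ∈ ball (0 : ℂ) (1 / 2), ∀ w ∈ ball (0 : ℂ) 1,
      (ρ : ℂ) * (z * Complex.exp (K w / N)) ∈ closedBall (0 : ℂ) (1 / 2) := by
    intro z hz w hw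
    rw [mem_ball_zero_iff] at hz
    rw [mem_closedBall_zero_iff, norm_mul, norm_mul, hρn]
    have h1 := hKre w hw
    calc ρ * (‖z‖ * ‖Complex.exp (K w / N)‖) ≤ 1 * (‖z‖ * 1) := by gcongr
      _ ≤ 1 / 2 := by linarith
  have e2 : tc (fun z => (K 0 / N + (Real.log ρ : ℂ)) + L₀ ((ρ * a) * z)) j =
      ((ρ : ℂ) * a) ^ j * tc L₀ j := by
    rw [tc_const_add _ (fun z => L₀ ((ρ * a) * z)) hj, tc_scale one_pos h₀.diff]
  rw [← e2]
  have hd2 : DifferentiableOn ℂ (fun z => (K 0 / N + (Real.log ρ : ℂ)) + L₀ ((ρ * a) * z))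
      (ball 0 (1 / 2)) := by
    apply DifferentiableOn.const_add
    apply h₀.diff.comp
    · fun_prop
    · intro z hz
      have := hsub (hB z hz 0 (mem_ball_self one_pos))
      rw [← mul_assoc, mul_right_comm] at this
      exact this
  have hd1 : DifferentiableOn ℂ (cmp (dil ρ L₀) (rt N K)) (ball 0 (1 / 2)) :=
    hU.diff.mono (ball_subset_ball (by norm_num))
  apply tc_trunc (m := N - 1) (M := C1 + C3 * C2) (by norm_num : (0 : ℝ) < 1 / 2) hd1 hd2 _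
    (by omega : j ≤ N - 1)
  intro z hz
  have hzN := hpn z hz
  rw [show N - 1 + 1 = N by omega]
  have hz2 := mem_ball_zero_iff.1 hz
  have i1 := hK1 _ hzN 0 h00
  have i2 := hE1 _ hzN 0 h00
  have i3 := hL1 _ (hB z hz _ (hsub hzN)) _ (hB z hz 0 (mem_ball_self one_pos))
  rw [sub_zero, norm_pow] at i1 i2
  have e3 : cmp (dil ρ L₀) (rt N K) z - ((K 0 / N + (Real.log ρ : ℂ)) + L₀ ((ρ * a) * z)) =
      (K (z ^ N) - K 0) / N +
        (L₀ (ρ * (z * Complex.exp (K (z ^ N) / N))) - L₀ (ρ * (z * Complex.exp (K 0 / N)))) := by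
    have e4 : (ρ * a) * z = (ρ : ℂ) * (z * Complex.exp (K 0 / N)) := by rw [ha]; ring
    rw [e4]
    simp only [cmp, rt, dil, fn]
    ring
  rw [e3]
  have j1 : ‖(K (z ^ N) - K 0) / N‖ ≤ C1 * ‖z‖ ^ N := by
    rw [norm_div, Complex.norm_natCast]
    have : (1 : ℝ) ≤ N := by exact_mod_cast hN
    exact (div_le_self (norm_nonneg _) this).trans i1
  have j2 : ‖L₀ (ρ * (z * Complex.exp (K (z ^ N) / N))) - L₀ (ρ * (z * Complex.exp (K 0 / N)))‖ ≤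
      C3 * C2 * ‖z‖ ^ N := by
    refine i3.trans ?_
    rw [mul_assoc C3]
    apply mul_le_mul_of_nonneg_left _ hC3
    have e5 : (ρ : ℂ) * (z * Complex.exp (K (z ^ N) / N)) - ρ * (z * Complex.exp (K 0 / N)) =
        ρ * (z * (Complex.exp (K (z ^ N) / N) - Complex.exp (K 0 / N))) := by ring
    rw [e5, norm_mul, norm_mul, hρn]
    calc ρ * (‖z‖ * ‖Complex.exp (K (z ^ N) / N) - Complex.exp (K 0 / N)‖)
        ≤ 1 * (1 * (C2 * ‖z‖ ^ N)) := by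
          gcongr
          linarith
      _ = C2 * ‖z‖ ^ N := by ring
  calc ‖(K (z ^ N) - K 0) / N + (L₀ (ρ * (z * Complex.exp (K (z ^ N) / N))) -
        L₀ (ρ * (z * Complex.exp (K 0 / N))))‖
      ≤ C1 * ‖z‖ ^ N + C3 * C2 * ‖z‖ ^ N := (norm_add_le _ _).trans (add_le_add j1 j2)
    _ = (C1 + C3 * C2) * ‖z‖ ^ N := by ring

theorem base_zero (L₀ K : ℂ → ℂ) (ρ : ℝ) {N : ℕ} (hN : 1 ≤ N) :
    cmp (dil ρ L₀) (rt N K) 0 = K 0 / N + (Real.log ρ + L₀ 0) := by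
  have hN0 : N ≠ 0 := by omega
  simp [cmp, rt, dil, fn_zero, zero_pow hN0]

/-- `|e^{-jx} - 1| ‖tc L₀ j‖ < ε` for `j ≤ J` and small `x ≥ 0` (finitely many conditions, continuity). -/
theorem close (L₀ : ℂ → ℂ) {ε : ℝ} (hε : 0 < ε) (J : ℕ) : ∃ δ : ℝ, 0 < δ ∧ δ < ε ∧
    ∀ x : ℝ, 0 ≤ x → x ≤ δ → ∀ j ≤ J, |Real.exp (-x) ^ j - 1| * ‖tc L₀ j‖ < ε := by
  have h1 : ∀ᶠ x : ℝ in 𝓝 0, ∀ j ∈ Finset.range (J + 1),
      |Real.exp (-x) ^ j - 1| * ‖tc L₀ j‖ < ε := by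
    rw [Finset.eventually_all]
    intro j _
    have hc : Continuous fun x : ℝ => |Real.exp (-x) ^ j - 1| * ‖tc L₀ j‖ := by fun_prop
    have h2 : Tendsto (fun x : ℝ => |Real.exp (-x) ^ j - 1| * ‖tc L₀ j‖) (𝓝 0) (𝓝 0) := by
      have := hc.tendsto 0
      simpa using this
    exact h2.eventually (gt_mem_nhds hε)
  obtain ⟨d, hd, h3⟩ := Metric.eventually_nhds_iff.1 h1
  refine ⟨min (d / 2) (ε / 2), by positivity, ?_, ?_⟩
  · exact lt_of_le_of_lt (min_le_right _ _) (by linarith)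
  · intro x hx hxd j hj
    apply h3 _ j (Finset.mem_range.2 (by omega))
    rw [Real.dist_eq, sub_zero, abs_of_nonneg hx]
    have := hxd.trans (min_le_left _ _)
    linarith

end Pool.Agent.H49.SZ
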