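import Pool.Agent.H49.SZ.Glu

set_option autoImplicit false

/-!
# [H49 SZ GLUE] The main estimate
-/

namespace Pool.Agent.H49.SZ

open Set Metric Real Filter Topology

/-- `tc` of a dilation -/
theorem tc_dil {L : ℂ → ℂ} (hL : DifferentiableOn ℂ L (ball 0 1)) (s : ℝ) {j : ℕ} (hj : 1 ≤ j) :
    tc (dil s L) j = (s : ℂ) ^ j * tc L j := by
  have h1 : dil s L = fun z => (Real.log s : ℂ) + (fun z => L (s * z)) z := rfl
  rw [h1, tc_const_add _ _ hj, tc_scale one_pos hL]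

theorem log_one_sub {m : ℕ} (hm : 2 ≤ m) : -(1 / ((m : ℝ) - 1)) ≤ Real.log (1 - 1 / m) := by
  have hmr : (2 : ℝ) ≤ m := by exact_mod_cast hm
  have h1 : (0 : ℝ) < 1 - 1 / m := by
    have : (1 : ℝ) / m ≤ 1 / 2 := one_div_le_one_div_of_le (by norm_num) hmr
    linarith
  have h2 := Real.one_sub_inv_le_log_of_pos h1
  have h3 : 1 - (1 - 1 / (m : ℝ))⁻¹ = -(1 / ((m : ℝ) - 1)) := by
    have : (m : ℝ) - 1 ≠ 0 := by linarith
    have : (m : ℝ) ≠ 0 := by linarith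
    have : 1 - 1 / (m : ℝ) ≠ 0 := h1.ne'
    have e1 : 1 - 1 / (m : ℝ) = (m - 1) / m := by field_simp
    rw [e1]
    field_simp
    ring
  linarith

theorem pow_ge {m : ℕ} (hm : 2 ≤ m) : Real.exp (-6) ≤ (1 - 1 / (m : ℝ)) ^ (3 * m) := by
  have hmr : (2 : ℝ) ≤ m := by exact_mod_cast hm
  have h1 : (0 : ℝ) < 1 - 1 / m := by
    have : (1 : ℝ) / m ≤ 1 / 2 := one_div_le_one_div_of_le (by norm_num) hmr
    linarith
  have h2 := log_one_sub hm
  rw [← Real.exp_log h1, ← Real.exp_nat_mul]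
  apply Real.exp_le_exp.2
  have h3 : (1 : ℝ) / ((m : ℝ) - 1) * (3 * m) ≤ 6 := by
    rw [div_mul_eq_mul_div, div_le_iff₀ (by linarith)]
    linarith
  have h4 : ((3 * m : ℕ) : ℝ) = 3 * m := by push_cast; ring
  rw [h4]
  nlinarith [mul_le_mul_of_nonneg_left h2 (by linarith : (0 : ℝ) ≤ 3 * m)]

theorem sum_tail {s : ℝ} (h0 : 0 ≤ s) (h1 : s < 1) (m : ℕ) :
    Summable fun j : ℕ => ((j : ℝ) + m + 3) ^ 2 * s ^ (j + m + 1) := by
  have e0 := summable_pow_mul_geometric_of_norm_lt_one (R := ℝ) 0 (r := s)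
    (by rwa [Real.norm_eq_abs, abs_of_nonneg h0])
  have e1 := summable_pow_mul_geometric_of_norm_lt_one (R := ℝ) 1 (r := s)
    (by rwa [Real.norm_eq_abs, abs_of_nonneg h0])
  have e2 := summable_pow_mul_geometric_of_norm_lt_one (R := ℝ) 2 (r := s)
    (by rwa [Real.norm_eq_abs, abs_of_nonneg h0])
  have e3 := (e2.add (e1.mul_left 4)).add (e0.mul_left 4)
  have e4 := (summable_nat_add_iff (m + 1)).2 e3
  apply e4.congr
  intro j
  push_cast
  ring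

/-- the parameters -/
theorem params {δ b : ℝ} (hδ : 0 < δ) (N₀ J : ℕ) : ∃ N : ℕ, N₀ ≤ N ∧ 1 ≤ N ∧ J < N ∧
    |b| / N ≤ δ / 4 ∧ Real.log 2 / N ≤ δ / 4 ∧ ∃ m₀ : ℕ, J ≤ m₀ ∧ 2 ≤ m₀ ∧
      ∀ m ≥ m₀, -Real.log (1 - 1 / (m : ℝ)) ≤ δ / 4 := by
  obtain ⟨n, hn⟩ := exists_nat_ge ((|b| + Real.log 2 + 1) * 4 / δ)
  obtain ⟨k, hk⟩ := exists_nat_ge (1 + 4 / δ)
  have hl2 : 0 ≤ Real.log 2 := Real.log_nonneg (by norm_num)
  have hb := abs_nonneg b
  refine ⟨max N₀ (max (J + 1) (max n 1)), le_max_left _ _, ?_, ?_, ?_, ?_,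
    max J (max 2 k), le_max_left _ _, (le_max_left _ _).trans (le_max_right _ _), ?_⟩
  · exact (le_max_right _ _).trans ((le_max_right _ _).trans (le_max_right _ _))
  · exact Nat.lt_of_lt_of_le (Nat.lt_succ_self J)
      ((le_max_left _ _).trans (le_max_right _ _))
  all_goals try
    set N : ℕ := max N₀ (max (J + 1) (max n 1)) with hN
    have hNn : (n : ℝ) ≤ N := by
      exact_mod_cast (le_max_left _ _).trans ((le_max_right _ _).trans (le_max_right _ _))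
    have hN1 : (1 : ℝ) ≤ N := by
      exact_mod_cast (le_max_right _ _).trans ((le_max_right _ _).trans (le_max_right _ _))
    have hNδ : (|b| + Real.log 2 + 1) * 4 ≤ N * δ := by
      rw [div_le_iff₀ hδ] at hn
      nlinarith
  · rw [div_le_iff₀ (by linarith)]
    nlinarith
  · rw [div_le_iff₀ (by linarith)]
    nlinarith
  · intro m hm
    have hm2 : 2 ≤ m := ((le_max_left _ _).trans (le_max_right _ _)).trans hm
    have hmk : (k : ℝ) ≤ m := by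
      exact_mod_cast ((le_max_right _ _).trans (le_max_right _ _)).trans hm
    have h2 := log_one_sub hm2
    have h3 : 4 / δ ≤ (m : ℝ) - 1 := by linarith
    have h4 : 1 / ((m : ℝ) - 1) ≤ δ / 4 := by
      rw [div_le_iff₀ (by have : 0 < 4 / δ := by positivity
                          linarith)]
      rw [div_le_iff₀ hδ] at h3
      nlinarith
    linarith

/-- the perturbed function is close to `L₀` -/
theorem near {L₀ K : ℂ → ℂ} (h₀ : UU L₀) (hK : UU K) {ε δ b : ℝ} {J N m : ℕ} (hδ : 0 < δ)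
    (hδε : δ < ε)
    (hcl : ∀ x : ℝ, 0 ≤ x → x ≤ δ → ∀ j ≤ J, |Real.exp (-x) ^ j - 1| * ‖tc L₀ j‖ < ε)
    (hN : 1 ≤ N) (hJN : J < N) (hbN : |b| / N ≤ δ / 4) (hKb : -(K 0).re ≤ b)
    {s : ℝ} (hs0 : 0 < s) (hs1 : s < 1) (hs : -Real.log s ≤ δ / 4)
    (hm : 2 ≤ m) (hJm : J ≤ m) (hml : -Real.log (1 - 1 / (m : ℝ)) ≤ δ / 4)
    {g : ℂ → ℂ} (hg : Differentiable ℂ g) (hb : ∀ z : ℂ, ‖z‖ ≤ 1 → ‖z ^ (m + 1) * g z‖ ≤ 1)
    {η : ℂ} (hη : ‖η‖ ≤ 1 / (2 * m)) :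
    ∀ j ≤ J, ‖tc (pe (1 - 1 / m) (fun z => z ^ (m + 1) * g z) η
      (dil s (cmp (dil (Real.exp (-(δ / 4))) L₀) (rt N K)))) j - tc L₀ j‖ < ε := by
  obtain ⟨ρ, hρ⟩ : ∃ ρ : ℝ, ρ = Real.exp (-(δ / 4)) := ⟨_, rfl⟩
  rw [← hρ]
  have hρ0 : 0 < ρ := by rw [hρ]; exact Real.exp_pos _
  have hρ1 : ρ ≤ 1 := by
    rw [hρ]
    exact Real.exp_le_one_iff.2 (by linarith)
  have hlρ : Real.log ρ = -(δ / 4) := by rw [hρ, Real.log_exp]
  have hN0 : N ≠ 0 := by omega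
  have hNr : (0 : ℝ) < N := by exact_mod_cast hN
  have hL₁ : UU (cmp (dil ρ L₀) (rt N K)) := (h₀.dil hρ0 hρ1).cmp (hK.rt hN0)
  have hK₂ : UU (dil s (cmp (dil ρ L₀) (rt N K))) := hL₁.dil hs0 hs1.le
  have hmr : (2 : ℝ) ≤ m := by exact_mod_cast hm
  have h1m : (0 : ℝ) < 1 - 1 / m := by
    have : (1 : ℝ) / m ≤ 1 / 2 := one_div_le_one_div_of_le (by norm_num) hmr
    linarith
  have h1m1 : 1 - 1 / (m : ℝ) ≤ 1 := by
    have : (0 : ℝ) < 1 / m := by positivity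
    linarith
  have hKre : (K 0).re ≤ 0 := hK.re 0 (mem_ball_self one_pos)
  have hK0 : K 0 = ((K 0).re : ℂ) := by
    apply Complex.ext
    · rw [Complex.ofReal_re]
    · rw [Complex.ofReal_im, hK.im]
  obtain ⟨x, hx⟩ : ∃ x : ℝ, x = -(Real.log (1 - 1 / m) + Real.log s + (K 0).re / N +
    Real.log ρ) := ⟨_, rfl⟩
  have hx0 : 0 ≤ x := by
    have e1 : Real.log (1 - 1 / m) ≤ 0 := Real.log_nonpos h1m.le h1m1
    have e2 : Real.log s ≤ 0 := Real.log_nonpos hs0.le hs1.le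
    have e3 : (K 0).re / N ≤ 0 := div_nonpos_of_nonpos_of_nonneg hKre hNr.le
    rw [hx, hlρ]
    linarith
  have hxδ : x ≤ δ := by
    have e1 : -(K 0).re / N ≤ |b| / N :=
      div_le_div_of_nonneg_right (hKb.trans (le_abs_self b)) hNr.le
    have e2 : (K 0).re / N = -(-(K 0).re / N) := by ring
    rw [hx, hlρ, e2]
    linarith
  intro j hj
  rcases Nat.eq_zero_or_pos j with rfl | hj1
  · rw [tc_zero, tc_zero, pe_zero]
    have e1 : (((Real.log (1 - 1 / m) : ℝ) : ℂ) + dil s (cmp (dil ρ L₀) (rt N K)) 0) - L₀ 0 =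
        ((-x : ℝ) : ℂ) := by
      have e2 : dil s (cmp (dil ρ L₀) (rt N K)) 0 = (Real.log s : ℂ) +
          cmp (dil ρ L₀) (rt N K) 0 := by rw [dil, mul_zero]
      rw [e2, base_zero L₀ K ρ hN, hx, hK0]
      push_cast
      simp only [Complex.ofReal_re]
      ring
    rw [e1, Complex.norm_real, Real.norm_eq_abs, abs_neg, abs_of_nonneg hx0]
    linarith
  · rw [pe_tc hK₂ hg hm hb hη hj1 (hj.trans hJm), tc_dil hL₁.diff s hj1,
      base_tc h₀ hK hρ0 hρ1 hN hj1 (by omega)]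
    have e1 : (1 - 1 / (m : ℂ)) * ((s : ℂ) * ((ρ : ℂ) * Complex.exp (K 0 / N))) =
        ((Real.exp (-x) : ℝ) : ℂ) := by
      have e2 : Real.exp (-x) = (1 - 1 / m) * (s * (ρ * Real.exp ((K 0).re / N))) := by
        rw [hx, neg_neg, Real.exp_add, Real.exp_add, Real.exp_add, Real.exp_log h1m,
          Real.exp_log hs0, Real.exp_log hρ0]
        ring
      rw [e2, hK0]
      push_cast
      simp only [Complex.ofReal_re]
    have e3 : (1 - 1 / (m : ℂ)) ^ j * ((s : ℂ) ^ j * (((ρ : ℂ) * Complex.exp (K 0 / N)) ^ j *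
        tc L₀ j)) - tc L₀ j = (((Real.exp (-x) ^ j - 1 : ℝ)) : ℂ) * tc L₀ j := by
      have e4 : ((1 - 1 / (m : ℂ)) * ((s : ℂ) * ((ρ : ℂ) * Complex.exp (K 0 / N)))) ^ j =
          (1 - 1 / (m : ℂ)) ^ j * ((s : ℂ) ^ j * ((ρ : ℂ) * Complex.exp (K 0 / N)) ^ j) := by
        rw [mul_pow, mul_pow]
      rw [Complex.ofReal_sub, Complex.ofReal_pow, ← e1, Complex.ofReal_one, e4]
      ring
    rw [e3, norm_mul, Complex.norm_real, Real.norm_eq_abs]
    exact hcl x hx0 hxδ j hj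

theorem glue' {lam : ℝ} (h0 : 0 < lam) (h1 : lam ≤ 1) (hS : ∀ L : ℂ → ℂ, UU L → SzP lam L) (b : ℝ)
    (N₀ : ℕ) : ∃ N : ℕ, N₀ ≤ N ∧ 1 ≤ N ∧ ∃ C : ℝ, ∃ m₀ : ℕ, ∀ K : ℂ → ℂ, UU K → -(K 0).re ≤ b →
      ∀ r : ℝ, 1 / 2 ≤ r → r < 1 → ∀ m : ℕ, m₀ ≤ m →
        circleAverage (fun z => ‖fn K z‖ ^ (lam / N) * ‖lgd K z‖) 0 r ≤
          C * ((m : ℝ) ^ (2 * lam) +
            ∑' j : ℕ, ((j : ℝ) + m + 3) ^ 2 * r ^ (((j : ℝ) + m + 1) / N)) := by
  obtain ⟨L₀, h₀, ε, hε, J, C₀, hC₀, hB⟩ := baire hS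
  obtain ⟨δ, hδ, hδε, hcl⟩ := close L₀ hε J
  obtain ⟨ρ, hρ⟩ : ∃ ρ : ℝ, ρ = Real.exp (-(δ / 4)) := ⟨_, rfl⟩
  have hρ0 : 0 < ρ := by rw [hρ]; exact Real.exp_pos _
  have hρ1 : ρ < 1 := by
    rw [hρ]
    have := Real.exp_lt_exp.2 (by linarith : -(δ / 4) < 0)
    rwa [Real.exp_zero] at this
  have hlρ : Real.log ρ = -(δ / 4) := by rw [hρ, Real.log_exp]
  obtain ⟨c, hc, hlow⟩ := low h₀ hρ0 hρ1
  obtain ⟨CH, hCH, hHb⟩ := tc_HH_bound (|b| + δ / 4 + -(L₀ 0).re)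
  obtain ⟨N, hNN₀, hN1, hJN, hbN, h2N, m₀, hJm₀, h2m₀, hlm⟩ := params (b := b) hδ N₀ J
  obtain ⟨C₁, hC₁⟩ : ∃ C₁ : ℝ, C₁ = 2 / lam * Real.exp 6 * C₀ * 9 := ⟨_, rfl⟩
  have hC₁0 : 0 ≤ C₁ := by rw [hC₁]; positivity
  refine ⟨N, hNN₀, hN1, 3 / c * (C₁ + CH), m₀, ?_⟩
  intro K hK hKb r hr12 hr1 m hm
  have hN0 : N ≠ 0 := by omega
  have hNr : (0 : ℝ) < N := by exact_mod_cast hN1
  have hm2 : 2 ≤ m := h2m₀.trans hm
  have hmr : (2 : ℝ) ≤ m := by exact_mod_cast hm2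
  have hr0 : 0 < r := by linarith
  obtain ⟨s, hs⟩ : ∃ s : ℝ, s = r ^ ((1 : ℝ) / N) := ⟨_, rfl⟩
  have hs0 : 0 < s := by rw [hs]; exact Real.rpow_pos_of_pos hr0 _
  have hs1 : s < 1 := by rw [hs]; exact Real.rpow_lt_one hr0.le hr1 (by positivity)
  have hsN : s ^ N = r := by
    rw [hs, ← Real.rpow_natCast, ← Real.rpow_mul hr0.le, one_div, inv_mul_cancel₀ hNr.ne',
      Real.rpow_one]
  have hsl : -Real.log s ≤ δ / 4 := by
    have e1 : Real.log s = 1 / N * Real.log r := by rw [hs, Real.log_rpow hr0]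
    have e2 : -Real.log r ≤ Real.log 2 := by
      have := Real.log_le_log (by norm_num) hr12
      rw [Real.log_div (by norm_num) (by norm_num), Real.log_one] at this
      linarith
    have e3 : -Real.log s ≤ Real.log 2 / N := by
      rw [e1, le_div_iff₀ hNr]
      have : -(1 / (N : ℝ) * Real.log r) * N = -Real.log r := by field_simp
      linarith
    linarith
  obtain ⟨L₁, hL₁d⟩ : ∃ L₁ : ℂ → ℂ, L₁ = cmp (dil ρ L₀) (rt N K) := ⟨_, rfl⟩
  have hL₁ : UU L₁ := by rw [hL₁d]; exact (h₀.dil hρ0 hρ1.le).cmp (hK.rt hN0)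
  have hK₂ : UU (dil s L₁) := hL₁.dil hs0 hs1.le
  have hKre : (K 0).re ≤ 0 := hK.re 0 (mem_ball_self one_pos)
  have hL₁b : -(L₁ 0).re ≤ |b| + δ / 4 + -(L₀ 0).re := by
    have e1 : (L₁ 0).re = (K 0).re / N + (Real.log ρ + (L₀ 0).re) := by
      rw [hL₁d, base_zero L₀ K ρ hN1]
      have e3 : (K 0 / (N : ℂ)).re = (K 0).re / N := by
        rw [← Complex.ofReal_natCast, Complex.div_ofReal_re]
      rw [Complex.add_re, Complex.add_re, Complex.ofReal_re, e3]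
    have e2 : -(K 0).re / N ≤ |b| := by
      rw [div_le_iff₀ hNr]
      have e4 : (1 : ℝ) ≤ N := by exact_mod_cast hN1
      have e5 := hKb.trans (le_abs_self b)
      nlinarith [abs_nonneg b]
    rw [e1, hlρ]
    have e3 : (K 0).re / N = -(-(K 0).re / N) := by ring
    rw [e3]
    linarith
  -- the function `H`
  obtain ⟨H, hH⟩ : ∃ H : ℂ → ℂ, H = fun z => HH lam L₁ (s * z) := ⟨_, rfl⟩
  have hR : 1 < 1 / s := by rw [lt_div_iff₀ hs0]; linarith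
  have hmem : ∀ z ∈ ball (0 : ℂ) (1 / s), (s : ℂ) * z ∈ ball (0 : ℂ) 1 := by
    intro z hz
    rw [mem_ball_zero_iff, lt_div_iff₀ hs0] at hz
    rw [mem_ball_zero_iff, norm_mul, Complex.norm_real, Real.norm_eq_abs, abs_of_pos hs0]
    linarith
  have hHd : DifferentiableOn ℂ H (ball 0 (1 / s)) := by
    rw [hH]
    exact (HH_diff hL₁ lam).comp (differentiableOn_id.const_mul _) hmem
  have hHne : ∀ z : ℂ, ‖z‖ = 1 → H z ≠ 0 := by
    intro z hz
    rw [hH]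
    apply HH_ne_zero hL₁ lam (hmem z _)
    rw [mem_ball_zero_iff, hz]
    exact hR
  obtain ⟨g, hg, hgb, hvp⟩ := vp hR hHd hHne (m := m) (by omega)
  have hHK₂ : ∀ z ∈ ball (0 : ℂ) 1, HH lam (dil s L₁) z = H z := by
    intro z hz
    have hsz : (s : ℂ) * z ∈ ball (0 : ℂ) 1 := dil_mem hs0 hs1.le hz
    rw [hH]
    simp only [HH, lgd_dil s (hL₁.diffAt hsz), dil, mul_zero]
    congr 3
    ring
  have htc : tc (fun z => z ^ (m + 1) * g z * HH lam (dil s L₁) z) (3 * m) =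
      tc (fun z => z ^ (m + 1) * g z * H z) (3 * m) := by
    apply tc_congr one_pos
    intro z hz
    rw [hHK₂ z hz]
  have hnear := fun (η : ℂ) (hη : ‖η‖ ≤ 1 / (2 * m)) => near (b := b) h₀ hK hδ hδε hcl hN1 hJN hbN hKb
    hs0 hs1 hsl hm2 (hJm₀.trans hm) (hlm m hm) hg hgb hη
  rw [← hρ, ← hL₁d] at hnear
  have hcau := cauchy_eta hK₂ hg hm2 hgb h0 (n := 3 * m)
    (B := C₀ * ((3 * m : ℕ) : ℝ) ^ (2 * lam - 1)) (by
      intro η hη
      exact hB _ (pe_uu hK₂ hg hm2 hgb hη.le) (hnear η hη.le) (3 * m) (by omega))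
  rw [htc] at hcau
  -- bound for the coefficient
  have hX : ‖tc (fun z => z ^ (m + 1) * g z * H z) (3 * m)‖ ≤ C₁ * (m : ℝ) ^ (2 * lam) := by
    set X : ℝ := ‖tc (fun z => z ^ (m + 1) * g z * H z) (3 * m)‖ with hXd
    have hX0 : 0 ≤ X := norm_nonneg _
    have e1 := pow_ge hm2
    have e2 : ((3 * m : ℕ) : ℝ) ^ (2 * lam - 1) ≤ 9 * (m : ℝ) ^ (2 * lam) / m := by
      have f1 : ((3 * m : ℕ) : ℝ) = 3 * m := by push_cast; ring
      rw [f1, Real.mul_rpow (by norm_num) (by positivity)]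
      have f2 : (m : ℝ) ^ (2 * lam - 1) = (m : ℝ) ^ (2 * lam) / m := by
        rw [Real.rpow_sub (by positivity), Real.rpow_one]
      have f3 : (3 : ℝ) ^ (2 * lam - 1) ≤ 9 := by
        have := Real.rpow_le_rpow_of_exponent_le (x := 3) (by norm_num)
          (by linarith : 2 * lam - 1 ≤ 2)
        norm_num at this
        linarith
      rw [f2, mul_div_assoc]
      exact mul_le_mul_of_nonneg_right f3 (by positivity)
    have e3 : 1 / (2 * (m : ℝ)) * lam * Real.exp (-6) * X ≤ C₀ * (9 * (m : ℝ) ^ (2 * lam) / m) := by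
      calc 1 / (2 * (m : ℝ)) * lam * Real.exp (-6) * X
          ≤ 1 / (2 * (m : ℝ)) * lam * (1 - 1 / (m : ℝ)) ^ (3 * m) * X := by
            apply mul_le_mul_of_nonneg_right _ hX0
            exact mul_le_mul_of_nonneg_left e1 (by positivity)
        _ ≤ _ := hcau
        _ ≤ _ := mul_le_mul_of_nonneg_left e2 hC₀
    have e4 : X = 2 / lam * Real.exp 6 * m * (1 / (2 * (m : ℝ)) * lam * Real.exp (-6) * X) := by
      rw [Real.exp_neg]
      have := (Real.exp_pos 6).ne'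
      field_simp
    rw [e4, hC₁]
    calc 2 / lam * Real.exp 6 * m * (1 / (2 * (m : ℝ)) * lam * Real.exp (-6) * X)
        ≤ 2 / lam * Real.exp 6 * m * (C₀ * (9 * (m : ℝ) ^ (2 * lam) / m)) :=
          mul_le_mul_of_nonneg_left e3 (by positivity)
      _ = 2 / lam * Real.exp 6 * C₀ * 9 * (m : ℝ) ^ (2 * lam) := by
          field_simp
  -- the tail
  have hTs : Summable fun j : ℕ => ((j : ℝ) + m + 3) ^ 2 * s ^ (j + m + 1) :=
    sum_tail hs0.le hs1 m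
  have hTr : (∑' j : ℕ, ((j : ℝ) + m + 3) ^ 2 * r ^ (((j : ℝ) + m + 1) / N)) =
      ∑' j : ℕ, ((j : ℝ) + m + 3) ^ 2 * s ^ (j + m + 1) := by
    apply tsum_congr
    intro j
    congr 1
    rw [hs, ← Real.rpow_natCast, ← Real.rpow_mul hr0.le]
    congr 1
    push_cast
    ring
  have hH1 : ∀ n : ℕ, ‖tc H n‖ ≤ CH * (((n : ℝ) + 2) ^ 2 * s ^ n) := by
    intro n
    rw [hH, tc_scale one_pos (HH_diff hL₁ lam), norm_mul, norm_pow, Complex.norm_real,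
      Real.norm_eq_abs, abs_of_pos hs0]
    have := hHb L₁ lam hL₁ hL₁b h0 h1 n
    calc s ^ n * ‖tc (HH lam L₁) n‖ ≤ s ^ n * (CH * ((n : ℝ) + 2) ^ 2) :=
          mul_le_mul_of_nonneg_left this (by positivity)
      _ = _ := by ring
  have hH2 : ∑' j : ℕ, ‖tc H (j + m + 1)‖ ≤
      CH * ∑' j : ℕ, ((j : ℝ) + m + 3) ^ 2 * s ^ (j + m + 1) := by
    rw [← tsum_mul_left]
    have hb1 : ∀ j : ℕ, ‖tc H (j + m + 1)‖ ≤ CH * (((j : ℝ) + m + 3) ^ 2 * s ^ (j + m + 1)) := by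
      intro j
      have := hH1 (j + m + 1)
      have e1 : ((j + m + 1 : ℕ) : ℝ) + 2 = (j : ℝ) + m + 3 := by push_cast; ring
      rwa [e1] at this
    have hsum := hTs.mul_left CH
    exact (Summable.of_nonneg_of_le (fun j => norm_nonneg _) hb1 hsum).tsum_le_tsum hb1 hsum
  -- the average
  have hA : c * circleAverage (fun z => ‖fn K z‖ ^ (lam / N) * ‖lgd K z‖) 0 r ≤
      circleAverage (fun z => ‖H z‖) 0 1 := by
    have hcont : ContinuousOn (fun z => ‖fn K z‖ ^ (lam / N) * ‖lgd K z‖) (ball (0 : ℂ) 1) :=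
      (((Real.continuous_rpow_const (by positivity)).comp_continuousOn
        hK.continuousOn_fn.norm).mul hK.continuousOn_lgd.norm)
    have e1 : circleAverage (fun z => ‖H z‖) 0 1 = circleAverage (fun z => ‖HH lam L₁ z‖) 0 s := by
      rw [circleAverage_eq_circleAverage_zero_one (R := s)]
      simp only [add_zero, hH]
    have e2 : circleAverage (fun z => ‖fn K z‖ ^ (lam / N) * ‖lgd K z‖) 0 r =
        circleAverage (fun z => ‖fn K (z ^ N)‖ ^ (lam / N) * ‖lgd K (z ^ N)‖) 0 s := by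
      have hcc : Continuous fun t : ℝ => (fun z => ‖fn K z‖ ^ (lam / N) * ‖lgd K z‖)
          (circleMap 0 (s ^ N) t) := by
        rw [hsN]
        exact cont_circle hcont hr0.le hr1
      have := avg_pow (F := fun z => ‖fn K z‖ ^ (lam / N) * ‖lgd K z‖) hN0 hcc
      rw [hsN] at this
      exact this.symm
    have e3 : c * circleAverage (fun z => ‖fn K (z ^ N)‖ ^ (lam / N) * ‖lgd K (z ^ N)‖) 0 s =
        circleAverage (fun z => c • (‖fn K (z ^ N)‖ ^ (lam / N) * ‖lgd K (z ^ N)‖)) 0 s := by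
      rw [circleAverage_fun_smul, smul_eq_mul]
    rw [e1, e2, e3]
    apply circleAverage_mono
    · apply circleInt _ hs0.le hs1
      exact (hcont.comp (continuousOn_id.pow N) fun z hz => pow_mem hN0 hz).const_smul c
    · exact circleInt (HH_diff hL₁ lam).continuousOn.norm hs0.le hs1
    · intro z hz
      rw [abs_of_pos hs0, mem_sphere_zero_iff_norm] at hz
      have hzb : z ∈ ball (0 : ℂ) 1 := by rw [mem_ball_zero_iff]; linarith
      have := hlow K N lam z hK hN0 h0 h1 hzb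
      rw [← hL₁d] at this
      exact this
  rw [hTr]
  obtain ⟨T, hT⟩ : ∃ T : ℝ, T = ∑' j : ℕ, ((j : ℝ) + m + 3) ^ 2 * s ^ (j + m + 1) := ⟨_, rfl⟩
  rw [← hT] at hH2 ⊢
  have hT0 : 0 ≤ T := by
    rw [hT]
    exact tsum_nonneg fun j => by positivity
  obtain ⟨A, hAd⟩ : ∃ A : ℝ, A = circleAverage (fun z => ‖fn K z‖ ^ (lam / N) * ‖lgd K z‖) 0 r :=
    ⟨_, rfl⟩
  rw [← hAd] at hA ⊢
  have hM0 : 0 ≤ (m : ℝ) ^ (2 * lam) := by positivity
  have hfin : c * A ≤ 3 * (C₁ * (m : ℝ) ^ (2 * lam) + CH * T) := by linarith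
  have hfin2 : A ≤ 3 / c * (C₁ * (m : ℝ) ^ (2 * lam) + CH * T) := by
    rw [div_mul_eq_mul_div, le_div_iff₀ hc]
    linarith
  refine hfin2.trans ?_
  rw [mul_assoc]
  apply mul_le_mul_of_nonneg_left _ (by positivity)
  nlinarith [mul_nonneg hC₁0 hT0, mul_nonneg hCH.le hM0]

end Pool.Agent.H49.SZ
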