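import Pool.Agent.H49.SZ.Fin
import Pool.Agent.H49.SZ.Glue

set_option autoImplicit false

/-!
# [H49 SZ MFIN] The contradiction
-/

namespace Pool.Agent.H49.SZ

open Set Metric Real Filter Topology

theorem NN_le {s a : ℝ} (h0 : 0 ≤ s) (h1 : s ≤ 1) (ha0 : 0 ≤ a) (ha : a ≤ 0.1) : NN s ≤ s ^ a := by
  have e1 : s ^ (0.1 : ℝ) ≤ s ^ a := Real.rpow_le_rpow_of_exponent_ge' h0 h1 ha0 ha
  have e2 : s ≤ s ^ (0.1 : ℝ) := by
    have := Real.rpow_le_rpow_of_exponent_ge' (y := 1) (z := 0.1) h0 h1 (by norm_num) (by norm_num)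
    rwa [Real.rpow_one] at this
  unfold NN
  linarith

theorem EN_le {L : ℂ → ℂ} (hL : UU L) {r a : ℝ} (hr0 : 0 ≤ r) (hr1 : r < 1) (ha0 : 0 ≤ a)
    (ha : a ≤ 0.1) :
    EN NN L r ≤ circleAverage (fun z => ‖fn L z‖ ^ a * ‖lgd L z‖) 0 r := by
  have hd : ContinuousOn (fun z => ‖lgd L z‖) (ball 0 1) := hL.continuousOn_lgd.norm
  have hf : ContinuousOn (fun z => ‖fn L z‖) (ball 0 1) := hL.continuousOn_fn.norm
  unfold EN
  apply circleAverage_mono
  · exact circleInt ((continuous_NN.comp_continuousOn hf).mul hd) hr0 hr1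
  · exact circleInt (((Real.continuous_rpow_const ha0).comp_continuousOn hf).mul hd) hr0 hr1
  · intro z hz
    have hz1 : ‖z‖ = r := by
      rw [abs_of_nonneg hr0] at hz
      simpa using hz
    have hzb : z ∈ ball (0 : ℂ) 1 := by rw [mem_ball_zero_iff]; linarith
    apply mul_le_mul_of_nonneg_right _ (norm_nonneg _)
    exact NN_le (norm_nonneg _) ((hL.norm_fn_le hzb).trans (by linarith)) ha0 ha

theorem mfin {P : ℂ → ℂ} (hP : UU P)
    (hcert : ∀ x : ℝ, 0 < x → x < 1 → 1.95 * NN (x ^ 20) ≤ EN NN P x) {lam : ℝ} (h0 : 0 < lam)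
    (h9 : lam ≤ 1 / 9) : ∃ L : ℂ → ℂ, UU L ∧ ¬ SzP lam L := by
  by_contra hcon
  push Not at hcon
  obtain ⟨N, hN10, hN1, C, m₀, hg⟩ := glue' h0 (by linarith) hcon (2 * -(P 0).re) 10
  obtain ⟨D, hD⟩ := tail_bound N hN1
  obtain ⟨n₀, hn₀⟩ := growth N (max C 0) D h0 h9
  set n : ℕ := max n₀ (max m₀ 1) with hn
  have hnn₀ : n₀ ≤ n := le_max_left _ _
  have hnm₀ : m₀ ≤ n := (le_max_left _ _).trans (le_max_right _ _)
  have hn1 : 1 ≤ n := (le_max_right _ _).trans (le_max_right _ _)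
  set m : ℕ := N * 20 ^ n * n ^ 2 with hm
  have hmn : m₀ ≤ m := by
    have e1 : 1 ≤ N * 20 ^ n := Nat.one_le_iff_ne_zero.2 (by positivity)
    calc m₀ ≤ n := hnm₀
      _ ≤ n ^ 2 := Nat.le_self_pow (by norm_num) n
      _ ≤ N * 20 ^ n * n ^ 2 := Nat.le_mul_of_pos_left _ e1
  obtain ⟨L, hL, hL0, hE⟩ := snow continuous_NN hP (k := 20) (by norm_num) (κ := 1.95)
    (by norm_num) hcert n
  have e20 : ((20 : ℕ) : ℝ) = 20 := by norm_num
  rw [e20] at hE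
  set r : ℝ := (1 / 2 : ℝ) ^ ((1 : ℝ) / (20 : ℝ) ^ n) with hr
  have hr12 : 1 / 2 ≤ r := by
    have h1 : (1 : ℝ) / 20 ^ n ≤ 1 := by
      rw [div_le_one (by positivity)]
      exact one_le_pow₀ (by norm_num)
    have := Real.rpow_le_rpow_of_exponent_ge (x := 1 / 2) (by norm_num) (by norm_num) h1
    rwa [Real.rpow_one] at this
  have hr1 : r < 1 := Real.rpow_lt_one (by norm_num) (by norm_num) (by positivity)
  have hNr : (10 : ℝ) ≤ N := by exact_mod_cast hN10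
  have ha : lam / N ≤ 0.1 := by
    rw [div_le_iff₀ (by linarith)]
    nlinarith
  have ha0 : 0 ≤ lam / N := by positivity
  have g1 := hg L hL hL0 r hr12 hr1 m hmn
  have g2 := EN_le hL (by linarith : (0 : ℝ) ≤ r) hr1 ha0 ha
  have g3 := hD n hn1
  have g4 := hn₀ n hnn₀
  rw [← hm] at g3 g4
  set T : ℝ := ∑' j : ℕ, ((j : ℝ) + m + 3) ^ 2 * r ^ (((j : ℝ) + m + 1) / N) with hT
  have hT0 : 0 ≤ T := tsum_nonneg fun j => by positivity
  have hm0 : 0 ≤ (m : ℝ) ^ (2 * lam) := by positivity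
  have g5 : C * ((m : ℝ) ^ (2 * lam) + T) ≤ max C 0 * ((m : ℝ) ^ (2 * lam) + D) := by
    calc C * ((m : ℝ) ^ (2 * lam) + T) ≤ max C 0 * ((m : ℝ) ^ (2 * lam) + T) :=
          mul_le_mul_of_nonneg_right (le_max_left _ _) (by linarith)
      _ ≤ _ := mul_le_mul_of_nonneg_left (by linarith) (le_max_right _ _)
  linarith

end Pool.Agent.H49.SZ
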