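import Pool.Agent.H49.SZ.Ce00
import Pool.Agent.H49.SZ.Ce01
import Pool.Agent.H49.SZ.Ce02
import Pool.Agent.H49.SZ.Ce03
import Pool.Agent.H49.SZ.Ce04
import Pool.Agent.H49.SZ.Ce05
import Pool.Agent.H49.SZ.Ce06
import Pool.Agent.H49.SZ.Ce07
import Pool.Agent.H49.SZ.Ce08
import Pool.Agent.H49.SZ.Ce09
import Pool.Agent.H49.SZ.Ce10
import Pool.Agent.H49.SZ.Mfin

set_option autoImplicit false

/-!
# [H49 SZ HCERT] The certificate for all radii
-/

namespace Pool.Agent.H49.SZ

open Set Metric Real

theorem hcert (x : ℝ) (h0 : 0 < x) (h1 : x < 1) : 1.95 * NN (x ^ 20) ≤ EN NN PL x := by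
  rcases le_total x 0.56 with h | h
  · exact small_x h0 h
  replace h : ((1120 : ℕ) : ℝ) / 2000 ≤ x := by norm_num at h ⊢; linarith
  rcases le_total x (((1329 : ℕ) : ℝ) / 2000) with h' | h'
  · exact level (by norm_num) (by norm_num) d0 c0 h h' h1
  replace h := h'
  clear h'
  rcases le_total x (((1434 : ℕ) : ℝ) / 2000) with h' | h'
  · exact level (by norm_num) (by norm_num) d1 c1 h h' h1
  replace h := h'
  clear h'
  rcases le_total x (((1496 : ℕ) : ℝ) / 2000) with h' | h'
  · exact level (by norm_num) (by norm_num) d2 c2 h h' h1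
  replace h := h'
  clear h'
  rcases le_total x (((1536 : ℕ) : ℝ) / 2000) with h' | h'
  · exact level (by norm_num) (by norm_num) d3 c3 h h' h1
  replace h := h'
  clear h'
  rcases le_total x (((1564 : ℕ) : ℝ) / 2000) with h' | h'
  · exact level (by norm_num) (by norm_num) d4 c4 h h' h1
  replace h := h'
  clear h'
  rcases le_total x (((1594 : ℕ) : ℝ) / 2000) with h' | h'
  · exact level (by norm_num) (by norm_num) d5 c5 h h' h1
  replace h := h'
  clear h'
  rcases le_total x (((1621 : ℕ) : ℝ) / 2000) with h' | h'
  · exact level (by norm_num) (by norm_num) d6 c6 h h' h1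
  replace h := h'
  clear h'
  rcases le_total x (((1646 : ℕ) : ℝ) / 2000) with h' | h'
  · exact level (by norm_num) (by norm_num) d7 c7 h h' h1
  replace h := h'
  clear h'
  rcases le_total x (((1671 : ℕ) : ℝ) / 2000) with h' | h'
  · exact level (by norm_num) (by norm_num) d8 c8 h h' h1
  replace h := h'
  clear h'
  rcases le_total x (((1689 : ℕ) : ℝ) / 2000) with h' | h'
  · exact level (by norm_num) (by norm_num) d9 c9 h h' h1
  replace h := h'
  clear h'
  rcases le_total x (((1706 : ℕ) : ℝ) / 2000) with h' | h'
  · exact level (by norm_num) (by norm_num) d10 c10 h h' h1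
  replace h := h'
  clear h'
  rcases le_total x (((1722 : ℕ) : ℝ) / 2000) with h' | h'
  · exact level (by norm_num) (by norm_num) d11 c11 h h' h1
  replace h := h'
  clear h'
  rcases le_total x (((1737 : ℕ) : ℝ) / 2000) with h' | h'
  · exact level (by norm_num) (by norm_num) d12 c12 h h' h1
  replace h := h'
  clear h'
  rcases le_total x (((1750 : ℕ) : ℝ) / 2000) with h' | h'
  · exact level (by norm_num) (by norm_num) d13 c13 h h' h1
  replace h := h'
  clear h'
  rcases le_total x (((1763 : ℕ) : ℝ) / 2000) with h' | h'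
  · exact level (by norm_num) (by norm_num) d14 c14 h h' h1
  replace h := h'
  clear h'
  rcases le_total x (((1773 : ℕ) : ℝ) / 2000) with h' | h'
  · exact level (by norm_num) (by norm_num) d15 c15 h h' h1
  replace h := h'
  clear h'
  rcases le_total x (((1786 : ℕ) : ℝ) / 2000) with h' | h'
  · exact level (by norm_num) (by norm_num) d16 c16 h h' h1
  replace h := h'
  clear h'
  rcases le_total x (((1798 : ℕ) : ℝ) / 2000) with h' | h'
  · exact level (by norm_num) (by norm_num) d17 c17 h h' h1
  replace h := h'
  clear h'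
  rcases le_total x (((1809 : ℕ) : ℝ) / 2000) with h' | h'
  · exact level (by norm_num) (by norm_num) d18 c18 h h' h1
  replace h := h'
  clear h'
  rcases le_total x (((1819 : ℕ) : ℝ) / 2000) with h' | h'
  · exact level (by norm_num) (by norm_num) d19 c19 h h' h1
  replace h := h'
  clear h'
  rcases le_total x (((1829 : ℕ) : ℝ) / 2000) with h' | h'
  · exact level (by norm_num) (by norm_num) d20 c20 h h' h1
  replace h := h'
  clear h'
  rcases le_total x (((1837 : ℕ) : ℝ) / 2000) with h' | h'
  · exact level (by norm_num) (by norm_num) d21 c21 h h' h1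
  replace h := h'
  clear h'
  rcases le_total x (((1845 : ℕ) : ℝ) / 2000) with h' | h'
  · exact level (by norm_num) (by norm_num) d22 c22 h h' h1
  replace h := h'
  clear h'
  rcases le_total x (((1854 : ℕ) : ℝ) / 2000) with h' | h'
  · exact level (by norm_num) (by norm_num) d23 c23 h h' h1
  replace h := h'
  clear h'
  rcases le_total x (((1863 : ℕ) : ℝ) / 2000) with h' | h'
  · exact level (by norm_num) (by norm_num) d24 c24 h h' h1
  replace h := h'
  clear h'
  rcases le_total x (((1872 : ℕ) : ℝ) / 2000) with h' | h'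
  · exact level (by norm_num) (by norm_num) d25 c25 h h' h1
  replace h := h'
  clear h'
  rcases le_total x (((1881 : ℕ) : ℝ) / 2000) with h' | h'
  · exact level (by norm_num) (by norm_num) d26 c26 h h' h1
  replace h := h'
  clear h'
  rcases le_total x (((1889 : ℕ) : ℝ) / 2000) with h' | h'
  · exact level (by norm_num) (by norm_num) d27 c27 h h' h1
  replace h := h'
  clear h'
  rcases le_total x (((1897 : ℕ) : ℝ) / 2000) with h' | h'
  · exact level (by norm_num) (by norm_num) d28 c28 h h' h1
  replace h := h'
  clear h'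
  rcases le_total x (((1905 : ℕ) : ℝ) / 2000) with h' | h'
  · exact level (by norm_num) (by norm_num) d29 c29 h h' h1
  replace h := h'
  clear h'
  rcases le_total x (((1914 : ℕ) : ℝ) / 2000) with h' | h'
  · exact level (by norm_num) (by norm_num) d30 c30 h h' h1
  replace h := h'
  clear h'
  rcases le_total x (((1922 : ℕ) : ℝ) / 2000) with h' | h'
  · exact level (by norm_num) (by norm_num) d31 c31 h h' h1
  replace h := h'
  clear h'
  rcases le_total x (((1931 : ℕ) : ℝ) / 2000) with h' | h'
  · exact level (by norm_num) (by norm_num) d32 c32 h h' h1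
  replace h := h'
  clear h'
  rcases le_total x (((1939 : ℕ) : ℝ) / 2000) with h' | h'
  · exact level (by norm_num) (by norm_num) d33 c33 h h' h1
  replace h := h'
  clear h'
  rcases le_total x (((1947 : ℕ) : ℝ) / 2000) with h' | h'
  · exact level (by norm_num) (by norm_num) d34 c34 h h' h1
  replace h := h'
  clear h'
  rcases le_total x (((1956 : ℕ) : ℝ) / 2000) with h' | h'
  · exact level (by norm_num) (by norm_num) d35 c35 h h' h1
  replace h := h'
  clear h'
  rcases le_total x (((1965 : ℕ) : ℝ) / 2000) with h' | h'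
  · exact level (by norm_num) (by norm_num) d36 c36 h h' h1
  replace h := h'
  clear h'
  rcases le_total x (((1974 : ℕ) : ℝ) / 2000) with h' | h'
  · exact level (by norm_num) (by norm_num) d37 c37 h h' h1
  replace h := h'
  clear h'
  rcases le_total x (((1985 : ℕ) : ℝ) / 2000) with h' | h'
  · exact level (by norm_num) (by norm_num) d38 c38 h h' h1
  replace h := h'
  clear h'
  have h' : x ≤ ((2000 : ℕ) : ℝ) / 2000 := by norm_num; linarith
  exact level (by norm_num) (by norm_num) d39 c39 h h' h1

end Pool.Agent.H49.SZ
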