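import Pool.Agent.H49.SZ.Tay

set_option autoImplicit false

/-!
# [H49 SZ LIM] Limits

`unif`: `‖ser (l i) z - ser l₀ z‖ ≤ ∑ ‖l i j - l₀ j‖ r^j → 0` (`tendsto_tsum_of_dominated_convergence`, bound `2 B r^j`).
`uu_limit`: injectivity of the limit `f = fn (ser l₀)`: let `f z₁ = f z₂`, `z₁ ≠ z₂`; `h = f - f z₂` is analytic, `h z₁ = 0`, not locally zero
at `z₁` (otherwise constant on the disc, but `f' 0 = exp (l₀ 0) ≠ 0`); so `h ≠ 0` on a small sphere around `z₁` (closed ball in the disc,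
`z₂` outside), `‖h‖ ≥ c` there; `h_i = f_i - f_i z₂` has no zero in the closed ball and `‖h_i‖ ≥ c/2` on the sphere for large `i`; maximum
principle for `1/h_i`: `‖h_i z₁‖ ≥ c/2`, contradiction.
`cc_limit`: `tc_eq_avg` with `r = 1/2` and dominated convergence on the circle.
-/

namespace Pool.Agent.H49.SZ

open Set Metric Real Filter Topology

variable {l : ℕ → ℕ → ℂ} {l₀ : ℕ → ℂ} {B : ℝ}

theorem lim_bound (hB : ∀ i j, ‖l i j‖ ≤ B) (hl : ∀ j, Tendsto (fun i => l i j) atTop (𝓝 (l₀ j)))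
    (j : ℕ) : ‖l₀ j‖ ≤ B :=
  le_of_tendsto (hl j).norm (Eventually.of_forall fun i => hB i j)

theorem unif (hB : ∀ i j, ‖l i j‖ ≤ B) (hl : ∀ j, Tendsto (fun i => l i j) atTop (𝓝 (l₀ j)))
    {r : ℝ} (hr : r < 1) :
    TendstoUniformlyOn (fun i => ser (l i)) (ser l₀) atTop (closedBall 0 r) := by
  have hB0 := lim_bound hB hl
  rcases lt_or_ge r 0 with hneg | h0
  · rw [closedBall_eq_empty.2 hneg]
    exact tendstoUniformlyOn_empty
  have hlim : Tendsto (fun i => ∑' j, ‖l i j - l₀ j‖ * r ^ j) atTop (𝓝 0) := by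
    have h1 : Tendsto (fun i => ∑' j, ‖l i j - l₀ j‖ * r ^ j) atTop
        (𝓝 (∑' j : ℕ, (0 : ℝ) * r ^ j)) := by
      apply tendsto_tsum_of_dominated_convergence (bound := fun j => 2 * B * r ^ j)
      · exact (summable_geometric_of_lt_one h0 hr).mul_left _
      · intro j
        apply Tendsto.mul_const
        have := (hl j).sub_const (l₀ j)
        rw [sub_self] at this
        have h2 := this.norm
        rwa [norm_zero] at h2
      · refine Eventually.of_forall fun i j => ?_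
        rw [norm_mul, norm_norm, norm_pow, Real.norm_eq_abs, abs_of_nonneg h0]
        apply mul_le_mul_of_nonneg_right _ (by positivity)
        calc ‖l i j - l₀ j‖ ≤ ‖l i j‖ + ‖l₀ j‖ := norm_sub_le _ _
          _ ≤ 2 * B := by linarith [hB i j, hB0 j]
    simpa using h1
  rw [Metric.tendstoUniformlyOn_iff]
  intro ε hε
  filter_upwards [(tendsto_order.1 hlim).2 ε hε] with i hi z hz
  rw [mem_closedBall_zero_iff] at hz
  have hz1 : z ∈ ball (0 : ℂ) 1 := by rw [mem_ball_zero_iff]; linarith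
  have h1 := (ser_hasSum (hB i) hz1).sub (ser_hasSum hB0 hz1)
  have hs : Summable fun j => ‖l i j - l₀ j‖ * r ^ j := by
    have hb : ∀ j, ‖l i j - l₀ j‖ ≤ 2 * B := fun j =>
      (norm_sub_le _ _).trans (by linarith [hB i j, hB0 j])
    exact ser_summable (l := fun j => l i j - l₀ j) hb h0 hr
  rw [dist_eq_norm, norm_sub_rev, ← h1.tsum_eq]
  refine lt_of_le_of_lt ?_ hi
  refine (norm_tsum_le_tsum_norm ?_).trans ?_
  · apply Summable.of_nonneg_of_le (fun j => norm_nonneg _) _ hs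
    intro j
    rw [← sub_mul, norm_mul, norm_pow]
    exact mul_le_mul_of_nonneg_left (pow_le_pow_left₀ (norm_nonneg z) hz j) (norm_nonneg _)
  · apply Summable.tsum_le_tsum _ _ hs
    · intro j
      rw [← sub_mul, norm_mul, norm_pow]
      exact mul_le_mul_of_nonneg_left (pow_le_pow_left₀ (norm_nonneg z) hz j) (norm_nonneg _)
    · apply Summable.of_nonneg_of_le (fun j => norm_nonneg _) _ hs
      intro j
      rw [← sub_mul, norm_mul, norm_pow]
      exact mul_le_mul_of_nonneg_left (pow_le_pow_left₀ (norm_nonneg z) hz j) (norm_nonneg _)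

/-- uniform bound on smaller discs -/
theorem ser_bound {l : ℕ → ℂ} {B : ℝ} (hB : ∀ j, ‖l j‖ ≤ B) {r : ℝ} (h0 : 0 ≤ r) (hr : r < 1)
    {z : ℂ} (hz : ‖z‖ ≤ r) : ‖ser l z‖ ≤ B / (1 - r) := by
  have hz1 : z ∈ ball (0 : ℂ) 1 := by rw [mem_ball_zero_iff]; linarith
  have h1 : HasSum (fun j : ℕ => B * r ^ j) (B * (1 - r)⁻¹) :=
    (hasSum_geometric_of_lt_one h0 hr).mul_left B
  rw [div_eq_mul_inv, ← (ser_hasSum hB hz1).tsum_eq]
  apply tsum_of_norm_bounded h1
  intro j
  rw [norm_mul, norm_pow]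
  exact mul_le_mul (hB j) (pow_le_pow_left₀ (norm_nonneg z) hz j) (by positivity)
    ((norm_nonneg _).trans (hB j))

theorem unif_fn (hB : ∀ i j, ‖l i j‖ ≤ B) (hl : ∀ j, Tendsto (fun i => l i j) atTop (𝓝 (l₀ j)))
    {r : ℝ} (hr : r < 1) :
    TendstoUniformlyOn (fun i => fn (ser (l i))) (fn (ser l₀)) atTop (closedBall 0 r) := by
  have hB0 := lim_bound hB hl
  rcases lt_or_ge r 0 with hneg | h0
  · rw [closedBall_eq_empty.2 hneg]
    exact tendstoUniformlyOn_empty
  set A : ℝ := B / (1 - r) with hA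
  have hA0 : 0 ≤ A := by
    have : 0 ≤ B := (norm_nonneg _).trans (hB 0 0)
    rw [hA]
    exact div_nonneg this (by linarith)
  -- exp is uniformly continuous on the compact ball of radius A
  have huc : UniformContinuousOn Complex.exp (closedBall (0 : ℂ) A) :=
    (isCompact_closedBall (0 : ℂ) A).uniformContinuousOn_of_continuous
      Complex.continuous_exp.continuousOn
  have h1 := unif hB hl hr
  rw [Metric.tendstoUniformlyOn_iff] at h1 ⊢
  intro ε hε
  obtain ⟨δ, hδ, hd⟩ := Metric.uniformContinuousOn_iff.1 huc ε hε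
  filter_upwards [h1 δ hδ] with i hi z hz
  have hz' := hz
  rw [mem_closedBall_zero_iff] at hz'
  have e1 : ser l₀ z ∈ closedBall (0 : ℂ) A := by
    rw [mem_closedBall_zero_iff]
    exact ser_bound hB0 h0 hr hz'
  have e2 : ser (l i) z ∈ closedBall (0 : ℂ) A := by
    rw [mem_closedBall_zero_iff]
    exact ser_bound (hB i) h0 hr hz'
  have e3 := hd _ e1 _ e2 (hi z hz)
  rw [dist_eq_norm] at e3 ⊢
  simp only [fn]
  rw [← mul_sub, norm_mul]
  nlinarith [norm_nonneg z, norm_nonneg (Complex.exp (ser l₀ z) - Complex.exp (ser (l i) z))]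

theorem uu_limit (hB : ∀ i j, ‖l i j‖ ≤ B) (hU : ∀ i, UU (ser (l i)))
    (hl : ∀ j, Tendsto (fun i => l i j) atTop (𝓝 (l₀ j))) : UU (ser l₀) := by
  have hB0 := lim_bound hB hl
  have hd := ser_diff hB0
  have h00 : (0 : ℂ) ∈ ball (0 : ℂ) 1 := mem_ball_self one_pos
  have hpt : ∀ z ∈ ball (0 : ℂ) 1, Tendsto (fun i => ser (l i) z) atTop (𝓝 (ser l₀ z)) := by
    intro z hz
    rw [mem_ball_zero_iff] at hz
    exact (unif hB hl hz).tendsto_at (by rw [mem_closedBall_zero_iff])
  have hptf : ∀ z ∈ ball (0 : ℂ) 1, Tendsto (fun i => fn (ser (l i)) z) atTop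
      (𝓝 (fn (ser l₀) z)) := by
    intro z hz
    rw [mem_ball_zero_iff] at hz
    exact (unif_fn hB hl hz).tendsto_at (by rw [mem_closedBall_zero_iff])
  refine ⟨hd, ?_, ?_, ?_⟩
  · intro z hz
    have h1 := (Complex.continuous_re.tendsto _).comp (hpt z hz)
    exact le_of_tendsto h1 (Eventually.of_forall fun i => (hU i).re z hz)
  · have h1 := (Complex.continuous_im.tendsto _).comp (hpt 0 h00)
    have h2 : Tendsto (fun _ : ℕ => (0 : ℝ)) atTop (𝓝 (ser l₀ 0).im) := by
      apply h1.congr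
      intro i
      exact (hU i).im
    exact tendsto_nhds_unique h2 tendsto_const_nhds
  · intro z₁ hz₁ z₂ hz₂ heq
    by_contra hne
    set f : ℂ → ℂ := fn (ser l₀) with hf
    have hfd : DifferentiableOn ℂ f (ball 0 1) := by
      rw [hf]
      unfold fn
      exact differentiableOn_id.mul hd.cexp
    set h : ℂ → ℂ := fun z => f z - f z₂ with hh
    have hhd : DifferentiableOn ℂ h (ball 0 1) := hfd.sub_const _
    have hha : AnalyticOnNhd ℂ h (ball 0 1) := hhd.analyticOnNhd isOpen_ball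
    -- h is not locally zero at z₁
    have hnot : ¬ ∀ᶠ z in 𝓝 z₁, h z = 0 := by
      intro hev
      have h1 : EqOn h 0 (ball 0 1) :=
        hha.eqOn_zero_of_preconnected_of_eventuallyEq_zero
          (convex_ball (0 : ℂ) 1).isPreconnected hz₁ hev
      have h2 : ∀ z ∈ ball (0 : ℂ) 1, f z = f z₂ := fun z hz => sub_eq_zero.1 (h1 hz)
      have h3 : f z₂ = 0 := by
        rw [← h2 0 h00, hf, fn_zero]
      have h4 : ((1 / 2 : ℝ) : ℂ) ∈ ball (0 : ℂ) 1 := by
        rw [mem_ball_zero_iff, Complex.norm_real]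
        norm_num
      have h5 := h2 _ h4
      rw [h3, hf] at h5
      simp only [fn] at h5
      rcases mul_eq_zero.1 h5 with h6 | h6
      · have : (1 / 2 : ℝ) = 0 := by exact_mod_cast h6
        norm_num at this
      · exact Complex.exp_ne_zero _ h6
    have hev : ∀ᶠ z in 𝓝[≠] z₁, h z ≠ 0 :=
      ((hha z₁ hz₁).eventually_eq_zero_or_eventually_ne_zero).resolve_left hnot
    rw [eventually_nhdsWithin_iff] at hev
    obtain ⟨ε₁, hε₁, hb₁⟩ := Metric.eventually_nhds_iff_ball.1 hev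
    have hopen : ball (0 : ℂ) 1 ∩ {z₂}ᶜ ∈ 𝓝 z₁ :=
      (isOpen_ball.inter isOpen_compl_singleton).mem_nhds ⟨hz₁, hne⟩
    obtain ⟨ε₂, hε₂, hb₂⟩ := Metric.mem_nhds_iff.1 hopen
    set ρ : ℝ := min ε₁ ε₂ / 2 with hρ
    have hmin : 0 < min ε₁ ε₂ := lt_min hε₁ hε₂
    have hρ0 : 0 < ρ := by rw [hρ]; linarith
    have hρ1 : ρ < ε₁ := by
      have := min_le_left ε₁ ε₂
      rw [hρ]; linarith
    have hρ2 : ρ < ε₂ := by
      have := min_le_right ε₁ ε₂
      rw [hρ]; linarith
    have hcb : closedBall z₁ ρ ⊆ ball 0 1 ∩ {z₂}ᶜ := (closedBall_subset_ball hρ2).trans hb₂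
    have hsph : ∀ z ∈ sphere z₁ ρ, h z ≠ 0 := by
      intro z hz
      apply hb₁ z
      · rw [mem_ball, mem_sphere.1 hz]
        exact hρ1
      · intro e
        rw [mem_sphere, show z = z₁ from e, dist_self] at hz
        exact hρ0.ne' hz.symm
    have hsc : IsCompact (sphere z₁ ρ) := isCompact_sphere z₁ ρ
    have hsne : (sphere z₁ ρ).Nonempty := NormedSpace.sphere_nonempty.2 hρ0.le
    have hhc : ContinuousOn (fun z => ‖h z‖) (sphere z₁ ρ) :=
      (hhd.continuousOn.mono (sphere_subset_closedBall.trans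
        (hcb.trans inter_subset_left))).norm
    obtain ⟨w₀, hw₀, hmin'⟩ := hsc.exists_isMinOn hsne hhc
    set c : ℝ := ‖h w₀‖ with hc
    have hc0 : 0 < c := norm_pos_iff.2 (hsph w₀ hw₀)
    -- a radius containing everything
    obtain ⟨R, hR1, hR⟩ : ∃ R : ℝ, R < 1 ∧ closedBall z₁ ρ ⊆ closedBall 0 R ∧
        z₂ ∈ closedBall (0 : ℂ) R := by
      have hcomp : IsCompact (closedBall z₁ ρ) := isCompact_closedBall z₁ ρ
      obtain ⟨w₁, hw₁, hmax⟩ := hcomp.exists_isMaxOn (nonempty_closedBall.2 hρ0.le)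
        continuous_norm.continuousOn
      have hw1 := mem_ball_zero_iff.1 (hcb hw₁).1
      have hw2 := mem_ball_zero_iff.1 hz₂
      refine ⟨max ‖w₁‖ ‖z₂‖, max_lt hw1 hw2, ?_, ?_⟩
      · intro z hz
        rw [mem_closedBall_zero_iff]
        exact (hmax hz).trans (le_max_left _ _)
      · rw [mem_closedBall_zero_iff]
        exact le_max_right _ _
    have hunif := unif_fn hB hl hR1
    rw [Metric.tendstoUniformlyOn_iff] at hunif
    have hev2 := hunif (c / 4) (by linarith)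
    obtain ⟨i, hi⟩ := hev2.exists
    set hi' : ℂ → ℂ := fun z => fn (ser (l i)) z - fn (ser (l i)) z₂ with hhi
    have hclose : ∀ z ∈ closedBall z₁ ρ, ‖h z - hi' z‖ ≤ c / 2 := by
      intro z hz
      have e1 := hi z (hR.1 hz)
      have e2 := hi z₂ hR.2
      rw [dist_eq_norm] at e1 e2
      have e3 : h z - hi' z = (f z - fn (ser (l i)) z) - (f z₂ - fn (ser (l i)) z₂) := by
        simp only [hh, hhi]
        ring
      rw [e3]
      calc ‖(f z - fn (ser (l i)) z) - (f z₂ - fn (ser (l i)) z₂)‖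
          ≤ ‖f z - fn (ser (l i)) z‖ + ‖f z₂ - fn (ser (l i)) z₂‖ := norm_sub_le _ _
        _ ≤ c / 2 := by linarith
    have hid : DifferentiableOn ℂ hi' (ball 0 1) := (hU i).diff_fn.sub_const _
    have hin : ∀ z ∈ closedBall z₁ ρ, hi' z ≠ 0 := by
      intro z hz e
      have e1 := (hU i).inj (hcb hz).1 hz₂ (sub_eq_zero.1 e)
      exact (hcb hz).2 e1
    have hinv : DiffContOnCl ℂ (fun z => (hi' z)⁻¹) (ball z₁ ρ) := by
      apply DifferentiableOn.diffContOnCl
      rw [closure_ball _ hρ0.ne']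
      exact (hid.mono (hcb.trans inter_subset_left)).inv hin
    have hbd : ∀ z ∈ frontier (ball z₁ ρ), ‖(hi' z)⁻¹‖ ≤ 2 / c := by
      intro z hz
      rw [frontier_ball _ hρ0.ne'] at hz
      have hzc : z ∈ closedBall z₁ ρ := sphere_subset_closedBall hz
      have e1 : c ≤ ‖h z‖ := hmin' hz
      have e2 := hclose z hzc
      have e3 : ‖h z‖ ≤ ‖hi' z‖ + c / 2 := by
        calc ‖h z‖ = ‖hi' z + (h z - hi' z)‖ := by ring_nf
          _ ≤ ‖hi' z‖ + ‖h z - hi' z‖ := norm_add_le _ _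
          _ ≤ _ := by linarith
      have e4 : c / 2 ≤ ‖hi' z‖ := by linarith
      rw [norm_inv, inv_le_comm₀ (by linarith) (by positivity), inv_div]
      exact e4
    have hz1c : z₁ ∈ closure (ball z₁ ρ) := subset_closure (mem_ball_self hρ0)
    have e1 := Complex.norm_le_of_forall_mem_frontier_norm_le isBounded_ball hinv hbd hz1c
    have hz1m : z₁ ∈ closedBall z₁ ρ := mem_closedBall_self hρ0.le
    have e2 : c / 2 ≤ ‖hi' z₁‖ := by
      rw [norm_inv, inv_le_comm₀ (norm_pos_iff.2 (hin z₁ hz1m)) (by positivity), inv_div] at e1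
      exact e1
    have hhz : h z₁ = 0 := by
      simp only [hh]
      rw [heq, sub_self]
    -- sharper closeness at z₁
    have e3 := hi z₁ (hR.1 hz1m)
    have e4 := hi z₂ hR.2
    rw [dist_eq_norm] at e3 e4
    have e5 : ‖h z₁ - hi' z₁‖ < c / 2 := by
      have e6 : h z₁ - hi' z₁ = (f z₁ - fn (ser (l i)) z₁) - (f z₂ - fn (ser (l i)) z₂) := by
        simp only [hh, hhi]
        ring
      rw [e6]
      calc ‖(f z₁ - fn (ser (l i)) z₁) - (f z₂ - fn (ser (l i)) z₂)‖
          ≤ ‖f z₁ - fn (ser (l i)) z₁‖ + ‖f z₂ - fn (ser (l i)) z₂‖ := norm_sub_le _ _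
        _ < c / 2 := by linarith
    rw [hhz, zero_sub, norm_neg] at e5
    linarith

theorem cc_limit (hB : ∀ i j, ‖l i j‖ ≤ B)
    (hl : ∀ j, Tendsto (fun i => l i j) atTop (𝓝 (l₀ j))) (lam : ℝ) (n : ℕ) :
    Tendsto (fun i => cc lam (ser (l i)) n) atTop (𝓝 (cc lam (ser l₀) n)) := by
  have hB0 := lim_bound hB hl
  have hpt : ∀ z ∈ ball (0 : ℂ) 1, Tendsto (fun i => ser (l i) z) atTop (𝓝 (ser l₀ z)) := by
    intro z hz
    rw [mem_ball_zero_iff] at hz
    exact (unif hB hl hz).tendsto_at (by rw [mem_closedBall_zero_iff])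
  have hform : ∀ {l' : ℕ → ℂ}, (∀ j, ‖l' j‖ ≤ B) → cc lam (ser l') n =
      (2 * π)⁻¹ • ∫ t in (0 : ℝ)..2 * π, Complex.exp (lam * (ser l' (circleMap 0 (1 / 2) t) -
        ser l' 0)) * (circleMap 0 (1 / 2) t ^ n)⁻¹ := by
    intro l' hl'
    have e1 : DifferentiableOn ℂ (fun z => Complex.exp (lam * (ser l' z - ser l' 0)))
        (ball 0 1) := (((ser_diff hl').sub_const _).const_mul _).cexp
    rw [cc, tc_eq_avg e1 (r := 1 / 2) (by norm_num) (by norm_num) n, circleAverage]
  have hcont : ∀ {l' : ℕ → ℂ}, (∀ j, ‖l' j‖ ≤ B) → Continuous fun t : ℝ =>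
      Complex.exp (lam * (ser l' (circleMap 0 (1 / 2) t) - ser l' 0)) *
        (circleMap 0 (1 / 2) t ^ n)⁻¹ := by
    intro l' hl'
    apply Continuous.mul
    · apply Complex.continuous_exp.comp
      apply continuous_const.mul
      exact (cont_circle (ser_diff hl').continuousOn (by norm_num) (by norm_num)).sub
        continuous_const
    · apply Continuous.inv₀ ((continuous_circleMap 0 _).pow n)
      intro t
      exact pow_ne_zero _ (circleMap_ne (by norm_num) t)
  rw [hform hB0]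
  have h1 : (fun i => cc lam (ser (l i)) n) = fun i => (2 * π)⁻¹ • ∫ t in (0 : ℝ)..2 * π,
      Complex.exp (lam * (ser (l i) (circleMap 0 (1 / 2) t) - ser (l i) 0)) *
        (circleMap 0 (1 / 2) t ^ n)⁻¹ := funext fun i => hform (hB i)
  rw [h1]
  apply Tendsto.const_smul
  apply intervalIntegral.tendsto_integral_filter_of_dominated_convergence
    (fun _ => Real.exp (|lam| * (4 * B)) * 2 ^ n)
  · exact Eventually.of_forall fun i => (hcont (hB i)).aestronglyMeasurable
  · refine Eventually.of_forall fun i => Eventually.of_forall fun t _ => ?_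
    have hzn : ‖circleMap 0 (1 / 2) t‖ = 1 / 2 := by
      rw [norm_circleMap_zero, abs_of_pos (by norm_num)]
    rw [norm_mul, Complex.norm_exp, norm_inv, norm_pow, hzn]
    have e1 : ((1 / 2 : ℝ) ^ n)⁻¹ = 2 ^ n := by
      rw [one_div, inv_pow, inv_inv]
    rw [e1]
    apply mul_le_mul_of_nonneg_right _ (by positivity)
    apply Real.exp_le_exp.2
    have e2 := ser_bound (hB i) (by norm_num : (0 : ℝ) ≤ 1 / 2) (by norm_num) hzn.le
    have e3 := ser_bound (hB i) (by norm_num : (0 : ℝ) ≤ 1 / 2) (by norm_num)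
      (z := 0) (by rw [norm_zero]; norm_num)
    have e4 : B / (1 - 1 / 2) = 2 * B := by ring
    rw [e4] at e2 e3
    calc ((lam : ℂ) * (ser (l i) (circleMap 0 (1 / 2) t) - ser (l i) 0)).re
        ≤ ‖(lam : ℂ) * (ser (l i) (circleMap 0 (1 / 2) t) - ser (l i) 0)‖ :=
          Complex.re_le_norm _
      _ = |lam| * ‖ser (l i) (circleMap 0 (1 / 2) t) - ser (l i) 0‖ := by
          rw [norm_mul, Complex.norm_real, Real.norm_eq_abs]
      _ ≤ |lam| * (4 * B) := by
          apply mul_le_mul_of_nonneg_left _ (abs_nonneg lam)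
          exact (norm_sub_le _ _).trans (by linarith)
  · exact intervalIntegrable_const
  · refine Eventually.of_forall fun t _ => ?_
    apply Tendsto.mul_const
    apply (Complex.continuous_exp.tendsto _).comp
    apply Tendsto.const_mul
    exact (hpt _ (circleMap_mem (by norm_num) (by norm_num) t)).sub
      (hpt 0 (mem_ball_self one_pos))

end Pool.Agent.H49.SZ
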