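import Pool.Agent.H49.SZ.Cau
import Pool.Agent.H91.Fatou.Crit

/-!
# [H49 SZ LOW] Lower bound for `HH` of a composition and bounds for the coefficients

`low`: `lgd L₀ ≠ 0` on the ball (else `deriv (fn L₀) = 0` there (`hasDerivAt_fn`), `H91.Fatou.not_injOn_of_deriv`), so `‖lgd L₀‖ ≥ c₂` and
`exp (L₀).re ≥ c₃` on `closedBall 0 ρ` (compact).  With `K₁ = rt N K`, `w = fn K₁ z`: `‖lgd (cmp (dil ρ L₀) K₁) z‖ = ‖lgd K (z^N)‖ ‖lgd L₀ (ρ w)‖`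
(`lgd_cmp`, `lgd_rt`, `lgd_dil`) and `‖exp (lam (L₁ z - L₁ 0))‖ ≥ exp (lam (L₁ z).re) ≥ ‖fn L₁ z‖^lam` (`(L₁ 0).re ≤ 0`, `‖z‖ < 1`),
`‖fn L₁ z‖ = ‖w‖ ρ exp (L₀ (ρ w)).re`, `‖w‖ = ‖fn K (z^N)‖^(1/N)`.
`tc_HH_bound`: `tc_bound` with `r = (j+1)/(j+2)`; `‖deriv L z‖ ≤ 2 b / (1-‖z‖)^2` from `tc_re` (or Borel-Caratheodory and Cauchy with another
constant: the constant is free).
-/

set_option autoImplicit false

namespace Pool.Agent.H49.SZ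

open Set Metric Real Filter Topology

theorem lgd_ne_zero {L : ℂ → ℂ} (hL : UU L) {z : ℂ} (hz : z ∈ ball (0 : ℂ) 1) : lgd L z ≠ 0 := by
  intro h
  have h1 := hasDerivAt_fn (hL.diffAt hz)
  have h2 : AnalyticAt ℂ (fn L) z := hL.diff_fn.analyticAt (isOpen_ball.mem_nhds hz)
  apply H91.Fatou.not_injOn_of_deriv h2 _ (isOpen_ball.mem_nhds hz) hL.inj
  rw [h1.deriv, h, mul_zero]

theorem HH_ne_zero {L : ℂ → ℂ} (hL : UU L) (lam : ℝ) {z : ℂ} (hz : z ∈ ball (0 : ℂ) 1) :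
    HH lam L z ≠ 0 :=
  mul_ne_zero (Complex.exp_ne_zero _) (lgd_ne_zero hL hz)

private theorem low_norm_HH (lam : ℝ) (L : ℂ → ℂ) (z : ℂ) :
    ‖HH lam L z‖ = Real.exp (lam * ((L z).re - (L 0).re)) * ‖lgd L z‖ := by
  rw [HH, norm_mul, Complex.norm_exp, Complex.re_ofReal_mul, Complex.sub_re]

private theorem low_lgd {L₀ : ℂ → ℂ} (h₀ : UU L₀) {ρ : ℝ} (hρ1 : ρ < 1) :
    ∃ c : ℝ, 0 < c ∧ ∀ w : ℂ, ‖w‖ ≤ ρ → c ≤ ‖lgd L₀ w‖ := by
  have hsub : closedBall (0 : ℂ) ρ ⊆ ball 0 1 := closedBall_subset_ball hρ1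
  rcases (closedBall (0 : ℂ) ρ).eq_empty_or_nonempty with he | hne
  · refine ⟨1, one_pos, fun w hw => ?_⟩
    have : w ∈ closedBall (0 : ℂ) ρ := mem_closedBall_zero_iff.2 hw
    rw [he] at this
    exact absurd this (notMem_empty w)
  · obtain ⟨w₀, hw₀, hmin⟩ := (isCompact_closedBall (0 : ℂ) ρ).exists_isMinOn hne
      ((h₀.continuousOn_lgd.mono hsub).norm)
    refine ⟨‖lgd L₀ w₀‖, norm_pos_iff.2 (lgd_ne_zero h₀ (hsub hw₀)), fun w hw => ?_⟩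
    exact hmin (mem_closedBall_zero_iff.2 hw)

private theorem low_re {L₀ : ℂ → ℂ} (h₀ : UU L₀) {ρ : ℝ} (hρ1 : ρ < 1) :
    ∃ B : ℝ, ∀ w : ℂ, ‖w‖ ≤ ρ → -B ≤ (L₀ w).re := by
  have hsub : closedBall (0 : ℂ) ρ ⊆ ball 0 1 := closedBall_subset_ball hρ1
  have hc : ContinuousOn L₀ (closedBall (0 : ℂ) ρ) := h₀.diff.continuousOn.mono hsub
  obtain ⟨B, hB⟩ := (isCompact_closedBall (0 : ℂ) ρ).exists_bound_of_continuousOn hc
  refine ⟨B, fun w hw => ?_⟩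
  have h1 := hB w (mem_closedBall_zero_iff.2 hw)
  have h2 := (abs_le.1 (Complex.abs_re_le_norm (L₀ w))).1
  linarith

theorem low {L₀ : ℂ → ℂ} (h₀ : UU L₀) {ρ : ℝ} (hρ : 0 < ρ) (hρ1 : ρ < 1) :
    ∃ c : ℝ, 0 < c ∧ ∀ (K : ℂ → ℂ) (N : ℕ) (lam : ℝ) (z : ℂ), UU K → N ≠ 0 → 0 < lam → lam ≤ 1 →
      z ∈ ball (0 : ℂ) 1 →
      c * (‖fn K (z ^ N)‖ ^ (lam / N) * ‖lgd K (z ^ N)‖) ≤
        ‖HH lam (cmp (dil ρ L₀) (rt N K)) z‖ := by
  obtain ⟨c₂, hc₂, hlgd⟩ := low_lgd h₀ hρ1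
  obtain ⟨B, hB⟩ := low_re h₀ hρ1
  obtain ⟨B', hB'⟩ : ∃ B' : ℝ, B' = |Real.log ρ| + |B| := ⟨_, rfl⟩
  refine ⟨Real.exp (-B') * c₂, by positivity, ?_⟩
  intro K N lam z hK hN hlam hlam1 hz
  have hK₁ : UU (rt N K) := hK.rt hN
  have hD : UU (dil ρ L₀) := h₀.dil hρ hρ1.le
  have hL₁ : UU (cmp (dil ρ L₀) (rt N K)) := hD.cmp hK₁
  obtain ⟨w, hw⟩ : ∃ w : ℂ, w = fn (rt N K) z := ⟨_, rfl⟩
  have hwm : w ∈ ball (0 : ℂ) 1 := by rw [hw]; exact hK₁.fn_mem hz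
  have hw1 : ‖w‖ < 1 := mem_ball_zero_iff.1 hwm
  have hρw : ‖(ρ : ℂ) * w‖ ≤ ρ := by
    rw [norm_mul, Complex.norm_real, Real.norm_eq_abs, abs_of_pos hρ]
    nlinarith [norm_nonneg w]
  have hzN : z ^ N ∈ ball (0 : ℂ) 1 := pow_mem hN hz
  have hρwm : (ρ : ℂ) * w ∈ ball (0 : ℂ) 1 := by
    rw [mem_ball_zero_iff]
    linarith
  have elgd : lgd (cmp (dil ρ L₀) (rt N K)) z = lgd K (z ^ N) * lgd L₀ (ρ * w) := by
    rw [lgd_cmp (hK₁.diffAt hz) (hD.diffAt (hK₁.fn_mem hz)), lgd_rt hN (hK.diffAt hzN), ← hw,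
      lgd_dil ρ (h₀.diffAt hρwm)]
  have ere : (cmp (dil ρ L₀) (rt N K) z).re = (rt N K z).re + (Real.log ρ + (L₀ (ρ * w)).re) := by
    rw [cmp, dil, ← hw, Complex.add_re, Complex.add_re, Complex.ofReal_re]
  have h0re : (cmp (dil ρ L₀) (rt N K) 0).re ≤ 0 := hL₁.re 0 (mem_ball_self one_pos)
  have hlow : -B' ≤ Real.log ρ + (L₀ (ρ * w)).re := by
    have h1 := hB _ hρw
    have h2 := (abs_le.1 (le_refl |Real.log ρ|)).1
    have h3 := le_abs_self B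
    rw [hB']
    linarith
  have hB'0 : 0 ≤ B' := by
    rw [hB']
    positivity
  have hwN : ‖w‖ ^ N = ‖fn K (z ^ N)‖ := by
    rw [hw, ← norm_pow, fn_rt_pow hN]
  have hwlam : ‖fn K (z ^ N)‖ ^ (lam / N) = ‖w‖ ^ lam := by
    rw [← hwN, ← Real.rpow_natCast, ← Real.rpow_mul (norm_nonneg w)]
    congr 1
    have : (N : ℝ) ≠ 0 := by exact_mod_cast hN
    field_simp
  have hwexp : ‖w‖ ^ lam ≤ Real.exp (lam * (rt N K z).re) := by
    have h1 : ‖w‖ ≤ Real.exp (rt N K z).re := by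
      rw [hw, norm_fn]
      have h2 := Real.exp_pos (rt N K z).re
      have h3 := mem_ball_zero_iff.1 hz
      nlinarith
    calc ‖w‖ ^ lam ≤ (Real.exp (rt N K z).re) ^ lam :=
          Real.rpow_le_rpow (norm_nonneg w) h1 hlam.le
      _ = Real.exp (lam * (rt N K z).re) := by
          rw [← Real.exp_mul, mul_comm]
  have hexp : Real.exp (-B') * ‖w‖ ^ lam ≤ Real.exp (lam * ((cmp (dil ρ L₀) (rt N K) z).re -
      (cmp (dil ρ L₀) (rt N K) 0).re)) := by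
    calc Real.exp (-B') * ‖w‖ ^ lam ≤ Real.exp (-B') * Real.exp (lam * (rt N K z).re) :=
          mul_le_mul_of_nonneg_left hwexp (Real.exp_pos _).le
      _ = Real.exp (-B' + lam * (rt N K z).re) := (Real.exp_add _ _).symm
      _ ≤ _ := by
          apply Real.exp_le_exp.2
          rw [ere]
          have h1 : lam * (-B') ≤ lam * (Real.log ρ + (L₀ (ρ * w)).re) :=
            mul_le_mul_of_nonneg_left hlow hlam.le
          have h2 : -B' ≤ lam * (-B') := by nlinarith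
          have h3 : 0 ≤ lam * (-(cmp (dil ρ L₀) (rt N K) 0).re) :=
            mul_nonneg hlam.le (by linarith)
          nlinarith
  rw [low_norm_HH, elgd, norm_mul, hwlam]
  have h1 := hlgd _ hρw
  calc Real.exp (-B') * c₂ * (‖w‖ ^ lam * ‖lgd K (z ^ N)‖) =
      (Real.exp (-B') * ‖w‖ ^ lam) * (‖lgd K (z ^ N)‖ * c₂) := by ring
    _ ≤ Real.exp (lam * ((cmp (dil ρ L₀) (rt N K) z).re - (cmp (dil ρ L₀) (rt N K) 0).re)) *
        (‖lgd K (z ^ N)‖ * ‖lgd L₀ (ρ * w)‖) := by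
        apply mul_le_mul hexp _ (by positivity) (Real.exp_pos _).le
        exact mul_le_mul_of_nonneg_left h1 (norm_nonneg _)

private theorem low_sub {L : ℂ → ℂ} (hL : UU L) {b : ℝ} (hb : -(L 0).re ≤ b) {ζ : ℂ}
    (hζ : ζ ∈ ball (0 : ℂ) 1) : ‖L ζ - L 0‖ ≤ 2 * b * (1 - ‖ζ‖)⁻¹ := by
  have h0 : ‖ζ‖ < 1 := mem_ball_zero_iff.1 hζ
  have h1 := (hasSum_nat_add_iff' 1).2 (tc_hasSum hL.diff hζ)
  rw [Finset.sum_range_one, pow_zero, mul_one, tc_zero] at h1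
  have hb0 : 0 ≤ b := by
    have := hL.re 0 (mem_ball_self one_pos)
    linarith
  have h2 := (hasSum_geometric_of_lt_one (norm_nonneg ζ) h0).mul_left (2 * b)
  refine h1.norm_le_of_bounded h2 fun n => ?_
  rw [norm_mul, norm_pow]
  have h3 := tc_re hL.diff hL.re (n := n + 1) (by omega)
  have h4 : ‖ζ‖ ^ (n + 1) ≤ ‖ζ‖ ^ n := pow_le_pow_of_le_one (norm_nonneg ζ) h0.le (Nat.le_succ n)
  exact mul_le_mul (by linarith) h4 (by positivity) (by linarith)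

private theorem low_deriv {L : ℂ → ℂ} (hL : UU L) {b : ℝ} (hb : -(L 0).re ≤ b) {z : ℂ} {r : ℝ}
    (hr : r < 1) (hz : ‖z‖ = r) : ‖deriv L z‖ ≤ 8 * b * ((1 - r)⁻¹) ^ 2 := by
  have hb0 : 0 ≤ b := by
    have := hL.re 0 (mem_ball_self one_pos)
    linarith
  have h1r : 0 < 1 - r := by linarith
  have hδ : 0 < (1 - r) / 2 := by linarith
  have hmem : ∀ ζ ∈ closedBall z ((1 - r) / 2), ζ ∈ ball (0 : ℂ) 1 ∧ (1 - r) / 2 ≤ 1 - ‖ζ‖ := by
    intro ζ hζ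
    rw [mem_closedBall, dist_eq_norm] at hζ
    have h1 : ‖ζ‖ ≤ ‖ζ - z‖ + ‖z‖ := by
      have := norm_add_le (ζ - z) z
      rwa [sub_add_cancel] at this
    rw [mem_ball_zero_iff]
    constructor <;> linarith
  have hd : DiffContOnCl ℂ (fun ζ => L ζ - L 0) (ball z ((1 - r) / 2)) := by
    apply DifferentiableOn.diffContOnCl
    rw [closure_ball z hδ.ne']
    exact (hL.diff.sub_const _).mono fun ζ hζ => (hmem ζ hζ).1
  have hbd : ∀ ζ ∈ sphere z ((1 - r) / 2), ‖L ζ - L 0‖ ≤ 2 * b * ((1 - r) / 2)⁻¹ := by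
    intro ζ hζ
    have h2 := hmem ζ (sphere_subset_closedBall hζ)
    refine (low_sub hL hb h2.1).trans ?_
    refine mul_le_mul_of_nonneg_left ?_ (by linarith)
    exact inv_anti₀ hδ h2.2
  have h3 := Complex.norm_deriv_le_of_forall_mem_sphere_norm_le hδ hd hbd
  rw [deriv_sub_const] at h3
  refine h3.trans (le_of_eq ?_)
  field_simp
  ring

theorem tc_HH_bound (b : ℝ) : ∃ C : ℝ, 0 < C ∧ ∀ (L : ℂ → ℂ) (lam : ℝ), UU L → -(L 0).re ≤ b →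
    0 < lam → lam ≤ 1 → ∀ j : ℕ, ‖tc (HH lam L) j‖ ≤ C * ((j : ℝ) + 2) ^ 2 := by
  refine ⟨Real.exp 1 * (Real.exp b * (1 + 8 * |b|)), by positivity, ?_⟩
  intro L lam hL hb hlam hlam1 j
  have hb0 : 0 ≤ b := by
    have := hL.re 0 (mem_ball_self one_pos)
    linarith
  rw [abs_of_nonneg hb0]
  obtain ⟨r, hr⟩ : ∃ r : ℝ, r = ((j : ℝ) + 1) / (j + 2) := ⟨_, rfl⟩
  have hj : (0 : ℝ) ≤ j := Nat.cast_nonneg j
  have hr0 : 0 < r := by rw [hr]; positivity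
  have hr1 : r < 1 := by
    rw [hr, div_lt_one (by positivity)]
    linarith
  have h1r : (1 - r)⁻¹ = (j : ℝ) + 2 := by
    rw [hr]
    have : (1 : ℝ) - (j + 1) / (j + 2) = 1 / (j + 2) := by
      field_simp
      ring
    rw [this, one_div, inv_inv]
  have hM : ∀ z : ℂ, ‖z‖ = r → ‖HH lam L z‖ ≤
      Real.exp b * (1 + 8 * b * ((j : ℝ) + 2) ^ 2) := by
    intro z hz
    have hzm : z ∈ ball (0 : ℂ) 1 := by
      rw [mem_ball_zero_iff, hz]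
      exact hr1
    have h1 := low_deriv hL hb hr1 hz
    rw [h1r] at h1
    rw [low_norm_HH]
    apply mul_le_mul _ _ (norm_nonneg _) (Real.exp_pos _).le
    · apply Real.exp_le_exp.2
      have h2 := hL.re z hzm
      have h3 := hL.re 0 (mem_ball_self one_pos)
      nlinarith
    · rw [lgd]
      refine (norm_add_le _ _).trans ?_
      rw [norm_one, norm_mul, hz]
      have h2 := norm_nonneg (deriv L z)
      nlinarith
  have h1 := tc_bound (HH_diff hL lam) hr0 hr1 hM j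
  refine h1.trans ?_
  have h2 : (r ^ j)⁻¹ ≤ Real.exp 1 := by
    have h3 : r⁻¹ ≤ Real.exp (1 / ((j : ℝ) + 1)) := by
      have h4 : r⁻¹ = 1 / ((j : ℝ) + 1) + 1 := by
        rw [hr]
        field_simp
        ring
      rw [h4]
      exact Real.add_one_le_exp _
    calc (r ^ j)⁻¹ = (r⁻¹) ^ j := (inv_pow r j).symm
      _ ≤ (Real.exp (1 / ((j : ℝ) + 1))) ^ j := pow_le_pow_left₀ (by positivity) h3 j
      _ = Real.exp (j * (1 / ((j : ℝ) + 1))) := (Real.exp_nat_mul _ j).symm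
      _ ≤ Real.exp 1 := by
          apply Real.exp_le_exp.2
          rw [mul_one_div, div_le_one (by positivity)]
          linarith
  have h3 : Real.exp b * (1 + 8 * b * ((j : ℝ) + 2) ^ 2) ≤
      Real.exp b * (1 + 8 * b) * ((j : ℝ) + 2) ^ 2 := by
    have h4 : 1 + 8 * b * ((j : ℝ) + 2) ^ 2 ≤ (1 + 8 * b) * ((j : ℝ) + 2) ^ 2 := by nlinarith
    have h5 := mul_le_mul_of_nonneg_left h4 (Real.exp_pos b).le
    rw [← mul_assoc] at h5
    exact h5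
  rw [div_eq_mul_inv]
  calc Real.exp b * (1 + 8 * b * ((j : ℝ) + 2) ^ 2) * (r ^ j)⁻¹
      ≤ (Real.exp b * (1 + 8 * b) * ((j : ℝ) + 2) ^ 2) * Real.exp 1 := by
        apply mul_le_mul h3 h2 (by positivity) (by positivity)
    _ = Real.exp 1 * (Real.exp b * (1 + 8 * b)) * ((j : ℝ) + 2) ^ 2 := by ring

end Pool.Agent.H49.SZ
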