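import Pool.Agent.H49.SZ.PhiA
import Pool.Agent.H49.SZ.Avg

set_option autoImplicit false

/-!
# [H49 SZ MONO] The functional of the Pick function as a function of the radius

`‖fn PL z‖^a ‖lgd PL z‖ = ‖z‖^a ‖exp (a PL z) lgd PL z‖`, so `EN NN PL x = 0.88 x^0.1 M1(x, exp (0.1 PL) lgd PL) + 0.12 x M1(x, exp PL lgd PL)`
and `M1mono` applies (also with `r₁ = 0`: the value at the centre is `exp (a log (1/50))`).
-/

namespace Pool.Agent.H49.SZ

open Set Metric Real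

private noncomputable def KK (a : ℝ) (z : ℂ) : ℂ := Complex.exp (a * PL z) * lgd PL z

private theorem KK_diff (a : ℝ) : DifferentiableOn ℂ (KK a) (ball 0 1) := by
  have h1 : DifferentiableOn ℂ (lgd PL) (ball 0 1) := by
    unfold lgd
    exact (differentiableOn_const 1).add
      (differentiableOn_id.mul (UU_PL.diff.deriv isOpen_ball))
  have h2 : DifferentiableOn ℂ (fun z => Complex.exp ((a : ℂ) * PL z)) (ball 0 1) :=
    (UU_PL.diff.const_mul (a : ℂ)).cexp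
  exact h2.mul h1

private theorem KK_norm (a : ℝ) (z : ℂ) :
    ‖KK a z‖ = Real.exp (a * (PL z).re) * ‖lgd PL z‖ := by
  rw [KK, norm_mul, Complex.norm_exp]
  simp

private theorem KK_cont (a : ℝ) {x : ℝ} (h0 : 0 ≤ x) (h1 : x < 1) :
    Continuous fun t : ℝ => ‖KK a (circleMap 0 x t)‖ :=
  (cont_circle (KK_diff a).continuousOn h0 h1).norm

private theorem EN_form {x : ℝ} (h0 : 0 ≤ x) (h1 : x < 1) :
    EN NN PL x = 0.88 * x ^ (0.1 : ℝ) * circleAverage (fun z => ‖KK 0.1 z‖) 0 x +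
      0.12 * x * circleAverage (fun z => ‖KK 1 z‖) 0 x := by
  have hp : ∀ t : ℝ, NN ‖fn PL (circleMap 0 x t)‖ * ‖lgd PL (circleMap 0 x t)‖ =
      0.88 * x ^ (0.1 : ℝ) * ‖KK 0.1 (circleMap 0 x t)‖ +
        0.12 * x * ‖KK 1 (circleMap 0 x t)‖ := by
    intro t
    rw [norm_fn, norm_circleMap_zero, abs_of_nonneg h0, NN, KK_norm, KK_norm,
      Real.mul_rpow h0 (Real.exp_pos _).le, ← Real.exp_mul, mul_comm ((PL (circleMap 0 x t)).re)]
    ring_nf
  rw [EN, circleAverage, circleAverage, circleAverage]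
  simp only [hp]
  rw [intervalIntegral.integral_add, intervalIntegral.integral_const_mul,
    intervalIntegral.integral_const_mul]
  · simp only [smul_eq_mul]
    ring
  · exact ((KK_cont 0.1 h0 h1).const_mul _).intervalIntegrable _ _
  · exact ((KK_cont 1 h0 h1).const_mul _).intervalIntegrable _ _

private theorem avg_nonneg (a x : ℝ) : 0 ≤ circleAverage (fun z => ‖KK a z‖) 0 x := by
  rw [circleAverage, smul_eq_mul]
  apply mul_nonneg
  · positivity
  · exact intervalIntegral.integral_nonneg (by positivity) fun t _ => norm_nonneg _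

theorem EN_mono {x y : ℝ} (h0 : 0 ≤ x) (hxy : x ≤ y) (hy : y < 1) :
    EN NN PL x ≤ EN NN PL y := by
  rw [EN_form h0 (hxy.trans_lt hy), EN_form (h0.trans hxy) hy]
  have h1 := M1mono (KK_diff 0.1) h0 hxy hy
  have h2 := M1mono (KK_diff 1) h0 hxy hy
  have h3 : x ^ (0.1 : ℝ) ≤ y ^ (0.1 : ℝ) := Real.rpow_le_rpow h0 hxy (by norm_num)
  have h4 : 0 ≤ x ^ (0.1 : ℝ) := Real.rpow_nonneg h0 _
  apply add_le_add
  · apply mul_le_mul _ h1 (avg_nonneg _ _)
    · have : 0 ≤ y ^ (0.1 : ℝ) := h4.trans h3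
      positivity
    · linarith
  · apply mul_le_mul _ h2 (avg_nonneg _ _)
    · have : 0 ≤ y := h0.trans hxy
      positivity
    · linarith

private theorem avg_zero (a : ℝ) :
    circleAverage (fun z => ‖KK a z‖) 0 0 = (1 / 50 : ℝ) ^ a := by
  rw [circleAverage_zero, KK_norm, PL_zero, Complex.ofReal_re, lgd]
  have : (0 : ℝ) < 1 / 50 := by norm_num
  rw [Real.rpow_def_of_pos this]
  simp [mul_comm]

theorem EN_ge {x : ℝ} (h0 : 0 ≤ x) (h1 : x < 1) :
    0.88 * (x / 50) ^ (0.1 : ℝ) + 0.12 * (x / 50) ≤ EN NN PL x := by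
  rw [EN_form h0 h1]
  have h2 := M1mono (KK_diff 0.1) le_rfl h0 h1
  have h3 := M1mono (KK_diff 1) le_rfl h0 h1
  rw [avg_zero] at h2 h3
  rw [Real.rpow_one] at h3
  have h4 : 0 ≤ x ^ (0.1 : ℝ) := Real.rpow_nonneg h0 _
  have h5 : (x / 50) ^ (0.1 : ℝ) = x ^ (0.1 : ℝ) * (1 / 50) ^ (0.1 : ℝ) := by
    rw [← Real.mul_rpow h0 (by norm_num)]
    congr 1
    ring
  rw [h5]
  have h6 := mul_le_mul_of_nonneg_left h2 h4
  have h7 := mul_le_mul_of_nonneg_left h3 h0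
  linarith

/-- `x ^ 1.9 ≤ 0.56 ^ 1.9`, `1.95 * 0.56 ^ 1.9 ≤ (1/50) ^ 0.1` (tenth powers: `1.95^10 * 0.56^19 * 50 ≤ 1`),
`1.95 * x ^ 19 ≤ 1/50`. -/
theorem small_x {x : ℝ} (h0 : 0 < x) (h1 : x ≤ 0.56) : 1.95 * NN (x ^ 20) ≤ EN NN PL x := by
  refine le_trans ?_ (EN_ge h0.le (by linarith : x < 1))
  have h19 : x ^ 19 ≤ 0.56 ^ 19 := pow_le_pow_left₀ h0.le h1 19
  have e1 : (x ^ 20) ^ (0.1 : ℝ) = x ^ 2 := by
    rw [← Real.rpow_natCast x 20, ← Real.rpow_mul h0.le, ← Real.rpow_natCast x 2]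
    norm_num
  have h2 : 1.95 * x ^ 20 ≤ x / 50 := by
    have : 1.95 * x ^ 19 ≤ 1 / 50 := by
      refine le_trans (mul_le_mul_of_nonneg_left h19 (by norm_num)) (by norm_num)
    have h3 := mul_le_mul_of_nonneg_right this h0.le
    calc 1.95 * x ^ 20 = 1.95 * x ^ 19 * x := by ring
      _ ≤ 1 / 50 * x := h3
      _ = x / 50 := by ring
  have h4 : (1.95 * x ^ 2) ^ 10 ≤ x / 50 := by
    have : 1.95 ^ 10 * x ^ 19 ≤ 1 / 50 := by
      refine le_trans (mul_le_mul_of_nonneg_left h19 (by norm_num)) (by norm_num)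
    have h3 := mul_le_mul_of_nonneg_right this h0.le
    calc (1.95 * x ^ 2) ^ 10 = 1.95 ^ 10 * x ^ 19 * x := by ring
      _ ≤ 1 / 50 * x := h3
      _ = x / 50 := by ring
  have h5 : 1.95 * x ^ 2 ≤ (x / 50) ^ (0.1 : ℝ) := by
    have h6 : 0 ≤ 1.95 * x ^ 2 := by positivity
    have h7 : ((1.95 * x ^ 2) ^ 10) ^ (0.1 : ℝ) = 1.95 * x ^ 2 := by
      rw [← Real.rpow_natCast (1.95 * x ^ 2) 10, ← Real.rpow_mul h6]
      norm_num
    rw [← h7]
    exact Real.rpow_le_rpow (by positivity) h4 (by norm_num)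
  rw [NN, e1]
  linarith

end Pool.Agent.H49.SZ
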