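import Pool.Agent.H49.SZ.Tay

set_option autoImplicit false

/-!
# [H49 SZ PERT] The perturbed functions

`pe s χ η L` is the logarithm of `z ↦ fn L (ψ (s z))`, `ψ ζ = ζ (1 + η χ ζ)`.
-/

namespace Pool.Agent.H49.SZ

open Set Metric Real Filter Topology

/-- the logarithm of `fn L ∘ ψ (s ·)` -/
noncomputable def pe (s : ℝ) (χ : ℂ → ℂ) (η : ℂ) (L : ℂ → ℂ) (z : ℂ) : ℂ :=
  (Real.log s : ℂ) + Complex.log (1 + η * χ (s * z)) + L (s * z * (1 + η * χ (s * z)))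

theorem pe_zero (s : ℝ) (g : ℂ → ℂ) (m : ℕ) (η : ℂ) (L : ℂ → ℂ) :
    pe s (fun z => z ^ (m + 1) * g z) η L 0 = (Real.log s : ℂ) + L 0 := by
  simp [pe]

/-- `s = 1 - 1/m`, `|η| ≤ 1/(2m)`, `χ = z^(m+1) g`, `|χ| ≤ 1`.
Real part: `log s + log |1 + η χ| + Re L ≤ log (s (1 + |η|)) ≤ 0`.
Injectivity: `fn (pe ..) z = fn L (ψ (s z))`; `u = ζ χ ζ` has `|u| ≤ 1` on the closed disc, so `|u'(ζ)| ≤ 1/(1-|ζ|) ≤ m` for `|ζ| < s`
(`Complex.norm_deriv_le_of_forall_mem_sphere_norm_le`), `u` is `m`-Lipschitz on the ball of radius `s`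
(`Convex.norm_image_sub_le_of_norm_deriv_le`), so `ψ ζ₁ = ψ ζ₂` gives `‖ζ₁-ζ₂‖ ≤ (1/2) ‖ζ₁-ζ₂‖`. -/
theorem pe_uu {L : ℂ → ℂ} (hL : UU L) {g : ℂ → ℂ} (hg : Differentiable ℂ g) {m : ℕ} (hm : 2 ≤ m)
    (hb : ∀ z : ℂ, ‖z‖ ≤ 1 → ‖z ^ (m + 1) * g z‖ ≤ 1) {η : ℂ} (hη : ‖η‖ ≤ 1 / (2 * m)) :
    UU (pe (1 - 1 / m) (fun z => z ^ (m + 1) * g z) η L) := by
  have hmr : (2 : ℝ) ≤ m := by exact_mod_cast hm
  have hm0 : (0 : ℝ) < m := by linarith
  set s : ℝ := 1 - 1 / m with hs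
  set χ : ℂ → ℂ := fun z => z ^ (m + 1) * g z with hχ
  have h1m : (0 : ℝ) < 1 / m := by positivity
  have hs0 : 0 < s := by
    have : (1 : ℝ) / m ≤ 1 / 2 := one_div_le_one_div_of_le (by norm_num) hmr
    rw [hs]; linarith
  have hs1 : s ≤ 1 := by rw [hs]; linarith
  have hη1 : ‖η‖ ≤ 1 / 4 := by
    apply hη.trans
    rw [div_le_div_iff₀ (by positivity) (by norm_num)]
    linarith
  have hsη : s * (1 + ‖η‖) ≤ 1 := by
    have e1 : ‖η‖ ≤ 1 / m := by
      apply hη.trans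
      apply one_div_le_one_div_of_le hm0
      linarith
    have e2 : s * (1 + ‖η‖) ≤ (1 - 1 / m) * (1 + 1 / m) := by
      rw [← hs]
      exact mul_le_mul_of_nonneg_left (by linarith) hs0.le
    nlinarith
  have hχd : Differentiable ℂ χ := (differentiable_id.pow _).mul hg
  have hsm : ∀ z ∈ ball (0 : ℂ) 1, (s : ℂ) * z ∈ ball (0 : ℂ) 1 := fun z hz => dil_mem hs0 hs1 hz
  have hχ1 : ∀ z ∈ ball (0 : ℂ) 1, ‖χ (s * z)‖ ≤ 1 := by
    intro z hz
    apply hb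
    have := hsm z hz
    rw [mem_ball_zero_iff] at this
    exact this.le
  have hfac : ∀ z ∈ ball (0 : ℂ) 1, ‖1 + η * χ (s * z)‖ ≤ 1 + ‖η‖ := by
    intro z hz
    calc ‖1 + η * χ (s * z)‖ ≤ ‖(1 : ℂ)‖ + ‖η * χ (s * z)‖ := norm_add_le _ _
      _ = 1 + ‖η‖ * ‖χ (s * z)‖ := by rw [norm_one, norm_mul]
      _ ≤ 1 + ‖η‖ := by nlinarith [norm_nonneg η, hχ1 z hz]
  have hmem : ∀ z ∈ ball (0 : ℂ) 1, (s : ℂ) * z * (1 + η * χ (s * z)) ∈ ball (0 : ℂ) 1 := by
    intro z hz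
    have hz' := mem_ball_zero_iff.1 hz
    rw [mem_ball_zero_iff, norm_mul, norm_mul, Complex.norm_real, Real.norm_eq_abs,
      abs_of_pos hs0]
    calc s * ‖z‖ * ‖1 + η * χ (s * z)‖ ≤ s * ‖z‖ * (1 + ‖η‖) :=
          mul_le_mul_of_nonneg_left (hfac z hz) (by positivity)
      _ = s * (1 + ‖η‖) * ‖z‖ := by ring
      _ ≤ 1 * ‖z‖ := mul_le_mul_of_nonneg_right hsη (norm_nonneg z)
      _ < 1 := by linarith
  have hslit : ∀ z ∈ ball (0 : ℂ) 1, 1 + η * χ (s * z) ∈ Complex.slitPlane := by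
    intro z hz
    left
    have e1 : ‖η * χ (s * z)‖ ≤ 1 / 4 := by
      rw [norm_mul]
      nlinarith [norm_nonneg η, norm_nonneg (χ (s * z)), hχ1 z hz]
    have e2 := (abs_le.1 (Complex.abs_re_le_norm (η * χ (s * z)))).1
    simp only [Complex.add_re, Complex.one_re]
    linarith
  have hne : ∀ z ∈ ball (0 : ℂ) 1, 1 + η * χ (s * z) ≠ 0 := fun z hz =>
    Complex.slitPlane_ne_zero (hslit z hz)
  have hmul : Differentiable ℂ fun z : ℂ => (s : ℂ) * z := by fun_prop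
  have hχs : Differentiable ℂ fun z : ℂ => 1 + η * χ (s * z) :=
    ((hχd.comp hmul).const_mul η).const_add 1
  have hfn : ∀ z ∈ ball (0 : ℂ) 1, fn (pe s χ η L) z =
      fn L ((s : ℂ) * z * (1 + η * χ (s * z))) := by
    intro z hz
    simp only [fn, pe, Complex.exp_add]
    rw [Complex.ofReal_log hs0.le, Complex.exp_log (by exact_mod_cast hs0.ne'),
      Complex.exp_log (hne z hz)]
    ring
  refine ⟨?_, ?_, ?_, ?_⟩
  · unfold pe
    apply DifferentiableOn.add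
    · exact (hχs.differentiableOn.clog hslit).const_add _
    · exact hL.diff.comp (hmul.mul hχs).differentiableOn hmem
  · intro z hz
    have e1 := hL.re _ (hmem z hz)
    have e2 : (pe s χ η L z).re = Real.log s + Real.log ‖1 + η * χ (s * z)‖ +
        (L ((s : ℂ) * z * (1 + η * χ (s * z)))).re := by
      simp only [pe, Complex.add_re, Complex.ofReal_re, Complex.log_re]
    have e3 : Real.log s + Real.log ‖1 + η * χ (s * z)‖ ≤ 0 := by
      rw [← Real.log_mul hs0.ne' (norm_pos_iff.2 (hne z hz)).ne']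
      apply Real.log_nonpos (by positivity)
      exact (mul_le_mul_of_nonneg_left (hfac z hz) hs0.le).trans hsη
    rw [e2]
    linarith
  · rw [hχ, pe_zero]
    simp [hL.im]
  · -- injectivity
    set u : ℂ → ℂ := fun ζ => ζ * χ ζ with hu
    have hud : Differentiable ℂ u := differentiable_id.mul hχd
    have hu1 : ∀ ζ : ℂ, ‖ζ‖ ≤ 1 → ‖u ζ‖ ≤ 1 := by
      intro ζ hζ
      rw [hu]
      simp only [norm_mul]
      have := hb ζ hζ
      rw [hχ]
      simp only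
      nlinarith [norm_nonneg ζ, norm_nonneg (ζ ^ (m + 1) * g ζ)]
    have hu2 : ∀ ζ ∈ ball (0 : ℂ) s, ‖deriv u ζ‖ ≤ m := by
      intro ζ hζ
      rw [mem_ball_zero_iff] at hζ
      have h1 : 1 / (m : ℝ) ≤ 1 - ‖ζ‖ := by rw [hs] at hζ; linarith
      have h2 : 0 < 1 - ‖ζ‖ := h1m.trans_le h1
      have h3 := Complex.norm_deriv_le_of_forall_mem_sphere_norm_le (c := ζ) (R := 1 - ‖ζ‖)
        (C := 1) h2 hud.diffContOnCl (by
          intro w hw
          apply hu1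
          rw [mem_sphere_iff_norm] at hw
          calc ‖w‖ = ‖ζ + (w - ζ)‖ := by ring_nf
            _ ≤ ‖ζ‖ + ‖w - ζ‖ := norm_add_le _ _
            _ = 1 := by rw [hw]; ring)
      apply h3.trans
      rw [div_le_iff₀ h2]
      have h4 := mul_le_mul_of_nonneg_left h1 hm0.le
      rw [mul_one_div, div_self hm0.ne'] at h4
      exact h4
    have hψ : InjOn (fun ζ : ℂ => ζ * (1 + η * χ ζ)) (ball 0 s) := by
      intro a ha b hb' hab
      have e1 : a - b = η * (u b - u a) := by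
        simp only at hab
        rw [hu]
        simp only
        linear_combination hab
      have e2 : ‖u b - u a‖ ≤ m * ‖b - a‖ :=
        (convex_ball (0 : ℂ) s).norm_image_sub_le_of_norm_deriv_le
          (fun x _ => hud x) hu2 ha hb'
      have e3 : ‖a - b‖ ≤ 1 / 2 * ‖a - b‖ := by
        calc ‖a - b‖ = ‖η‖ * ‖u b - u a‖ := by rw [e1, norm_mul]
          _ ≤ 1 / (2 * m) * (m * ‖b - a‖) :=
              mul_le_mul hη e2 (norm_nonneg _) (by positivity)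
          _ = 1 / 2 * ‖a - b‖ := by
              rw [norm_sub_rev b a]
              field_simp
      have e4 : ‖a - b‖ ≤ 0 := by linarith
      exact sub_eq_zero.1 (norm_le_zero_iff.1 e4)
    intro z hz w hw h
    rw [hfn z hz, hfn w hw] at h
    have h1 := hL.inj (hmem z hz) (hmem w hw) h
    have hball : ∀ z ∈ ball (0 : ℂ) 1, (s : ℂ) * z ∈ ball (0 : ℂ) s := by
      intro z hz
      rw [mem_ball_zero_iff] at hz ⊢
      rw [norm_mul, Complex.norm_real, Real.norm_eq_abs, abs_of_pos hs0]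
      nlinarith
    have h2 := hψ (hball z hz) (hball w hw) h1
    exact mul_left_cancel₀ (by exact_mod_cast hs0.ne') h2

/-- analytic functions on the disc are Lipschitz on smaller balls -/
theorem lip_on {G : ℂ → ℂ} (hG : DifferentiableOn ℂ G (ball 0 1)) {r : ℝ} (hr : r < 1) :
    ∃ K : ℝ, 0 ≤ K ∧ ∀ a ∈ closedBall (0 : ℂ) r, ∀ b ∈ closedBall (0 : ℂ) r,
      ‖G a - G b‖ ≤ K * ‖a - b‖ := by
  have hsub : closedBall (0 : ℂ) r ⊆ ball 0 1 := closedBall_subset_ball hr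
  have h1 : ContinuousOn (deriv G) (closedBall (0 : ℂ) r) :=
    (hG.deriv isOpen_ball).continuousOn.mono hsub
  obtain ⟨K, hK⟩ := (isCompact_closedBall (0 : ℂ) r).exists_bound_of_continuousOn h1
  refine ⟨|K|, abs_nonneg K, fun a ha b hb => ?_⟩
  have h2 := (convex_closedBall (0 : ℂ) r).norm_image_sub_le_of_norm_deriv_le (f := G) (C := |K|)
    (fun x hx => (hG x (hsub hx)).differentiableAt (isOpen_ball.mem_nhds (hsub hx)))
    (fun x hx => (hK x hx).trans (le_abs_self K)) hb ha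
  exact h2

theorem tc_const_add (c : ℂ) (G : ℂ → ℂ) {n : ℕ} (hn : 1 ≤ n) :
    tc (fun z => c + G z) n = tc G n := by
  rw [tc, tc, iteratedDeriv_const_add (by omega)]

/-- `pe` agrees with `dil s L` up to order `m` (`tc_trunc`, then `tc_scale`). -/
theorem pe_tc {L : ℂ → ℂ} (hL : UU L) {g : ℂ → ℂ} (hg : Differentiable ℂ g) {m : ℕ} (hm : 2 ≤ m)
    (hb : ∀ z : ℂ, ‖z‖ ≤ 1 → ‖z ^ (m + 1) * g z‖ ≤ 1) {η : ℂ} (hη : ‖η‖ ≤ 1 / (2 * m)) {j : ℕ}
    (hj : 1 ≤ j) (hjm : j ≤ m) :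
    tc (pe (1 - 1 / m) (fun z => z ^ (m + 1) * g z) η L) j = (1 - 1 / m : ℂ) ^ j * tc L j := by
  have hmr : (2 : ℝ) ≤ m := by exact_mod_cast hm
  have hm0 : (0 : ℝ) < m := by linarith
  have hpe := pe_uu hL hg hm hb hη
  set s : ℝ := 1 - 1 / m with hs
  set χ : ℂ → ℂ := fun z => z ^ (m + 1) * g z with hχ
  have h1m : (0 : ℝ) < 1 / m := by positivity
  have hs0 : 0 < s := by
    have : (1 : ℝ) / m ≤ 1 / 2 := one_div_le_one_div_of_le (by norm_num) hmr
    rw [hs]; linarith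
  have hs1 : s ≤ 1 := by rw [hs]; linarith
  have hη1 : ‖η‖ ≤ 1 / 4 := by
    apply hη.trans
    rw [div_le_div_iff₀ (by positivity) (by norm_num)]
    linarith
  obtain ⟨K, hK0, hK⟩ := lip_on hL.diff (r := 3 / 4) (by norm_num)
  obtain ⟨A, hA⟩ := (isCompact_closedBall (0 : ℂ) 1).exists_bound_of_continuousOn
    (f := g) hg.continuous.continuousOn
  have hA0 : 0 ≤ A := (norm_nonneg _).trans (hA 0 (mem_closedBall_self zero_le_one))
  have hclose : ∀ z ∈ ball (0 : ℂ) (1 / 2), ‖pe s χ η L z - ((Real.log s : ℂ) + L (s * z))‖ ≤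
      ((3 / 2 + K) * A) * ‖z‖ ^ (m + 1) := by
    intro z hz
    rw [mem_ball_zero_iff] at hz
    have e1 : ‖(s : ℂ) * z‖ ≤ ‖z‖ := by
      rw [norm_mul, Complex.norm_real, Real.norm_eq_abs, abs_of_pos hs0]
      nlinarith [norm_nonneg z]
    have e2 : ‖η * χ (s * z)‖ ≤ A * ‖z‖ ^ (m + 1) := by
      rw [norm_mul, hχ]
      simp only [norm_mul, norm_pow]
      have e3 : ‖g ((s : ℂ) * z)‖ ≤ A := hA _ (by
        rw [mem_closedBall_zero_iff]; linarith)
      have e4 : (‖(s : ℂ)‖ * ‖z‖) ^ (m + 1) ≤ ‖z‖ ^ (m + 1) := by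
        rw [← norm_mul]
        exact pow_le_pow_left₀ (norm_nonneg _) e1 _
      have e5 : (‖(s : ℂ)‖ * ‖z‖) ^ (m + 1) * ‖g ((s : ℂ) * z)‖ ≤ ‖z‖ ^ (m + 1) * A :=
        mul_le_mul e4 e3 (norm_nonneg _) (by positivity)
      have e6 : 0 ≤ (‖(s : ℂ)‖ * ‖z‖) ^ (m + 1) * ‖g ((s : ℂ) * z)‖ := by positivity
      nlinarith [norm_nonneg η]
    have e3 : ‖η * χ (s * z)‖ ≤ 1 / 4 := by
      rw [norm_mul]
      have : ‖χ (s * z)‖ ≤ 1 := hb _ (by linarith)
      nlinarith [norm_nonneg η, norm_nonneg (χ (s * z))]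
    have e4 : ‖Complex.log (1 + η * χ (s * z))‖ ≤ 3 / 2 * ‖η * χ (s * z)‖ :=
      Complex.norm_log_one_add_half_le_self (by linarith)
    have e5 : ‖L (s * z * (1 + η * χ (s * z))) - L (s * z)‖ ≤ K * ‖η * χ (s * z)‖ := by
      have e6 : ‖s * z * (1 + η * χ (s * z))‖ ≤ 3 / 4 := by
        rw [norm_mul]
        have e7 : ‖1 + η * χ (s * z)‖ ≤ 5 / 4 := by
          calc ‖1 + η * χ (s * z)‖ ≤ ‖(1 : ℂ)‖ + ‖η * χ (s * z)‖ := norm_add_le _ _
            _ ≤ 5 / 4 := by rw [norm_one]; linarith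
        nlinarith [norm_nonneg ((s : ℂ) * z), norm_nonneg (1 + η * χ (s * z))]
      have e8 := hK (s * z * (1 + η * χ (s * z))) (by rwa [mem_closedBall_zero_iff])
        (s * z) (by rw [mem_closedBall_zero_iff]; linarith)
      apply e8.trans
      apply mul_le_mul_of_nonneg_left _ hK0
      have e9 : (s : ℂ) * z * (1 + η * χ (s * z)) - s * z = (s : ℂ) * z * (η * χ (s * z)) := by
        ring
      rw [e9, norm_mul]
      nlinarith [norm_nonneg ((s : ℂ) * z), norm_nonneg (η * χ (s * z))]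
    have e6 : pe s χ η L z - ((Real.log s : ℂ) + L (s * z)) =
        Complex.log (1 + η * χ (s * z)) + (L (s * z * (1 + η * χ (s * z))) - L (s * z)) := by
      simp only [pe]
      ring
    rw [e6]
    calc ‖Complex.log (1 + η * χ (s * z)) + (L (s * z * (1 + η * χ (s * z))) - L (s * z))‖
        ≤ 3 / 2 * ‖η * χ (s * z)‖ + K * ‖η * χ (s * z)‖ := (norm_add_le _ _).trans (by linarith)
      _ = (3 / 2 + K) * ‖η * χ (s * z)‖ := by ring
      _ ≤ (3 / 2 + K) * (A * ‖z‖ ^ (m + 1)) :=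
          mul_le_mul_of_nonneg_left e2 (by linarith)
      _ = _ := by ring
  have hLs : DifferentiableOn ℂ (fun z : ℂ => L (s * z)) (ball 0 1) :=
    hL.diff.comp (differentiableOn_id.const_mul _) fun z hz => dil_mem hs0 hs1 hz
  have hsub : ball (0 : ℂ) (1 / 2) ⊆ ball 0 1 := ball_subset_ball (by norm_num)
  have h1 := tc_trunc (by norm_num : (0 : ℝ) < 1 / 2) (hpe.diff.mono hsub)
    ((hLs.const_add (Real.log s : ℂ)).mono hsub) hclose hjm
  rw [h1, tc_const_add _ _ hj, tc_scale one_pos hL.diff (s : ℂ) j]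
  have h2 : (s : ℂ) = 1 - 1 / m := by
    rw [hs]
    push_cast
    rfl
  rw [h2]

end Pool.Agent.H49.SZ
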