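import Pool.Agent.H49.SZ.PhiD

set_option autoImplicit false

/-!
# [H49 SZ PHIA] `UU PL`

`Re (sg z) > 0` in the disc, so `sg z ^ 2` is in the slit plane, and so is `sq z`; `Re (si z) > 0`, `si z ^ 2 = sq z`;
`sq z - 1 = (4 z / (1-z)^2) / 50`, `1 - pk z = 2 / (si z + 1)` (positive real part), so
`pk z = z / 50 * (1 - pk z)^2 / (1 - z)^2` and `fn PL z = pk z`.  `‖pk z‖ < 1`, `pk 0 = 0`, so `‖pk z‖ ≤ ‖z‖` by the Schwarz lemma
(`Complex.norm_le_norm_of_mapsTo_ball` or `Complex.dist_le_dist_of_mapsTo_ball_self`), which is `(PL z).re ≤ 0` (`z ≠ 0`; at `z = 0`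
`PL 0 = log (1/50)`).  Injective: `pk / (1 - pk)^2 = (1/50) z / (1-z)^2` and `z/(1-z)^2` is injective on the disc.
`lgd PL z = 1 + z * deriv PL z`, `deriv PL z = -2 pk'/(1-pk) + 2/(1-z)`, `pk' = 2 si'/(si+1)^2`, `si' = sg sg'/(50 si)`, `sg' = 2/(1-z)^2`.
-/

namespace Pool.Agent.H49.SZ

open Set Metric Real

private theorem re_lt {z : ℂ} (hz : z ∈ ball (0 : ℂ) 1) : z.re ^ 2 + z.im ^ 2 < 1 := by
  rw [mem_ball_zero_iff] at hz
  have h1 : ‖z‖ ^ 2 = z.re ^ 2 + z.im ^ 2 := by
    rw [← Complex.normSq_eq_norm_sq, Complex.normSq_apply]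
    ring
  have h2 : ‖z‖ ^ 2 < 1 := by nlinarith [norm_nonneg z]
  linarith

private theorem one_sub_re {z : ℂ} (hz : z ∈ ball (0 : ℂ) 1) : 0 < (1 - z).re := by
  have h := re_lt hz
  rw [Complex.sub_re, Complex.one_re]
  nlinarith [sq_nonneg z.im, sq_nonneg (z.re - 1)]

private theorem ne_of_re {z : ℂ} (h : 0 < z.re) : z ≠ 0 := by
  rintro rfl
  simp at h

theorem sg_re {z : ℂ} (hz : z ∈ ball (0 : ℂ) 1) : 0 < (sg z).re := by
  have h1 := re_lt hz
  have h2 : 0 < Complex.normSq (1 - z) := Complex.normSq_pos.2 (ne_of_re (one_sub_re hz))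
  unfold sg
  rw [Complex.div_re, ← add_div]
  apply div_pos _ h2
  simp only [Complex.add_re, Complex.one_re, Complex.sub_re, Complex.add_im, Complex.one_im,
    Complex.sub_im]
  nlinarith

theorem sq_slit {z : ℂ} (hz : z ∈ ball (0 : ℂ) 1) : sq z ∈ Complex.slitPlane := by
  have h1 := sg_re hz
  rw [Complex.mem_slitPlane_iff]
  have hre : (sq z).re = 1 / 50 * ((sg z).re ^ 2 - (sg z).im ^ 2) + 49 / 50 := by
    have : sq z = ((1 / 50 : ℝ) : ℂ) * sg z ^ 2 + ((49 / 50 : ℝ) : ℂ) := by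
      unfold sq
      push_cast
      ring
    rw [this, Complex.add_re, Complex.re_ofReal_mul, Complex.ofReal_re, pow_two, Complex.mul_re]
    ring
  have him : (sq z).im = 1 / 50 * (2 * (sg z).re * (sg z).im) := by
    have : sq z = ((1 / 50 : ℝ) : ℂ) * sg z ^ 2 + ((49 / 50 : ℝ) : ℂ) := by
      unfold sq
      push_cast
      ring
    rw [this, Complex.add_im, Complex.im_ofReal_mul, Complex.ofReal_im, pow_two, Complex.mul_im]
    ring
  by_cases h : (sg z).im = 0
  · left
    rw [hre, h]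
    nlinarith [sq_nonneg (sg z).re]
  · right
    rw [him]
    exact mul_ne_zero (by norm_num) (mul_ne_zero (mul_ne_zero two_ne_zero h1.ne') h)

theorem si_re {z : ℂ} (hz : z ∈ ball (0 : ℂ) 1) : 0 < (si z).re := by
  have h1 := sq_slit hz
  have h2 : (Complex.log (sq z) / 2).im = Complex.arg (sq z) / 2 := by
    have : Complex.log (sq z) / 2 = Complex.log (sq z) / ((2 : ℝ) : ℂ) := by norm_num
    rw [this, Complex.div_ofReal_im, Complex.log_im]
  unfold si
  rw [Complex.exp_re, h2]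
  apply mul_pos (Real.exp_pos _)
  apply Real.cos_pos_of_mem_Ioo
  have h3 := Complex.neg_pi_lt_arg (sq z)
  have h4 := Complex.arg_lt_pi_iff.2 (Or.elim (Complex.mem_slitPlane_iff.1 h1)
    (fun h => Or.inl h.le) (fun h => Or.inr h))
  constructor <;> linarith

theorem si_sq {z : ℂ} (hz : z ∈ ball (0 : ℂ) 1) : si z ^ 2 = sq z := by
  have h1 := Complex.slitPlane_ne_zero (sq_slit hz)
  unfold si
  rw [← Complex.exp_nat_mul]
  have : ((2 : ℕ) : ℂ) * (Complex.log (sq z) / 2) = Complex.log (sq z) := by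
    push_cast
    ring
  rw [this, Complex.exp_log h1]

private theorem si_zero : si 0 = 1 := by
  have : sq 0 = 1 := by
    unfold sq sg
    norm_num
  unfold si
  rw [this, Complex.log_one, zero_div, Complex.exp_zero]

private theorem pk_zero : pk 0 = 0 := by
  unfold pk
  rw [si_zero]
  norm_num

theorem PL_zero : PL 0 = (Real.log (1 / 50) : ℂ) := by
  unfold PL
  rw [pk_zero]
  simp

private theorem si1_re {z : ℂ} (hz : z ∈ ball (0 : ℂ) 1) : 0 < (si z + 1).re := by
  have := si_re hz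
  rw [Complex.add_re, Complex.one_re]
  linarith

private theorem one_sub_pk {z : ℂ} (hz : z ∈ ball (0 : ℂ) 1) : 1 - pk z = 2 / (si z + 1) := by
  have := ne_of_re (si1_re hz)
  unfold pk
  field_simp
  ring

private theorem one_sub_pk_re {z : ℂ} (hz : z ∈ ball (0 : ℂ) 1) : 0 < (1 - pk z).re := by
  have h0 := si1_re hz
  have h1 : 0 < Complex.normSq (si z + 1) := Complex.normSq_pos.2 (ne_of_re h0)
  rw [one_sub_pk hz]
  have : (2 : ℂ) / (si z + 1) = ((2 : ℝ) : ℂ) * (si z + 1)⁻¹ := by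
    rw [div_eq_mul_inv]
    norm_num
  rw [this, Complex.re_ofReal_mul, Complex.inv_re]
  positivity

private theorem sq_sub {z : ℂ} (hz : z ∈ ball (0 : ℂ) 1) :
    si z ^ 2 - 1 = 4 * z / (50 * (1 - z) ^ 2) := by
  have h1 := ne_of_re (one_sub_re hz)
  rw [si_sq hz]
  unfold sq sg
  field_simp
  ring

theorem fn_PL {z : ℂ} (hz : z ∈ ball (0 : ℂ) 1) : fn PL z = pk z := by
  have h1 := ne_of_re (one_sub_re hz)
  have h2 := ne_of_re (one_sub_pk_re hz)
  have h3 := ne_of_re (si1_re hz)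
  have e1 : Complex.exp (2 * Complex.log (1 - pk z)) = (1 - pk z) ^ 2 := by
    have : (2 : ℂ) * Complex.log (1 - pk z) = ((2 : ℕ) : ℂ) * Complex.log (1 - pk z) := by
      norm_num
    rw [this, Complex.exp_nat_mul, Complex.exp_log h2]
  have e2 : Complex.exp (2 * Complex.log (1 - z)) = (1 - z) ^ 2 := by
    have : (2 : ℂ) * Complex.log (1 - z) = ((2 : ℕ) : ℂ) * Complex.log (1 - z) := by
      norm_num
    rw [this, Complex.exp_nat_mul, Complex.exp_log h1]
  have e3 : Complex.exp (Real.log (1 / 50) : ℂ) = 1 / 50 := by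
    rw [Complex.ofReal_log (by norm_num), Complex.exp_log (by norm_num)]
    norm_num
  unfold fn PL
  rw [Complex.exp_sub, Complex.exp_add, e1, e2, e3, one_sub_pk hz]
  have h4 := sq_sub hz
  have h5 : z = (si z ^ 2 - 1) * (50 * (1 - z) ^ 2) / 4 := by
    rw [h4]
    field_simp
  unfold pk
  calc z * (1 / 50 * (2 / (si z + 1)) ^ 2 / (1 - z) ^ 2)
      = (si z ^ 2 - 1) * (50 * (1 - z) ^ 2) / 4 *
        (1 / 50 * (2 / (si z + 1)) ^ 2 / (1 - z) ^ 2) := by rw [← h5]
    _ = (si z - 1) / (si z + 1) := by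
      field_simp
      ring

private theorem sg_deriv {z : ℂ} (hz : z ∈ ball (0 : ℂ) 1) :
    HasDerivAt sg (2 / (1 - z) ^ 2) z := by
  have h1 := ne_of_re (one_sub_re hz)
  have h2 := ((hasDerivAt_id z).const_add 1).div ((hasDerivAt_id z).const_sub 1) h1
  have h3 : (1 * (1 - id z) - (1 + id z) * -1) / (1 - id z) ^ 2 = 2 / (1 - z) ^ 2 := by
    simp only [id]
    congr 1
    ring
  rw [h3] at h2
  exact h2

private theorem si_deriv {z : ℂ} (hz : z ∈ ball (0 : ℂ) 1) :
    HasDerivAt si (1 / 50 * sg z * (2 / (1 - z) ^ 2) / si z) z := by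
  have h0 := sq_slit hz
  have h1 : HasDerivAt sq (1 / 50 * (2 * sg z * (2 / (1 - z) ^ 2))) z := by
    unfold sq
    have := (((sg_deriv hz).pow 2).const_mul (1 / 50 : ℂ)).add_const (49 / 50 : ℂ)
    refine this.congr_deriv ?_
    push_cast
    ring
  have h2 := ((h1.clog h0).div_const 2).cexp
  have h3 := ne_of_re (si_re hz)
  refine HasDerivAt.congr_deriv (f := si) h2 ?_
  have h4 : Complex.exp (Complex.log (sq z) / 2) = si z := rfl
  rw [h4, ← si_sq hz]
  field_simp

private theorem pk_deriv {z : ℂ} (hz : z ∈ ball (0 : ℂ) 1) :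
    HasDerivAt pk (2 * (1 / 50 * sg z * (2 / (1 - z) ^ 2) / si z) / (si z + 1) ^ 2) z := by
  have h1 := ne_of_re (si1_re hz)
  have h2 := ((si_deriv hz).sub_const 1).div ((si_deriv hz).add_const 1) h1
  refine HasDerivAt.congr_deriv (f := pk) h2 ?_
  congr 1
  ring

private theorem PL_deriv {z : ℂ} (hz : z ∈ ball (0 : ℂ) 1) :
    HasDerivAt PL (2 * (-(2 * (1 / 50 * sg z * (2 / (1 - z) ^ 2) / si z) / (si z + 1) ^ 2) /
      (1 - pk z)) - 2 * (-1 / (1 - z))) z := by
  have h1 := ((pk_deriv hz).const_sub 1).clog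
    (Complex.mem_slitPlane_iff.2 (Or.inl (one_sub_pk_re hz)))
  have h2 := ((hasDerivAt_id z).const_sub 1).clog
    (Complex.mem_slitPlane_iff.2 (Or.inl (one_sub_re hz)))
  exact ((h1.const_mul 2).const_add ((Real.log (1 / 50) : ℝ) : ℂ)).sub (h2.const_mul 2)

private theorem norm_pk_lt {z : ℂ} (hz : z ∈ ball (0 : ℂ) 1) : ‖pk z‖ < 1 := by
  have h1 := si_re hz
  have h2 : 0 < ‖si z + 1‖ := norm_pos_iff.2 (ne_of_re (si1_re hz))
  unfold pk
  rw [norm_div, div_lt_one h2]
  have h3 : ‖si z - 1‖ ^ 2 < ‖si z + 1‖ ^ 2 := by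
    rw [← Complex.normSq_eq_norm_sq, ← Complex.normSq_eq_norm_sq, Complex.normSq_apply,
      Complex.normSq_apply]
    simp only [Complex.sub_re, Complex.add_re, Complex.one_re, Complex.sub_im, Complex.add_im,
      Complex.one_im]
    nlinarith
  exact lt_of_pow_lt_pow_left₀ 2 h2.le h3

theorem UU_PL : UU PL := by
  have hd : DifferentiableOn ℂ PL (ball 0 1) := fun z hz =>
    (PL_deriv hz).differentiableAt.differentiableWithinAt
  have hdk : DifferentiableOn ℂ pk (ball 0 1) := fun z hz =>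
    (pk_deriv hz).differentiableAt.differentiableWithinAt
  refine ⟨hd, ?_, ?_, ?_⟩
  · intro z hz
    by_cases h0 : z = 0
    · subst h0
      rw [PL_zero, Complex.ofReal_re]
      exact Real.log_nonpos (by norm_num) (by norm_num)
    · have h1 : ‖pk z‖ ≤ ‖z‖ := by
        apply Complex.norm_le_norm_of_mapsTo_ball hdk
        · intro w hw
          rw [mem_closedBall_zero_iff]
          exact (norm_pk_lt hw).le
        · exact pk_zero
        · rwa [mem_ball_zero_iff] at hz
      rw [← fn_PL hz, norm_fn] at h1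
      have h2 : 0 < ‖z‖ := norm_pos_iff.2 h0
      have h3 : Real.exp (PL z).re ≤ 1 := by
        by_contra h
        push Not at h
        nlinarith
      exact Real.exp_le_one_iff.1 h3
  · rw [PL_zero, Complex.ofReal_im]
  · intro z hz w hw h
    rw [fn_PL hz, fn_PL hw] at h
    have hz1 := ne_of_re (si1_re hz)
    have hw1 := ne_of_re (si1_re hw)
    have h1 : si z = si w := by
      unfold pk at h
      rw [div_eq_div_iff hz1 hw1] at h
      have : 2 * (si z - si w) = 0 := by linear_combination h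
      have h2 : si z - si w = 0 := by
        rcases mul_eq_zero.1 this with h3 | h3
        · norm_num at h3
        · exact h3
      exact sub_eq_zero.1 h2
    have h2 : sq z = sq w := by rw [← si_sq hz, ← si_sq hw, h1]
    have h3 : (sg z - sg w) * (sg z + sg w) = 0 := by
      unfold sq at h2
      linear_combination 50 * h2
    have h4 : sg z = sg w := by
      rcases mul_eq_zero.1 h3 with h4 | h4
      · exact sub_eq_zero.1 h4
      · exfalso
        have h5 : (sg z + sg w).re = 0 := by rw [h4, Complex.zero_re]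
        rw [Complex.add_re] at h5
        linarith [sg_re hz, sg_re hw]
    unfold sg at h4
    rw [div_eq_div_iff (ne_of_re (one_sub_re hz)) (ne_of_re (one_sub_re hw))] at h4
    linear_combination h4 / 2

theorem lgd_PL {z : ℂ} (hz : z ∈ ball (0 : ℂ) 1) : lgd PL z = sg z / si z := by
  have h1 := ne_of_re (one_sub_re hz)
  have h2 := ne_of_re (si1_re hz)
  have h3 := ne_of_re (si_re hz)
  have h4 := sq_sub hz
  unfold lgd
  rw [(PL_deriv hz).deriv, one_sub_pk hz]
  have h5 : z = (si z ^ 2 - 1) * (50 * (1 - z) ^ 2) / 4 := by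
    rw [h4]
    field_simp
  have h6 : 1 + z * (2 / (1 - z)) = sg z := by
    unfold sg
    field_simp
    ring
  have h7 : z * (2 * (1 / 50 * sg z * (2 / (1 - z) ^ 2) / si z) / (si z + 1) ^ 2 /
      (2 / (si z + 1))) * 2 = (si z - 1) * sg z / si z := by
    calc z * (2 * (1 / 50 * sg z * (2 / (1 - z) ^ 2) / si z) / (si z + 1) ^ 2 /
        (2 / (si z + 1))) * 2 = (si z ^ 2 - 1) * (50 * (1 - z) ^ 2) / 4 *
          (2 * (1 / 50 * sg z * (2 / (1 - z) ^ 2) / si z) / (si z + 1) ^ 2 /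
        (2 / (si z + 1))) * 2 := by rw [← h5]
      _ = _ := by
        field_simp
        ring
  calc 1 + z * (2 * (-(2 * (1 / 50 * sg z * (2 / (1 - z) ^ 2) / si z) / (si z + 1) ^ 2) /
      (2 / (si z + 1))) - 2 * (-1 / (1 - z)))
      = (1 + z * (2 / (1 - z))) - z * (2 * (1 / 50 * sg z * (2 / (1 - z) ^ 2) / si z) /
        (si z + 1) ^ 2 / (2 / (si z + 1))) * 2 := by ring
    _ = sg z - (si z - 1) * sg z / si z := by rw [h6, h7]
    _ = sg z / si z := by
      field_simp
      ring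

end Pool.Agent.H49.SZ
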