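import Pool.Agent.H49.SZ.PhiA

set_option autoImplicit false

/-!
# [H49 SZ PHIB] The modulus of the Pick function in coordinates

For `z = x e^{i t}` (`circleMap 0 x t`), `q = cos t`.
-/

namespace Pool.Agent.H49.SZ

open Set Metric Real

private theorem cm_re (x t : ℝ) : (circleMap 0 x t).re = x * Real.cos t := by
  simp [circleMap, Complex.exp_ofReal_mul_I_re]

private theorem cm_im (x t : ℝ) : (circleMap 0 x t).im = x * Real.sin t := by
  simp [circleMap, Complex.exp_ofReal_mul_I_im]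

private theorem cm_mem {x : ℝ} (h0 : 0 < x) (h1 : x < 1) (t : ℝ) :
    circleMap 0 x t ∈ ball (0 : ℂ) 1 := by
  rw [mem_ball_zero_iff, norm_circleMap_zero, abs_of_pos h0]
  exact h1

private theorem sqle' {a b : ℝ} (h : a ^ 2 ≤ b ^ 2) (hb : 0 ≤ b) : a ≤ b :=
  (abs_le_of_sq_le_sq' h hb).2

private theorem one_sub_ne {z : ℂ} (hz : z ∈ ball (0 : ℂ) 1) : 1 - z ≠ 0 := by
  intro h
  have : z = 1 := (sub_eq_zero.1 h).symm
  rw [this, mem_ball_zero_iff, norm_one] at hz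
  exact lt_irrefl _ hz

theorem norm_add_sq (x t : ℝ) : ‖1 + circleMap 0 x t‖ ^ 2 = n1 x (Real.cos t) := by
  rw [Complex.sq_norm, Complex.normSq_apply, n1]
  simp only [Complex.add_re, Complex.add_im, Complex.one_re, Complex.one_im, cm_re, cm_im]
  nlinarith [Real.sin_sq_add_cos_sq t]

theorem norm_sub_sq' (x t : ℝ) : ‖1 - circleMap 0 x t‖ ^ 2 = n2 x (Real.cos t) := by
  rw [Complex.sq_norm, Complex.normSq_apply, n2]
  simp only [Complex.sub_re, Complex.sub_im, Complex.one_re, Complex.one_im, cm_re, cm_im]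
  nlinarith [Real.sin_sq_add_cos_sq t]

theorem norm_P (x t : ℝ) :
    ‖1 - 48 / 25 * circleMap 0 x t + circleMap 0 x t ^ 2‖ ^ 2 = Pq x (Real.cos t) := by
  rw [Complex.sq_norm, Complex.normSq_apply, Pq]
  have hc : (48 / 25 : ℂ) = ((48 / 25 : ℝ) : ℂ) := by push_cast; rfl
  rw [hc]
  have e1 : (1 - ((48 / 25 : ℝ) : ℂ) * circleMap 0 x t + circleMap 0 x t ^ 2).re =
      1 - 48 / 25 * (x * Real.cos t) + ((x * Real.cos t) ^ 2 - (x * Real.sin t) ^ 2) := by
    rw [pow_two (circleMap 0 x t)]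
    simp only [Complex.add_re, Complex.sub_re, Complex.one_re, Complex.mul_re,
      Complex.ofReal_re, Complex.ofReal_im, cm_re, cm_im]
    ring
  have e2 : (1 - ((48 / 25 : ℝ) : ℂ) * circleMap 0 x t + circleMap 0 x t ^ 2).im =
      - (48 / 25 * (x * Real.sin t)) + 2 * (x * Real.cos t) * (x * Real.sin t) := by
    rw [pow_two (circleMap 0 x t)]
    simp only [Complex.add_im, Complex.sub_im, Complex.one_im, Complex.mul_im,
      Complex.ofReal_re, Complex.ofReal_im, cm_re, cm_im]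
    ring
  rw [e1, e2]
  have hs : Real.sin t ^ 2 = 1 - Real.cos t ^ 2 := by
    have := Real.sin_sq_add_cos_sq t
    linarith
  have hs4 : Real.sin t ^ 4 = (1 - Real.cos t ^ 2) ^ 2 := by
    rw [← hs]; ring
  ring_nf
  rw [hs4, hs]
  ring

/-- `sq z = (1 - 48/25 z + z^2)/(1-z)^2` -/
theorem sq_eq {z : ℂ} (hz : z ∈ ball (0 : ℂ) 1) :
    sq z = (1 - 48 / 25 * z + z ^ 2) / (1 - z) ^ 2 := by
  have h := one_sub_ne hz
  rw [sq, sg]
  field_simp
  ring

theorem sq_re {x : ℝ} (h0 : 0 < x) (h1 : x < 1) (t : ℝ) :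
    (sq (circleMap 0 x t)).re = Bq x (Real.cos t) := by
  have hz := cm_mem h0 h1 t
  have h := one_sub_ne hz
  have hn2 : 0 < n2 x (Real.cos t) := by
    rw [← norm_sub_sq']
    exact pow_pos (norm_pos_iff.2 h) 2
  have hn2' : Complex.normSq (1 - circleMap 0 x t) = n2 x (Real.cos t) := by
    rw [← norm_sub_sq', Complex.sq_norm]
  have e1 : (sg (circleMap 0 x t)).re = (1 - x ^ 2) / n2 x (Real.cos t) := by
    rw [sg, Complex.div_re, hn2']
    simp only [Complex.add_re, Complex.add_im, Complex.sub_re, Complex.sub_im, Complex.one_re,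
      Complex.one_im, cm_re, cm_im]
    rw [← add_div]
    congr 1
    nlinarith [Real.sin_sq_add_cos_sq t]
  have e2 : (sg (circleMap 0 x t)).im = 2 * x * Real.sin t / n2 x (Real.cos t) := by
    rw [sg, Complex.div_im, hn2']
    simp only [Complex.add_re, Complex.add_im, Complex.sub_re, Complex.sub_im, Complex.one_re,
      Complex.one_im, cm_re, cm_im]
    rw [← sub_div]
    congr 1
    ring
  have e3 : (sq (circleMap 0 x t)).re =
      1 / 50 * ((sg (circleMap 0 x t)).re ^ 2 - (sg (circleMap 0 x t)).im ^ 2) + 49 / 50 := by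
    rw [sq]
    have hc : (1 / 50 : ℂ) = ((1 / 50 : ℝ) : ℂ) := by push_cast; rfl
    have hc' : (49 / 50 : ℂ) = ((49 / 50 : ℝ) : ℂ) := by push_cast; rfl
    rw [hc, hc', pow_two (sg (circleMap 0 x t))]
    simp only [Complex.add_re, Complex.mul_re, Complex.ofReal_re, Complex.ofReal_im]
    ring
  rw [e3, e1, e2, Bq]
  have hs : Real.sin t ^ 2 = 1 - Real.cos t ^ 2 := by
    have := Real.sin_sq_add_cos_sq t
    linarith
  have hn2e : n2 x (Real.cos t) = 1 + x ^ 2 - 2 * x * Real.cos t := rfl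
  have hn1e : n1 x (Real.cos t) = 1 + x ^ 2 + 2 * x * Real.cos t := rfl
  have key : (1 - x ^ 2) ^ 2 + 4 * x ^ 2 * Real.sin t ^ 2 =
      n1 x (Real.cos t) * n2 x (Real.cos t) := by
    rw [hn2e, hn1e, hs]; ring
  have h5 : n1 x (Real.cos t) / n2 x (Real.cos t) =
      ((1 - x ^ 2) ^ 2 + 4 * x ^ 2 * Real.sin t ^ 2) / n2 x (Real.cos t) ^ 2 := by
    rw [key]
    field_simp
  rw [h5]
  field_simp
  ring

private theorem norm_sq_sq {x : ℝ} (h0 : 0 < x) (h1 : x < 1) (t : ℝ) :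
    ‖sq (circleMap 0 x t)‖ ^ 2 * n2 x (Real.cos t) ^ 2 = Pq x (Real.cos t) := by
  have hz := cm_mem h0 h1 t
  have h := one_sub_ne hz
  have hp : 0 < ‖1 - circleMap 0 x t‖ := norm_pos_iff.2 h
  rw [sq_eq hz, norm_div, norm_pow, ← norm_sub_sq', div_pow, norm_P]
  have : (‖1 - circleMap 0 x t‖ ^ 2) ^ 2 ≠ 0 := by positivity
  rw [div_mul_cancel₀ _ this]

private theorem n2_pos {x : ℝ} (h0 : 0 < x) (h1 : x < 1) (t : ℝ) : 0 < n2 x (Real.cos t) := by
  rw [← norm_sub_sq']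
  exact pow_pos (norm_pos_iff.2 (one_sub_ne (cm_mem h0 h1 t))) 2

private theorem norm_sq_pos {z : ℂ} (hz : z ∈ ball (0 : ℂ) 1) : 0 < ‖sq z‖ :=
  norm_pos_iff.2 (Complex.slitPlane_ne_zero (sq_slit hz))

/-- `‖lgd PL z‖^2 ‖1 - 48/25 z + z^2‖ = ‖1 + z‖^2` -/
theorem norm_lgd {x : ℝ} (h0 : 0 < x) (h1 : x < 1) (t : ℝ) :
    ‖lgd PL (circleMap 0 x t)‖ ^ 4 * Pq x (Real.cos t) = n1 x (Real.cos t) ^ 2 := by
  have hz := cm_mem h0 h1 t
  have h := one_sub_ne hz
  have hn2 := n2_pos h0 h1 t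
  have hA := norm_sq_pos hz
  have hsi : ‖si (circleMap 0 x t)‖ ^ 2 = ‖sq (circleMap 0 x t)‖ := by
    rw [← norm_pow, si_sq hz]
  rw [lgd_PL hz, norm_div, div_pow]
  have e4 : ‖si (circleMap 0 x t)‖ ^ 4 = ‖sq (circleMap 0 x t)‖ ^ 2 := by
    rw [← hsi]; ring
  have e5 : ‖sg (circleMap 0 x t)‖ ^ 4 = n1 x (Real.cos t) ^ 2 / n2 x (Real.cos t) ^ 2 := by
    rw [← norm_add_sq, ← norm_sub_sq', sg, norm_div, div_pow]
    ring
  rw [e4, e5, ← norm_sq_sq h0 h1 t]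
  field_simp

theorem Pq_pos {x : ℝ} (h0 : 0 < x) (h1 : x < 1) (t : ℝ) : 0 < Pq x (Real.cos t) := by
  rw [← norm_sq_sq h0 h1 t]
  have := norm_sq_pos (cm_mem h0 h1 t)
  have := n2_pos h0 h1 t
  positivity

/-- `‖pk‖^2 = (A + 1 - 2 R)/(A + 1 + 2 R)`, `A = ‖sq z‖ = ‖si z‖^2`, `R = (si z).re > 0`, `2 R^2 = A + (sq z).re`. -/
theorem norm_pk {z : ℂ} (hz : z ∈ ball (0 : ℂ) 1) :
    ‖fn PL z‖ ^ 2 * (‖sq z‖ + 1 + 2 * (si z).re) = ‖sq z‖ + 1 - 2 * (si z).re ∧
      2 * (si z).re ^ 2 = ‖sq z‖ + (sq z).re := by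
  have hR := si_re hz
  have hA : ‖sq z‖ = (si z).re ^ 2 + (si z).im ^ 2 := by
    rw [← si_sq hz, norm_pow, Complex.sq_norm, Complex.normSq_apply]
    ring
  constructor
  · rw [fn_PL hz, pk, norm_div, div_pow, Complex.sq_norm, Complex.sq_norm, Complex.normSq_apply,
      Complex.normSq_apply]
    simp only [Complex.add_re, Complex.add_im, Complex.sub_re, Complex.sub_im, Complex.one_re,
      Complex.one_im]
    rw [hA]
    have : ((si z).re + 1) * ((si z).re + 1) + ((si z).im + 0) * ((si z).im + 0) ≠ 0 := by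
      have : 0 < ((si z).re + 1) * ((si z).re + 1) := by positivity
      nlinarith [mul_self_nonneg ((si z).im + 0)]
    rw [div_mul_eq_mul_div, div_eq_iff this]
    ring
  · rw [hA]
    have : (sq z).re = (si z).re ^ 2 - (si z).im ^ 2 := by
      rw [← si_sq hz, pow_two, Complex.mul_re]
      ring
    rw [this]
    ring

/-- the test for a lower bound `F` of `‖fn PL z‖` -/
theorem test_F {x : ℝ} (h0 : 0 < x) (h1 : x < 1) (t : ℝ) {F a b : ℝ} (hF0 : 0 ≤ F) (hF1 : F ≤ 1)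
    (ha0 : 0 ≤ a) (hb0 : 0 ≤ b) (ha : a ^ 2 * n2 x (Real.cos t) ^ 2 ≤ Pq x (Real.cos t))
    (hb : Pq x (Real.cos t) ≤ b ^ 2 * n2 x (Real.cos t) ^ 2)
    (hT : (b + Bq x (Real.cos t)) / 2 ≤ ((a + 1) * (1 - F ^ 2) / (2 * (1 + F ^ 2))) ^ 2) :
    F ≤ ‖fn PL (circleMap 0 x t)‖ := by
  have hz := cm_mem h0 h1 t
  have hn2 := n2_pos h0 h1 t
  have hA := norm_sq_pos hz
  have hR := si_re hz
  obtain ⟨k1, k2⟩ := norm_pk hz
  rw [sq_re h0 h1 t] at k2
  have hP := norm_sq_sq h0 h1 t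
  set A := ‖sq (circleMap 0 x t)‖ with hAdef
  set R := (si (circleMap 0 x t)).re with hRdef
  have hn22 : 0 < n2 x (Real.cos t) ^ 2 := by positivity
  have haA : a ≤ A := by
    rw [← hP] at ha
    have := le_of_mul_le_mul_right ha hn22
    exact sqle' this hA.le
  have hAb : A ≤ b := by
    rw [← hP] at hb
    have := le_of_mul_le_mul_right hb hn22
    exact sqle' this hb0
  have hF2 : F ^ 2 ≤ 1 := by nlinarith
  have hD : 0 ≤ (a + 1) * (1 - F ^ 2) / (2 * (1 + F ^ 2)) := by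
    apply div_nonneg
    · exact mul_nonneg (by linarith) (by linarith)
    · positivity
  have hR2 : R ^ 2 ≤ ((a + 1) * (1 - F ^ 2) / (2 * (1 + F ^ 2))) ^ 2 := by
    refine le_trans ?_ hT
    linarith
  have hR3 : R ≤ (a + 1) * (1 - F ^ 2) / (2 * (1 + F ^ 2)) := sqle' hR2 hD
  rw [le_div_iff₀ (by positivity)] at hR3
  have hR4 : R * (2 * (1 + F ^ 2)) ≤ (A + 1) * (1 - F ^ 2) := by
    refine hR3.trans ?_
    exact mul_le_mul_of_nonneg_right (by linarith) (by linarith)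
  have h5 : F ^ 2 * (A + 1 + 2 * R) ≤ ‖fn PL (circleMap 0 x t)‖ ^ 2 * (A + 1 + 2 * R) := by
    rw [k1]
    nlinarith
  have h6 := le_of_mul_le_mul_right h5 (by linarith)
  exact sqle' h6 (norm_nonneg _)

/-- the test for a lower bound `E` of `‖lgd PL z‖` -/
theorem test_E {x : ℝ} (h0 : 0 < x) (h1 : x < 1) (t : ℝ) {E : ℝ} (hE0 : 0 ≤ E)
    (hE : E ^ 4 * Pq x (Real.cos t) ≤ n1 x (Real.cos t) ^ 2) :
    E ≤ ‖lgd PL (circleMap 0 x t)‖ := by
  rw [← norm_lgd h0 h1 t] at hE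
  have h := le_of_mul_le_mul_right hE (Pq_pos h0 h1 t)
  exact le_of_pow_le_pow_left₀ (by norm_num) (norm_nonneg _) h

/-- symmetry -/
theorem norm_even {x : ℝ} (h0 : 0 < x) (h1 : x < 1) {t u : ℝ} (h : Real.cos t = Real.cos u) :
    ‖fn PL (circleMap 0 x t)‖ = ‖fn PL (circleMap 0 x u)‖ ∧
      ‖lgd PL (circleMap 0 x t)‖ = ‖lgd PL (circleMap 0 x u)‖ := by
  have hA : ‖sq (circleMap 0 x t)‖ = ‖sq (circleMap 0 x u)‖ := by
    have e1 := norm_sq_sq h0 h1 t
    have e2 := norm_sq_sq h0 h1 u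
    rw [h, ← e2] at e1
    have hn2 := n2_pos h0 h1 u
    have e3 := mul_right_cancel₀ (by positivity) e1
    exact (pow_left_inj₀ (norm_nonneg _) (norm_nonneg _) (by norm_num)).1 e3
  have hzt := cm_mem h0 h1 t
  have hzu := cm_mem h0 h1 u
  obtain ⟨t1, t2⟩ := norm_pk hzt
  obtain ⟨u1, u2⟩ := norm_pk hzu
  have hRt := si_re hzt
  have hRu := si_re hzu
  rw [sq_re h0 h1] at t2 u2
  have hR : (si (circleMap 0 x t)).re = (si (circleMap 0 x u)).re := by
    rw [hA, h, ← u2] at t2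
    have e3 : (si (circleMap 0 x t)).re ^ 2 = (si (circleMap 0 x u)).re ^ 2 := by linarith
    exact (pow_left_inj₀ hRt.le hRu.le (by norm_num)).1 e3
  constructor
  · rw [hA, hR, ← u1] at t1
    have hpos : 0 < ‖sq (circleMap 0 x u)‖ + 1 + 2 * (si (circleMap 0 x u)).re := by
      have := norm_nonneg (sq (circleMap 0 x u))
      linarith
    have e3 := mul_right_cancel₀ hpos.ne' t1
    exact (pow_left_inj₀ (norm_nonneg _) (norm_nonneg _) (by norm_num)).1 e3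
  · have e1 := norm_lgd h0 h1 t
    have e2 := norm_lgd h0 h1 u
    rw [h, ← e2] at e1
    have e3 := mul_right_cancel₀ (Pq_pos h0 h1 u).ne' e1
    exact (pow_left_inj₀ (norm_nonneg _) (norm_nonneg _) (by norm_num)).1 e3

end Pool.Agent.H49.SZ
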