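import Pool.Agent.H49.SZ.PhiA

set_option autoImplicit false

/-!
# [H49 SZ PHIC] The modulus of the Pick function decreases on the upper half circle
-/

namespace Pool.Agent.H49.SZ

open Set Metric Real

/-- `Im (sg / si) ≥ 0` for `Im z ≥ 0`: with `sg = a + i b`, `si = c + i d`: `c d = a b / 50`, `c^2 - d^2 = (a^2 - b^2)/50 + 49/50`,
`a > 0`, `c > 0`, `b ≥ 0`, so `d ≥ 0`; if `b c < a d` then (`k = d / c > l = b / a`) `c^2 < a^2/50` and
`c^2 - d^2 = c^2 - k * (k c^2) = c^2 - k l a^2/50 < a^2/50 - l^2 a^2/50`, a contradiction. -/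
theorem im_lgd {z : ℂ} (hz : z ∈ ball (0 : ℂ) 1) (him : 0 ≤ z.im) : 0 ≤ (lgd PL z).im := by
  rw [lgd_PL hz]
  have ha := sg_re hz
  have hc := si_re hz
  have hsq := si_sq hz
  have hb : 0 ≤ (sg z).im := by
    rw [sg, Complex.div_im]
    simp only [Complex.add_re, Complex.add_im, Complex.sub_re, Complex.sub_im, Complex.one_re,
      Complex.one_im]
    rw [← sub_div]
    apply div_nonneg _ (Complex.normSq_nonneg _)
    nlinarith
  set a := (sg z).re with hadef
  set b := (sg z).im with hbdef
  set c := (si z).re with hcdef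
  set d := (si z).im with hddef
  have h50 : (1 / 50 : ℂ) = ((1 / 50 : ℝ) : ℂ) := by push_cast; rfl
  have h49 : (49 / 50 : ℂ) = ((49 / 50 : ℝ) : ℂ) := by push_cast; rfl
  rw [sq, h50, h49] at hsq
  have h1 : c ^ 2 - d ^ 2 = 1 / 50 * (a ^ 2 - b ^ 2) + 49 / 50 := by
    have := congrArg Complex.re hsq
    rw [pow_two, pow_two] at this
    simp only [Complex.add_re, Complex.mul_re, Complex.ofReal_re, Complex.ofReal_im] at this
    rw [← hadef, ← hbdef, ← hcdef, ← hddef] at this
    linarith
  have h2 : c * d = 1 / 50 * (a * b) := by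
    have := congrArg Complex.im hsq
    rw [pow_two, pow_two] at this
    simp only [Complex.add_im, Complex.mul_im, Complex.ofReal_re, Complex.ofReal_im] at this
    rw [← hadef, ← hbdef, ← hcdef, ← hddef] at this
    linarith
  rw [Complex.div_im, ← sub_div]
  apply div_nonneg _ (Complex.normSq_nonneg _)
  rw [← hadef, ← hbdef, ← hcdef, ← hddef]
  by_contra hneg
  push Not at hneg
  have hlt : b * c < a * d := by linarith
  have h3 : b * c ^ 2 < 1 / 50 * (a ^ 2 * b) := by
    have := mul_lt_mul_of_pos_right hlt hc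
    have e : a * d * c = 1 / 50 * (a ^ 2 * b) := by
      calc a * d * c = a * (c * d) := by ring
        _ = _ := by rw [h2]; ring
    nlinarith
  have hb0 : 0 < b := by
    rcases hb.eq_or_lt with h | h
    · rw [← h] at h3
      simp at h3
    · exact h
  have h4 : c ^ 2 < 1 / 50 * a ^ 2 := by
    have : b * c ^ 2 < b * (1 / 50 * a ^ 2) := by linarith
    exact lt_of_mul_lt_mul_left this hb
  have h5 : 0 < (c ^ 2 - 1 / 50 * a ^ 2) * (c ^ 2 + 1 / 50 * b ^ 2) := by
    have e : (c ^ 2 - 1 / 50 * a ^ 2) * (c ^ 2 + 1 / 50 * b ^ 2) =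
        c ^ 2 * (c ^ 2 - d ^ 2 - 1 / 50 * (a ^ 2 - b ^ 2)) +
          ((c * d) ^ 2 - (1 / 50 * (a * b)) ^ 2) := by ring
    rw [e, h1, h2]
    have : 0 < c ^ 2 := by positivity
    linarith
  have h6 : 0 ≤ c ^ 2 + 1 / 50 * b ^ 2 := by positivity
  nlinarith

/-- the derivative of `t ↦ Re PL (x e^{it})` is `- Im (z PL' z) = - Im (lgd PL z)` -/
theorem anti {x : ℝ} (h0 : 0 < x) (h1 : x < 1) :
    AntitoneOn (fun t : ℝ => ‖fn PL (circleMap 0 x t)‖) (Icc 0 π) := by
  have hmem : ∀ t : ℝ, circleMap 0 x t ∈ ball (0 : ℂ) 1 := by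
    intro t
    rw [mem_ball_zero_iff, norm_circleMap_zero, abs_of_pos h0]
    exact h1
  have hder : ∀ t : ℝ, HasDerivAt (fun t : ℝ => PL (circleMap 0 x t))
      (deriv PL (circleMap 0 x t) * (circleMap 0 x t * Complex.I)) t := by
    intro t
    have hd : HasDerivAt PL (deriv PL (circleMap 0 x t)) (circleMap 0 x t) :=
      (UU_PL.diff.differentiableAt (isOpen_ball.mem_nhds (hmem t))).hasDerivAt
    exact hd.comp t (hasDerivAt_circleMap 0 x t)
  have hre : ∀ t : ℝ, HasDerivAt (fun t : ℝ => (PL (circleMap 0 x t)).re)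
      (deriv PL (circleMap 0 x t) * (circleMap 0 x t * Complex.I)).re t := by
    intro t
    exact Complex.reCLM.hasFDerivAt.comp_hasDerivAt t (hder t)
  have hval : ∀ t : ℝ, (deriv PL (circleMap 0 x t) * (circleMap 0 x t * Complex.I)).re =
      - (lgd PL (circleMap 0 x t)).im := by
    intro t
    have e : deriv PL (circleMap 0 x t) * (circleMap 0 x t * Complex.I) =
        (circleMap 0 x t * deriv PL (circleMap 0 x t)) * Complex.I := by ring
    rw [e, Complex.mul_I_re, lgd]
    simp
  have hanti : AntitoneOn (fun t : ℝ => (PL (circleMap 0 x t)).re) (Icc 0 π) := by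
    apply antitoneOn_of_deriv_nonpos (convex_Icc 0 π)
    · exact fun t _ => (hre t).continuousAt.continuousWithinAt
    · exact fun t _ => (hre t).differentiableAt.differentiableWithinAt
    · intro t ht
      rw [interior_Icc] at ht
      rw [(hre t).deriv, hval t]
      have him : 0 ≤ (circleMap 0 x t).im := by
        have e : (circleMap 0 x t).im = x * Real.sin t := by
          simp [circleMap, Complex.exp_ofReal_mul_I_im]
        rw [e]
        exact mul_nonneg h0.le (Real.sin_nonneg_of_mem_Icc ⟨ht.1.le, ht.2.le⟩)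
      have := im_lgd (hmem t) him
      linarith
  intro s hs t ht hst
  have h2 := hanti hs ht hst
  simp only [norm_fn, norm_circleMap_zero]
  exact mul_le_mul_of_nonneg_left (Real.exp_le_exp.2 h2) (abs_nonneg _)

end Pool.Agent.H49.SZ
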