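import Pool.Agent.H49.SZ.Defs

set_option autoImplicit false

/-!
# [H49 SZ] The Pick function with constant `1/50`

`s = (1+z)/(1-z)`, `sq = s^2/50 + 49/50`, `si = sqrt sq` (principal branch), `pk = (si-1)/(si+1)`.
-/

namespace Pool.Agent.H49.SZ

open Set Metric Real

/-- `(1+z)/(1-z)` -/
noncomputable def sg (z : ℂ) : ℂ := (1 + z) / (1 - z)

/-- `s^2/50 + 49/50` -/
noncomputable def sq (z : ℂ) : ℂ := 1 / 50 * sg z ^ 2 + 49 / 50

/-- its square root -/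
noncomputable def si (z : ℂ) : ℂ := Complex.exp (Complex.log (sq z) / 2)

/-- the Pick function -/
noncomputable def pk (z : ℂ) : ℂ := (si z - 1) / (si z + 1)

/-- the logarithm of `pk z / z` -/
noncomputable def PL (z : ℂ) : ℂ :=
  (Real.log (1 / 50) : ℂ) + 2 * Complex.log (1 - pk z) - 2 * Complex.log (1 - z)

/-- `|1+z|^2` for `z = x e^{i theta}`, `q = cos theta` -/
noncomputable def n1 (x q : ℝ) : ℝ := 1 + x ^ 2 + 2 * x * q

/-- `|1-z|^2` -/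
noncomputable def n2 (x q : ℝ) : ℝ := 1 + x ^ 2 - 2 * x * q

/-- `|1 - 48/25 z + z^2|^2` -/
noncomputable def Pq (x q : ℝ) : ℝ :=
  4 * x ^ 2 * q ^ 2 - 96 / 25 * (x + x ^ 3) * q + 2304 / 625 * x ^ 2 + (1 - x ^ 2) ^ 2

/-- `Re sq` -/
noncomputable def Bq (x q : ℝ) : ℝ :=
  1 / 50 * (2 * (1 - x ^ 2) ^ 2 / n2 x q ^ 2 - n1 x q / n2 x q) + 49 / 50

end Pool.Agent.H49.SZ
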