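import Pool.Agent.H49.SZ.PhiB
import Pool.Agent.H49.SZ.PhiC
import Pool.Agent.H49.SZ.Mono

set_option autoImplicit false

/-!
# [H49 SZ RIEM] Lower Riemann sums for the functional of the Pick function

`run X Y T l acc`: `x = X/2000`, `y = Y/2000`; the list `l` of cells `(U, F, G, E, a, W)`: the cell is
`2 arctan (T/1000) ≤ t ≤ 2 arctan (U/1000)` (`T` is the previous `U`).
-/

namespace Pool.Agent.H49.SZ

open Set Metric Real MeasureTheory

/-- rational versions -/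
def n1Q (x q : ℚ) : ℚ := 1 + x ^ 2 + 2 * x * q
/-- rational versions -/
def n2Q (x q : ℚ) : ℚ := 1 + x ^ 2 - 2 * x * q
/-- rational versions -/
def PQ (x q : ℚ) : ℚ :=
  4 * x ^ 2 * q ^ 2 - 96 / 25 * (x + x ^ 3) * q + 2304 / 625 * x ^ 2 + (1 - x ^ 2) ^ 2
/-- rational versions -/
def BQ (x q : ℚ) : ℚ :=
  1 / 50 * (2 * (1 - x ^ 2) ^ 2 / n2Q x q ^ 2 - n1Q x q / n2Q x q) + 49 / 50
/-- rational versions -/
def qQ (t : ℚ) : ℚ := (1 - t ^ 2) / (1 + t ^ 2)

/-- the test of a cell -/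
def chk (x ta tb F G E a b W : ℚ) : Bool :=
  let qa := qQ ta
  let qb := qQ tb
  let p := PQ x qb
  let n := n2Q x qb
  decide (F ≤ 1) && decide (G ^ 10 ≤ F) && decide (ta < tb) &&
  decide (a ^ 2 * n ^ 2 ≤ p) && decide (p ≤ b ^ 2 * n ^ 2) &&
  decide ((b + BQ x qb) / 2 ≤ ((a + 1) * (1 - F ^ 2) / (2 * (1 + F ^ 2))) ^ 2) &&
  decide (E ^ 4 * PQ x qa ≤ n1Q x qb ^ 2) && decide (E ^ 4 * p ≤ n1Q x qb ^ 2) &&
  decide (W ≤ (tb - ta) / (1 + ta * tb) - ((tb - ta) / (1 + ta * tb)) ^ 3 / 3)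

/-- the test of a list of cells -/
def run (X Y : ℕ) (T : ℕ) (l : List (ℕ × ℕ × ℕ × ℕ × ℕ × ℕ)) (acc : ℕ) : Bool :=
  match l with
  | [] => decide (195 / 100 * (88 / 100 * ((Y : ℚ) / 2000) ^ 2 + 12 / 100 * ((Y : ℚ) / 2000) ^ 20) *
      (5 * 10 ^ 17 * (3141593 / 1000000)) ≤ (acc : ℚ))
  | (U, F, G, E, a, W) :: l => chk (X / 2000) (T / 1000) (U / 1000) (F / 100000) (G / 100000)
      (E / 10000) (a / 100000000) ((a + 1) / 100000000) (W / 10000000) &&
      run X Y U l (acc + W * (88 * G + 12 * F) * E)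

theorem arctan_ge {w : ℝ} (hw : 0 ≤ w) : w - w ^ 3 / 3 ≤ Real.arctan w := by
  have hd : ∀ x : ℝ, HasDerivAt (fun x : ℝ => Real.arctan x - (x - x ^ 3 / 3))
      (1 / (1 + x ^ 2) - (1 - x ^ 2)) x := by
    intro x
    have h1 := (hasDerivAt_pow 3 x).div_const 3
    have h2 := (Real.hasDerivAt_arctan x).sub ((hasDerivAt_id x).sub h1)
    refine h2.congr_deriv ?_
    simp
  have hm : MonotoneOn (fun x : ℝ => Real.arctan x - (x - x ^ 3 / 3)) (Ici 0) := by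
    apply monotoneOn_of_deriv_nonneg (convex_Ici 0)
    · exact fun x _ => (hd x).continuousAt.continuousWithinAt
    · exact fun x _ => (hd x).differentiableAt.differentiableWithinAt
    · intro x _
      rw [(hd x).deriv]
      have h1 : 1 / (1 + x ^ 2) - (1 - x ^ 2) = x ^ 4 / (1 + x ^ 2) := by
        field_simp
        ring
      rw [h1]
      positivity
  have := hm (mem_Ici.2 le_rfl) (mem_Ici.2 hw) hw
  simp only [Real.arctan_zero] at this
  linarith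

theorem arctan_diff {a b : ℝ} (ha : 0 ≤ a) (hab : a < b) :
    (b - a) / (1 + a * b) - ((b - a) / (1 + a * b)) ^ 3 / 3 ≤ Real.arctan b - Real.arctan a := by
  have hb : 0 < b := by linarith
  have h1 : b * -a < 1 := by nlinarith
  have h2 := Real.arctan_add h1
  rw [Real.arctan_neg] at h2
  have h3 : (b + -a) / (1 - b * -a) = (b - a) / (1 + a * b) := by
    congr 1
    ring
  rw [h3] at h2
  have h4 : 0 ≤ (b - a) / (1 + a * b) := by
    apply div_nonneg (by linarith)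
    nlinarith
  have h5 := arctan_ge h4
  linarith

theorem cos_two_arctan (t : ℝ) : Real.cos (2 * Real.arctan t) = (1 - t ^ 2) / (1 + t ^ 2) := by
  rw [Real.cos_two_mul, Real.cos_sq_arctan]
  field_simp
  ring

/-- the integrand -/
noncomputable def ff (x t : ℝ) : ℝ :=
  NN ‖fn PL (circleMap 0 x t)‖ * ‖lgd PL (circleMap 0 x t)‖

theorem NN_nonneg {s : ℝ} (hs : 0 ≤ s) : 0 ≤ NN s := by
  unfold NN
  positivity

theorem ff_nonneg (x t : ℝ) : 0 ≤ ff x t := mul_nonneg (NN_nonneg (norm_nonneg _)) (norm_nonneg _)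

theorem continuous_NN' : Continuous NN := by
  unfold NN
  exact (continuous_const.mul (Real.continuous_rpow_const (by norm_num))).add
    (continuous_const.mul continuous_id)

theorem ff_cont {x : ℝ} (h0 : 0 < x) (h1 : x < 1) : Continuous (ff x) := by
  unfold ff
  have e1 := (cont_circle UU_PL.continuousOn_fn h0.le h1).norm
  have e2 := (cont_circle UU_PL.continuousOn_lgd h0.le h1).norm
  exact (continuous_NN'.comp e1).mul e2

theorem NN_mono {s t : ℝ} (hs : 0 ≤ s) (h : s ≤ t) : NN s ≤ NN t := by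
  unfold NN
  have := Real.rpow_le_rpow hs h (by norm_num : (0 : ℝ) ≤ 0.1)
  linarith

theorem cell {x : ℝ} (h0 : 0 < x) (h1 : x < 1) {ta tb F G E a b : ℝ} (hta : 0 ≤ ta) (htab : ta < tb)
    (hF0 : 0 ≤ F) (hG0 : 0 ≤ G) (hE0 : 0 ≤ E) (ha0 : 0 ≤ a) (hb0 : 0 ≤ b) (hF1 : F ≤ 1)
    (hG : G ^ 10 ≤ F)
    (ha : a ^ 2 * n2 x ((1 - tb ^ 2) / (1 + tb ^ 2)) ^ 2 ≤ Pq x ((1 - tb ^ 2) / (1 + tb ^ 2)))
    (hb : Pq x ((1 - tb ^ 2) / (1 + tb ^ 2)) ≤ b ^ 2 * n2 x ((1 - tb ^ 2) / (1 + tb ^ 2)) ^ 2)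
    (hT : (b + Bq x ((1 - tb ^ 2) / (1 + tb ^ 2))) / 2 ≤
      ((a + 1) * (1 - F ^ 2) / (2 * (1 + F ^ 2))) ^ 2)
    (hEa : E ^ 4 * Pq x ((1 - ta ^ 2) / (1 + ta ^ 2)) ≤ n1 x ((1 - tb ^ 2) / (1 + tb ^ 2)) ^ 2)
    (hEb : E ^ 4 * Pq x ((1 - tb ^ 2) / (1 + tb ^ 2)) ≤ n1 x ((1 - tb ^ 2) / (1 + tb ^ 2)) ^ 2)
    {t : ℝ} (ht1 : 2 * Real.arctan ta ≤ t) (ht2 : t ≤ 2 * Real.arctan tb) :
    (0.88 * G + 0.12 * F) * E ≤ ff x t := by
  have hpa : 0 ≤ Real.arctan ta := Real.arctan_nonneg.2 hta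
  have hpb : Real.arctan tb < π / 2 := Real.arctan_lt_pi_div_two tb
  have hqa := cos_two_arctan ta
  have hqb := cos_two_arctan tb
  have htb : 0 < tb := by linarith
  have htm : t ∈ Icc 0 π := ⟨by linarith, by linarith⟩
  have htbm : 2 * Real.arctan tb ∈ Icc 0 π :=
    ⟨by have := Real.arctan_nonneg.2 htb.le
        linarith, by linarith⟩
  have htam : 2 * Real.arctan ta ∈ Icc 0 π :=
    ⟨by linarith, by linarith [htm.2]⟩
  have hF : F ≤ ‖fn PL (circleMap 0 x t)‖ := by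
    rw [← hqb] at ha hb hT
    have e1 := test_F h0 h1 _ hF0 hF1 ha0 hb0 ha hb hT
    exact e1.trans (anti h0 h1 htm htbm ht2)
  have hGF : G ≤ F ^ (0.1 : ℝ) := by
    have e1 : (G ^ 10) ^ (0.1 : ℝ) = G := by
      rw [← Real.rpow_natCast, ← Real.rpow_mul hG0]
      norm_num
    rw [← e1]
    exact Real.rpow_le_rpow (by positivity) hG (by norm_num)
  have hE : E ≤ ‖lgd PL (circleMap 0 x t)‖ := by
    apply test_E h0 h1 t hE0
    have c1 : Real.cos t ≤ Real.cos (2 * Real.arctan ta) :=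
      Real.strictAntiOn_cos.antitoneOn htam htm ht1
    have c2 : Real.cos (2 * Real.arctan tb) ≤ Real.cos t :=
      Real.strictAntiOn_cos.antitoneOn htm htbm ht2
    rw [hqa] at c1
    rw [hqb] at c2
    obtain ⟨qa, hqa'⟩ : ∃ qa : ℝ, qa = (1 - ta ^ 2) / (1 + ta ^ 2) := ⟨_, rfl⟩
    obtain ⟨qb, hqb'⟩ : ∃ qb : ℝ, qb = (1 - tb ^ 2) / (1 + tb ^ 2) := ⟨_, rfl⟩
    obtain ⟨q, hq⟩ : ∃ q : ℝ, q = Real.cos t := ⟨_, rfl⟩
    have hqb1 : -1 ≤ qb := by rw [hqb', ← hqb]; exact Real.neg_one_le_cos _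
    rw [← hqa', ← hqb'] at hEa
    rw [← hqb'] at hEb
    rw [← hqa', ← hq] at c1
    rw [← hqb', ← hq] at c2
    rw [← hq]
    have d1 : n1 x qb ^ 2 ≤ n1 x q ^ 2 := by
      unfold n1
      apply pow_le_pow_left₀
      · nlinarith [sq_nonneg (1 - x)]
      · nlinarith
    refine le_trans ?_ d1
    rcases (c2.trans c1).eq_or_lt with he | hlt
    · have : q = qb := le_antisymm (c1.trans he.ge) c2
      rw [this]
      exact hEb
    · have hpos : 0 < qa - qb := by linarith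
      have hconv : Pq x q * (qa - qb) ≤ Pq x qa * (q - qb) + Pq x qb * (qa - q) := by
        have e1 : Pq x qa * (q - qb) + Pq x qb * (qa - q) - Pq x q * (qa - qb) =
            4 * x ^ 2 * ((q - qb) * (qa - q) * (qa - qb)) := by
          unfold Pq
          ring
        have e2 : 0 ≤ 4 * x ^ 2 * ((q - qb) * (qa - q) * (qa - qb)) := by
          have f1 : 0 ≤ q - qb := by linarith
          have f2 : 0 ≤ qa - q := by linarith
          positivity
        linarith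
      have hE4 : 0 ≤ E ^ 4 := by positivity
      have g1 : E ^ 4 * Pq x q * (qa - qb) ≤ n1 x qb ^ 2 * (qa - qb) := by
        calc E ^ 4 * Pq x q * (qa - qb) = E ^ 4 * (Pq x q * (qa - qb)) := by ring
          _ ≤ E ^ 4 * (Pq x qa * (q - qb) + Pq x qb * (qa - q)) :=
              mul_le_mul_of_nonneg_left hconv hE4
          _ = E ^ 4 * Pq x qa * (q - qb) + E ^ 4 * Pq x qb * (qa - q) := by ring
          _ ≤ n1 x qb ^ 2 * (q - qb) + n1 x qb ^ 2 * (qa - q) :=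
              add_le_add (mul_le_mul_of_nonneg_right hEa (by linarith))
                (mul_le_mul_of_nonneg_right hEb (by linarith))
          _ = n1 x qb ^ 2 * (qa - qb) := by ring
      exact le_of_mul_le_mul_right g1 hpos
  unfold ff
  apply mul_le_mul _ hE hE0 (NN_nonneg (norm_nonneg _))
  refine le_trans ?_ (NN_mono hF0 hF)
  unfold NN
  linarith

theorem cast_n1 (x q : ℚ) : ((n1Q x q : ℚ) : ℝ) = n1 x q := by
  unfold n1Q n1
  push_cast
  ring

theorem cast_n2 (x q : ℚ) : ((n2Q x q : ℚ) : ℝ) = n2 x q := by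
  unfold n2Q n2
  push_cast
  ring

theorem cast_P (x q : ℚ) : ((PQ x q : ℚ) : ℝ) = Pq x q := by
  unfold PQ Pq
  push_cast
  ring

theorem cast_B (x q : ℚ) : ((BQ x q : ℚ) : ℝ) = Bq x q := by
  unfold BQ Bq
  push_cast
  rw [cast_n1, cast_n2]

theorem cast_q (t : ℚ) : ((qQ t : ℚ) : ℝ) = (1 - (t : ℝ) ^ 2) / (1 + (t : ℝ) ^ 2) := by
  unfold qQ
  push_cast
  ring

theorem chk_sound {x ta tb F G E a b W : ℚ} (hx0 : 0 < x) (hx1 : x < 1) (hta : 0 ≤ ta)
    (hF0 : 0 ≤ F) (hG0 : 0 ≤ G) (hE0 : 0 ≤ E) (ha0 : 0 ≤ a) (hb0 : 0 ≤ b)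
    (h : chk x ta tb F G E a b W = true) :
    ta < tb ∧ (W : ℝ) ≤ Real.arctan tb - Real.arctan ta ∧
      ∀ t : ℝ, 2 * Real.arctan ta ≤ t → t ≤ 2 * Real.arctan tb →
        (0.88 * (G : ℝ) + 0.12 * F) * E ≤ ff x t := by
  unfold chk at h
  simp only [Bool.and_eq_true, decide_eq_true_eq] at h
  obtain ⟨⟨⟨⟨⟨⟨⟨⟨c1, c2⟩, c3⟩, c4⟩, c5⟩, c6⟩, c7⟩, c8⟩, c9⟩ := h
  refine ⟨c3, ?_, ?_⟩
  · have e1 : (W : ℝ) ≤ ((tb : ℝ) - ta) / (1 + ta * tb) -
        (((tb : ℝ) - ta) / (1 + ta * tb)) ^ 3 / 3 := by exact_mod_cast c9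
    exact e1.trans (arctan_diff (by exact_mod_cast hta) (by exact_mod_cast c3))
  · intro t ht1 ht2
    have d4 : (a : ℝ) ^ 2 * n2 x (qQ tb) ^ 2 ≤ Pq x (qQ tb) := by
      rw [← cast_n2, ← cast_P]
      exact_mod_cast c4
    have d5 : Pq x (qQ tb) ≤ (b : ℝ) ^ 2 * n2 x (qQ tb) ^ 2 := by
      rw [← cast_n2, ← cast_P]
      exact_mod_cast c5
    have d6 : ((b : ℝ) + Bq x (qQ tb)) / 2 ≤
        (((a : ℝ) + 1) * (1 - (F : ℝ) ^ 2) / (2 * (1 + (F : ℝ) ^ 2))) ^ 2 := by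
      rw [← cast_B]
      exact_mod_cast c6
    have d7 : (E : ℝ) ^ 4 * Pq x (qQ ta) ≤ n1 x (qQ tb) ^ 2 := by
      rw [← cast_n1, ← cast_P]
      exact_mod_cast c7
    have d8 : (E : ℝ) ^ 4 * Pq x (qQ tb) ≤ n1 x (qQ tb) ^ 2 := by
      rw [← cast_n1, ← cast_P]
      exact_mod_cast c8
    rw [cast_q] at d4 d5 d6 d7 d8
    rw [cast_q] at d7
    exact cell (by exact_mod_cast hx0) (by exact_mod_cast hx1) (by exact_mod_cast hta)
      (by exact_mod_cast c3) (by exact_mod_cast hF0) (by exact_mod_cast hG0)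
      (by exact_mod_cast hE0) (by exact_mod_cast ha0) (by exact_mod_cast hb0)
      (by exact_mod_cast c1) (by exact_mod_cast c2) d4 d5 d6 d7 d8 ht1 ht2

theorem run_sound {X Y : ℕ} (hX0 : 0 < X) (hX1 : X < 2000)
    (l : List (ℕ × ℕ × ℕ × ℕ × ℕ × ℕ)) : ∀ (T acc : ℕ), run X Y T l acc = true →
      1.95 * (0.88 * ((Y : ℝ) / 2000) ^ 2 + 0.12 * ((Y : ℝ) / 2000) ^ 20) *
        (5 * 10 ^ 17 * 3.141593) ≤
        (acc : ℝ) + 5 * 10 ^ 17 *
          ∫ t in (2 * Real.arctan ((T : ℝ) / 1000))..π, ff ((X : ℝ) / 2000) t := by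
  have hXr0 : (0 : ℝ) < (X : ℝ) / 2000 := by
    have : (0 : ℝ) < X := by exact_mod_cast hX0
    positivity
  have hXr1 : (X : ℝ) / 2000 < 1 := by
    have : (X : ℝ) < 2000 := by exact_mod_cast hX1
    rw [div_lt_one (by norm_num)]
    exact this
  have hint : ∀ a b : ℝ, IntervalIntegrable (ff ((X : ℝ) / 2000)) volume a b :=
    fun a b => (ff_cont hXr0 hXr1).intervalIntegrable a b
  induction l with
  | nil =>
    intro T acc h
    simp only [run, decide_eq_true_eq] at h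
    have e1 : (195 / 100 * (88 / 100 * ((Y : ℝ) / 2000) ^ 2 + 12 / 100 * ((Y : ℝ) / 2000) ^ 20) *
      (5 * 10 ^ 17 * (3141593 / 1000000)) ≤ (acc : ℝ)) := by
      have e0 := (Rat.cast_le (K := ℝ)).2 h
      push_cast at e0
      exact e0
    have e2 : 0 ≤ ∫ t in (2 * Real.arctan ((T : ℝ) / 1000))..π, ff ((X : ℝ) / 2000) t := by
      apply intervalIntegral.integral_nonneg
      · have := Real.arctan_lt_pi_div_two ((T : ℝ) / 1000)
        linarith
      · intro t _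
        exact ff_nonneg _ _
    norm_num at e1 ⊢
    linarith
  | cons c l ih =>
    obtain ⟨U, F, G, E, a, W⟩ := c
    intro T acc h
    simp only [run, Bool.and_eq_true] at h
    obtain ⟨h1, h2⟩ := h
    have h3 := ih U _ h2
    have hXq0 : (0 : ℚ) < (X : ℚ) / 2000 := by
      have : (0 : ℚ) < X := by exact_mod_cast hX0
      positivity
    have hXq1 : (X : ℚ) / 2000 < 1 := by
      have : (X : ℚ) < 2000 := by exact_mod_cast hX1
      rw [div_lt_one (by norm_num)]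
      exact this
    obtain ⟨g1, g2, g3⟩ := chk_sound hXq0 hXq1 (by positivity) (by positivity) (by positivity)
      (by positivity) (by positivity) (by positivity) h1
    push_cast at g2 g3 h3
    have g1' : (T : ℝ) / 1000 < (U : ℝ) / 1000 := by
      have e0 := (Rat.cast_lt (K := ℝ)).2 g1
      push_cast at e0
      exact e0
    have hle : 2 * Real.arctan ((T : ℝ) / 1000) ≤ 2 * Real.arctan ((U : ℝ) / 1000) := by
      have := Real.arctan_mono g1'.le
      linarith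
    have g4 : (0.88 * ((G : ℝ) / 100000) + 0.12 * ((F : ℝ) / 100000)) * ((E : ℝ) / 10000) *
        (2 * Real.arctan ((U : ℝ) / 1000) - 2 * Real.arctan ((T : ℝ) / 1000)) ≤
        ∫ t in (2 * Real.arctan ((T : ℝ) / 1000))..(2 * Real.arctan ((U : ℝ) / 1000)),
          ff ((X : ℝ) / 2000) t := by
      have e1 := intervalIntegral.integral_mono_on hle
        (intervalIntegrable_const (c := (0.88 * ((G : ℝ) / 100000) + 0.12 * ((F : ℝ) / 100000)) *
          ((E : ℝ) / 10000))) (hint _ _) (fun t ht => g3 t ht.1 ht.2)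
      rw [intervalIntegral.integral_const, smul_eq_mul] at e1
      linarith
    have g5 := intervalIntegral.integral_add_adjacent_intervals
      (hint (2 * Real.arctan ((T : ℝ) / 1000)) (2 * Real.arctan ((U : ℝ) / 1000)))
      (hint (2 * Real.arctan ((U : ℝ) / 1000)) π)
    have g6 : ((W : ℝ) * (88 * G + 12 * F) * E) ≤ 5 * 10 ^ 17 *
        ((0.88 * ((G : ℝ) / 100000) + 0.12 * ((F : ℝ) / 100000)) * ((E : ℝ) / 10000) *
        (2 * Real.arctan ((U : ℝ) / 1000) - 2 * Real.arctan ((T : ℝ) / 1000))) := by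
      have e1 : 0 ≤ (88 * (G : ℝ) + 12 * F) * E := by positivity
      have e2 := mul_le_mul_of_nonneg_left g2 e1
      have e3 : 5 * 10 ^ 17 *
        ((0.88 * ((G : ℝ) / 100000) + 0.12 * ((F : ℝ) / 100000)) * ((E : ℝ) / 10000) *
        (2 * Real.arctan ((U : ℝ) / 1000) - 2 * Real.arctan ((T : ℝ) / 1000))) =
        10 ^ 7 * ((88 * (G : ℝ) + 12 * F) * E *
          (Real.arctan ((U : ℝ) / 1000) - Real.arctan ((T : ℝ) / 1000))) := by
        ring
      rw [e3]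
      linarith
    rw [← g5]
    linarith

theorem EN_eq {x : ℝ} (h0 : 0 < x) (h1 : x < 1) :
    EN NN PL x = π⁻¹ * ∫ t in (0 : ℝ)..π, ff x t := by
  have hint : ∀ a b : ℝ, IntervalIntegrable (ff x) volume a b :=
    fun a b => (ff_cont h0 h1).intervalIntegrable a b
  have e1 : ∫ t in π..(2 * π), ff x t = ∫ t in (0 : ℝ)..π, ff x t := by
    have f1 := intervalIntegral.integral_comp_sub_left (a := 0) (b := π) (ff x) (2 * π)
    have f2 : (2 * π - π) = π := by ring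
    rw [f2, sub_zero] at f1
    rw [← f1]
    apply intervalIntegral.integral_congr
    intro t _
    have f3 := norm_even h0 h1 (t := 2 * π - t) (u := t) (by rw [Real.cos_two_pi_sub])
    simp only [ff, f3.1, f3.2]
  have e2 := intervalIntegral.integral_add_adjacent_intervals (hint 0 π) (hint π (2 * π))
  rw [e1] at e2
  have e3 : EN NN PL x = (2 * π)⁻¹ * ∫ t in (0 : ℝ)..(2 * π), ff x t := by
    rw [EN, circleAverage, smul_eq_mul]
    rfl
  rw [e3, ← e2]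
  have : π ≠ 0 := Real.pi_ne_zero
  field_simp
  ring

theorem level {X Y : ℕ} (hX0 : 0 < X) (hX1 : X < 2000)
    (l : List (ℕ × ℕ × ℕ × ℕ × ℕ × ℕ)) (h : run X Y 0 l 0 = true) {x : ℝ}
    (hx : (X : ℝ) / 2000 ≤ x) (hx' : x ≤ (Y : ℝ) / 2000) (hx1 : x < 1) :
    1.95 * NN (x ^ 20) ≤ EN NN PL x := by
  have hXr0 : (0 : ℝ) < (X : ℝ) / 2000 := by
    have : (0 : ℝ) < X := by exact_mod_cast hX0
    positivity
  have hXr1 : (X : ℝ) / 2000 < 1 := by
    have : (X : ℝ) < 2000 := by exact_mod_cast hX1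
    rw [div_lt_one (by norm_num)]
    exact this
  have hx0 : 0 < x := by linarith
  have h1 := run_sound hX0 hX1 l 0 0 h
  have e0 : 2 * Real.arctan (((0 : ℕ) : ℝ) / 1000) = 0 := by simp
  rw [e0] at h1
  have h2 := EN_eq hXr0 hXr1
  have h3 := EN_mono hXr0.le hx hx1
  have hpi : (0 : ℝ) < π := Real.pi_pos
  obtain ⟨I, hI⟩ : ∃ I : ℝ, I = ∫ t in (0 : ℝ)..π, ff ((X : ℝ) / 2000) t := ⟨_, rfl⟩
  rw [← hI] at h1 h2
  obtain ⟨B, hB⟩ : ∃ B : ℝ, B = 1.95 * (0.88 * ((Y : ℝ) / 2000) ^ 2 +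
    0.12 * ((Y : ℝ) / 2000) ^ 20) := ⟨_, rfl⟩
  rw [← hB] at h1
  have hB0 : 0 ≤ B := by rw [hB]; positivity
  have h4 : B * π ≤ I := by
    have f1 : B * π ≤ B * 3.141593 := mul_le_mul_of_nonneg_left Real.pi_lt_d6.le hB0
    have f2 : B * (5 * 10 ^ 17 * 3.141593) = 5 * 10 ^ 17 * (B * 3.141593) := by ring
    rw [f2] at h1
    push_cast at h1
    linarith
  have h5 : B ≤ EN NN PL ((X : ℝ) / 2000) := by
    rw [h2, inv_mul_eq_div, le_div_iff₀ hpi]
    exact h4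
  have h6 : 1.95 * NN (x ^ 20) ≤ B := by
    have g1 : (x ^ 20) ^ (0.1 : ℝ) = x ^ 2 := by
      rw [← Real.rpow_natCast, ← Real.rpow_mul hx0.le, ← Real.rpow_natCast]
      norm_num
    have g2 : x ^ 2 ≤ ((Y : ℝ) / 2000) ^ 2 := pow_le_pow_left₀ hx0.le hx' 2
    have g3 : x ^ 20 ≤ ((Y : ℝ) / 2000) ^ 20 := pow_le_pow_left₀ hx0.le hx' 20
    rw [hB, NN, g1]
    linarith
  linarith

end Pool.Agent.H49.SZ
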