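import Pool.Agent.H49.SZ.Fub

set_option autoImplicit false

/-!
# [H49 SZ] Termwise integration of power series on circles
-/

namespace Pool.Agent.H49.SZ

open Set Metric Real Filter Topology MeasureTheory

theorem int_exp {k : ℤ} (hk : k ≠ 0) :
    ∫ t in (0 : ℝ)..2 * π, Complex.exp ((k : ℂ) * Complex.I * t) = 0 := by
  have hc : (k : ℂ) * Complex.I ≠ 0 :=
    mul_ne_zero (by exact_mod_cast hk) Complex.I_ne_zero
  rw [integral_exp_mul_complex hc]
  have h1 : Complex.exp ((k : ℂ) * Complex.I * ((2 * π : ℝ) : ℂ)) = 1 := by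
    rw [Complex.exp_eq_one_iff]
    exact ⟨k, by push_cast; ring⟩
  rw [h1]
  simp

theorem circleMap_pow (r : ℝ) (t : ℝ) (j : ℕ) :
    circleMap 0 r t ^ j = (r : ℂ) ^ j * Complex.exp ((j : ℂ) * Complex.I * t) := by
  simp only [circleMap, zero_add, mul_pow, ← Complex.exp_nat_mul]
  ring_nf

theorem int_circle {r : ℝ} (hr : r ≠ 0) (j n : ℕ) :
    ∫ t in (0 : ℝ)..2 * π, circleMap 0 r t ^ j * (circleMap 0 r t ^ n)⁻¹ =
      if j = n then ((2 * π : ℝ) : ℂ) else 0 := by
  have hrc : (r : ℂ) ≠ 0 := by exact_mod_cast hr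
  have h1 : ∀ t : ℝ, circleMap 0 r t ^ j * (circleMap 0 r t ^ n)⁻¹ =
      (r : ℂ) ^ j * ((r : ℂ) ^ n)⁻¹ * Complex.exp ((((j : ℤ) - n : ℤ) : ℂ) * Complex.I * t) := by
    intro t
    rw [circleMap_pow, circleMap_pow, mul_inv, ← Complex.exp_neg]
    have e1 : Complex.exp ((((j : ℤ) - n : ℤ) : ℂ) * Complex.I * t) =
        Complex.exp ((j : ℂ) * Complex.I * t) * Complex.exp (-((n : ℂ) * Complex.I * t)) := by
      rw [← Complex.exp_add]
      congr 1
      push_cast
      ring
    rw [e1]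
    ring
  simp only [h1]
  rw [intervalIntegral.integral_const_mul]
  split_ifs with h
  · subst h
    have e2 : (r : ℂ) ^ j ≠ 0 := pow_ne_zero _ hrc
    simp [mul_inv_cancel₀ e2]
  · rw [int_exp (by omega), mul_zero]

theorem int_circle_pos (r : ℝ) (j : ℕ) {n : ℕ} (hn : n ≠ 0) :
    ∫ t in (0 : ℝ)..2 * π, circleMap 0 r t ^ j * circleMap 0 r t ^ n = 0 := by
  have h1 : ∀ t : ℝ, circleMap 0 r t ^ j * circleMap 0 r t ^ n =
      (r : ℂ) ^ (j + n) * Complex.exp ((((j + n : ℕ) : ℤ) : ℂ) * Complex.I * t) := by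
    intro t
    rw [← pow_add, circleMap_pow]
    push_cast
    ring
  simp only [h1]
  rw [intervalIntegral.integral_const_mul, int_exp (by omega), mul_zero]

/-- termwise integration -/
theorem hasSum_avg {a : ℕ → ℂ} {r : ℝ} (hr : 0 ≤ r) (ha : Summable fun n => ‖a n‖ * r ^ n)
    {F : ℝ → ℂ} (hF : Continuous F) :
    HasSum (fun j => a j * ∫ t in (0 : ℝ)..2 * π, circleMap 0 r t ^ j * F t)
      (∫ t in (0 : ℝ)..2 * π, (∑' j, a j * circleMap 0 r t ^ j) * F t) := by
  have hn : ∀ (j : ℕ) (t : ℝ), ‖a j * circleMap 0 r t ^ j‖ = ‖a j‖ * r ^ j := by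
    intro j t
    rw [norm_mul, norm_pow, norm_circleMap_zero, abs_of_nonneg hr]
  have hs : ∀ t : ℝ, Summable fun j => a j * circleMap 0 r t ^ j := by
    intro t
    apply Summable.of_norm
    simpa only [hn] using ha
  have h1 : HasSum (fun j => ∫ t in (0 : ℝ)..2 * π, a j * circleMap 0 r t ^ j * F t)
      (∫ t in (0 : ℝ)..2 * π, (∑' j, a j * circleMap 0 r t ^ j) * F t) := by
    apply intervalIntegral.hasSum_integral_of_dominated_convergence
      (bound := fun j t => ‖a j‖ * r ^ j * ‖F t‖)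
    · intro j
      apply Continuous.aestronglyMeasurable
      have := continuous_circleMap 0 r
      fun_prop
    · intro j
      refine Eventually.of_forall fun t _ => ?_
      rw [norm_mul, hn]
    · refine Eventually.of_forall fun t _ => ?_
      exact ha.mul_right _
    · have e1 : (fun t => ∑' j, ‖a j‖ * r ^ j * ‖F t‖) = fun t =>
          (∑' j, ‖a j‖ * r ^ j) * ‖F t‖ := by
        funext t
        rw [tsum_mul_right]
      rw [e1]
      exact (continuous_const.mul hF.norm).intervalIntegrable _ _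
    · refine Eventually.of_forall fun t _ => ?_
      exact (hs t).hasSum.mul_right _
  have h2 : (fun j => ∫ t in (0 : ℝ)..2 * π, a j * circleMap 0 r t ^ j * F t) =
      fun j => a j * ∫ t in (0 : ℝ)..2 * π, circleMap 0 r t ^ j * F t := by
    funext j
    rw [← intervalIntegral.integral_const_mul]
    apply intervalIntegral.integral_congr
    intro t _
    ring
  rw [h2] at h1
  exact h1

theorem circleMap_ne {r : ℝ} (hr : r ≠ 0) (t : ℝ) : circleMap 0 r t ≠ 0 := circleMap_ne_center hr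

theorem avg_term {a : ℕ → ℂ} {r : ℝ} (hr : 0 < r) (ha : Summable fun n => ‖a n‖ * r ^ n) (n : ℕ) :
    circleAverage (fun z => (∑' j, a j * z ^ j) * (z ^ n)⁻¹) 0 r = a n := by
  have hF : Continuous fun t : ℝ => (circleMap 0 r t ^ n)⁻¹ := by
    apply Continuous.inv₀ ((continuous_circleMap 0 r).pow n)
    intro t
    exact pow_ne_zero _ (circleMap_ne hr.ne' t)
  have h1 := hasSum_avg hr.le ha hF
  simp only [int_circle hr.ne'] at h1
  have h2 : HasSum (fun j => a j * if j = n then ((2 * π : ℝ) : ℂ) else 0)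
      (a n * ((2 * π : ℝ) : ℂ)) := by
    have e1 := hasSum_single (f := fun j => a j * if j = n then ((2 * π : ℝ) : ℂ) else 0) n (by
      intro j hj
      simp only [if_neg hj, mul_zero])
    simpa using e1
  have h3 := h1.unique h2
  rw [circleAverage, h3, Complex.real_smul]
  have : ((2 * π : ℝ) : ℂ) ≠ 0 := by
    exact_mod_cast (by positivity : (2 * π : ℝ) ≠ 0)
  push_cast at this ⊢
  field_simp

theorem avg_term_neg {a : ℕ → ℂ} {r : ℝ} (hr : 0 < r) (ha : Summable fun n => ‖a n‖ * r ^ n)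
    {n : ℕ} (hn : n ≠ 0) : circleAverage (fun z => (∑' j, a j * z ^ j) * z ^ n) 0 r = 0 := by
  have hF : Continuous fun t : ℝ => circleMap 0 r t ^ n := (continuous_circleMap 0 r).pow n
  have h1 := hasSum_avg hr.le ha hF
  simp only [int_circle_pos r _ hn, mul_zero] at h1
  have h3 := h1.unique hasSum_zero
  rw [circleAverage, h3, smul_zero]

end Pool.Agent.H49.SZ
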