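import Pool.Agent.H49.SZ.Avg

set_option autoImplicit false

/-!
# [H49 SZ STEP] One step of the construction

Average over `t` of `EN N (cmp (rot t P) (rt k L)) r`: by `fn_cmp`, `lgd_cmp`, `fn_rot`, `lgd_rot` the integrand at `z` is
`N ‖fn P (e^{it} w)‖ * ‖lgd P (e^{it} w)‖ * ‖lgd (rt k L) z‖`, `w = fn (rt k L) z`; Fubini (everything is continuous);
the inner average over `t` is `EN N P ‖w‖` (`w = ‖w‖ e^{iα}`, translation) `≥ κ N (‖w‖^k)` and `‖w‖^k = ‖fn L (z^k)‖`;
then `avg_pow`.  If `w = 0`, i.e. `z = 0`: not on the circle (`r > 0`; `fn K z = 0` only for `z = 0`).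
Finally there is `t` with the value at least the average.
-/

namespace Pool.Agent.H49.SZ

open Set Metric Real

theorem step {N : ℝ → ℝ} (hN : Continuous N) {P : ℂ → ℂ} (hP : UU P) {k : ℕ} (hk : k ≠ 0) {κ : ℝ}
    (hcert : ∀ x : ℝ, 0 < x → x < 1 → κ * N (x ^ k) ≤ EN N P x) {L : ℂ → ℂ} (hL : UU L) {r : ℝ}
    (h0 : 0 < r) (h1 : r < 1) :
    ∃ t : ℝ, κ * EN N L (r ^ k) ≤ EN N (cmp (rot t P) (rt k L)) r := by
  have hpi : (0 : ℝ) < 2 * π := by positivity
  have hLr : UU (rt k L) := hL.rt hk
  set z : ℝ → ℂ := fun s => circleMap 0 r s with hz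
  set w : ℝ → ℂ := fun s => fn (rt k L) (z s) with hw
  have hzm : ∀ s, z s ∈ ball (0 : ℂ) 1 := fun s => circleMap_mem h0.le h1 s
  have hwm : ∀ s, w s ∈ ball (0 : ℂ) 1 := fun s => hLr.fn_mem (hzm s)
  have hwc : Continuous w := cont_circle hLr.continuousOn_fn h0.le h1
  have hw0 : ∀ s, w s ≠ 0 := by
    intro s
    simp only [hw, fn]
    apply mul_ne_zero _ (Complex.exp_ne_zero _)
    intro e
    have e1 := congrArg norm e
    rw [hz, norm_zero] at e1
    simp only [norm_circleMap_zero, abs_of_pos h0] at e1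
    linarith
  set M : ℂ → ℝ := fun ζ => N ‖fn P ζ‖ * ‖lgd P ζ‖ with hM
  have hMc : ContinuousOn M (ball 0 1) :=
    (hN.comp_continuousOn hP.continuousOn_fn.norm).mul hP.continuousOn_lgd.norm
  have hlc : Continuous fun s : ℝ => ‖lgd (rt k L) (z s)‖ :=
    (cont_circle hLr.continuousOn_lgd h0.le h1).norm
  -- the integrand
  have hEN : ∀ t : ℝ, EN N (cmp (rot t P) (rt k L)) r = (2 * π)⁻¹ * ∫ s in (0 : ℝ)..2 * π,
      M (Complex.exp (t * Complex.I) * w s) * ‖lgd (rt k L) (z s)‖ := by
    intro t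
    rw [EN, circleAverage, smul_eq_mul]
    congr 1
    apply intervalIntegral.integral_congr
    intro s _
    have e1 : fn (cmp (rot t P) (rt k L)) (z s) =
        Complex.exp (-(t * Complex.I)) * fn P (Complex.exp (t * Complex.I) * w s) := by
      rw [fn_cmp, fn_rot]
    have e2 : lgd (cmp (rot t P) (rt k L)) (z s) =
        lgd (rt k L) (z s) * lgd P (Complex.exp (t * Complex.I) * w s) := by
      rw [lgd_cmp (hLr.diffAt (hzm s)) ((hP.rot t).diffAt (hwm s)),
        lgd_rot t (hP.diffAt (rot_mem t (hwm s)))]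
    change N ‖fn (cmp (rot t P) (rt k L)) (z s)‖ * ‖lgd (cmp (rot t P) (rt k L)) (z s)‖ = _
    rw [e1, e2, norm_mul, norm_mul, ← neg_mul, ← Complex.ofReal_neg,
      Complex.norm_exp_ofReal_mul_I, one_mul]
    simp only [hM]
    ring
  have hGc : Continuous (Function.uncurry fun t s : ℝ =>
      M (Complex.exp (t * Complex.I) * w s) * ‖lgd (rt k L) (z s)‖) := by
    apply Continuous.mul
    · apply hMc.comp_continuous
      · apply Continuous.mul
        · fun_prop
        · exact hwc.comp continuous_snd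
      · intro x
        exact rot_mem x.1 (hwm x.2)
    · exact hlc.comp continuous_snd
  have hGs : Continuous (Function.uncurry fun s t : ℝ =>
      M (Complex.exp (t * Complex.I) * w s) * ‖lgd (rt k L) (z s)‖) := by
    apply Continuous.mul
    · apply hMc.comp_continuous
      · apply Continuous.mul
        · fun_prop
        · exact hwc.comp continuous_fst
      · intro x
        exact rot_mem x.2 (hwm x.1)
    · exact hlc.comp continuous_fst
  have hENc : Continuous fun t : ℝ => EN N (cmp (rot t P) (rt k L)) r := by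
    simp only [hEN]
    exact continuous_const.mul
      (intervalIntegral.continuous_parametric_intervalIntegral_of_continuous' hGc _ _)
  -- the inner average
  have hinner : ∀ s : ℝ, ∫ t in (0 : ℝ)..2 * π,
      M (Complex.exp (t * Complex.I) * w s) * ‖lgd (rt k L) (z s)‖ =
      2 * π * EN N P ‖w s‖ * ‖lgd (rt k L) (z s)‖ := by
    intro s
    rw [intervalIntegral.integral_mul_const]
    congr 1
    rw [EN, circleAverage_eq_integral_add (w s).arg, smul_eq_mul, ← mul_assoc,
      mul_inv_cancel₀ hpi.ne', one_mul]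
    apply intervalIntegral.integral_congr
    intro t _
    have e1 : Complex.exp (t * Complex.I) * w s = circleMap 0 ‖w s‖ (t + (w s).arg) := by
      simp only [circleMap, zero_add]
      push_cast
      rw [add_mul, Complex.exp_add]
      have e2 := Complex.norm_mul_exp_arg_mul_I (w s)
      calc Complex.exp (t * Complex.I) * w s
          = Complex.exp (t * Complex.I) * (‖w s‖ * Complex.exp ((w s).arg * Complex.I)) := by
            rw [e2]
        _ = _ := by ring
    change M (Complex.exp (t * Complex.I) * w s) = M (circleMap 0 ‖w s‖ (t + (w s).arg))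
    rw [e1]
  -- the average over t
  have hkey : κ * EN N L (r ^ k) ≤
      (2 * π)⁻¹ * ∫ t in (0 : ℝ)..2 * π, EN N (cmp (rot t P) (rt k L)) r := by
    have e1 : ∫ t in (0 : ℝ)..2 * π, EN N (cmp (rot t P) (rt k L)) r =
        (2 * π)⁻¹ * ∫ s in (0 : ℝ)..2 * π, 2 * π * EN N P ‖w s‖ * ‖lgd (rt k L) (z s)‖ := by
      simp only [hEN]
      rw [intervalIntegral.integral_const_mul, fubini _ hGc hpi.le hpi.le]
      simp only [hinner]
    have hNL : ContinuousOn (fun ζ => N ‖fn L ζ‖ * ‖lgd L ζ‖) (ball 0 1) :=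
      (hN.comp_continuousOn hL.continuousOn_fn.norm).mul hL.continuousOn_lgd.norm
    have hrk : r ^ k < 1 := pow_lt_one₀ h0.le h1 hk
    have e2 : EN N L (r ^ k) = (2 * π)⁻¹ * ∫ s in (0 : ℝ)..2 * π,
        N (‖w s‖ ^ k) * ‖lgd (rt k L) (z s)‖ := by
      rw [EN, ← avg_pow hk (cont_circle hNL (by positivity) hrk), circleAverage, smul_eq_mul]
      congr 1
      apply intervalIntegral.integral_congr
      intro s _
      change N ‖fn L (z s ^ k)‖ * ‖lgd L (z s ^ k)‖ = N (‖w s‖ ^ k) * ‖lgd (rt k L) (z s)‖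
      rw [lgd_rt hk (hL.diffAt (pow_mem hk (hzm s))), ← norm_pow]
      simp only [hw]
      rw [fn_rt_pow hk]
    rw [e1, e2, ← mul_assoc, ← mul_assoc, mul_comm κ, mul_assoc, mul_assoc]
    apply mul_le_mul_of_nonneg_left _ (inv_pos.2 hpi).le
    rw [← intervalIntegral.integral_const_mul, ← intervalIntegral.integral_const_mul]
    have hc1 : Continuous fun s : ℝ => N (‖w s‖ ^ k) * ‖lgd (rt k L) (z s)‖ :=
      (hN.comp (hwc.norm.pow k)).mul hlc
    have hc2 : Continuous fun s : ℝ => 2 * π * EN N P ‖w s‖ * ‖lgd (rt k L) (z s)‖ := by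
      have e4 : (fun s : ℝ => 2 * π * EN N P ‖w s‖ * ‖lgd (rt k L) (z s)‖) =
          fun s : ℝ => ∫ t in (0 : ℝ)..2 * π,
            M (Complex.exp (t * Complex.I) * w s) * ‖lgd (rt k L) (z s)‖ :=
        funext fun s => (hinner s).symm
      rw [e4]
      exact intervalIntegral.continuous_parametric_intervalIntegral_of_continuous' hGs _ _
    apply intervalIntegral.integral_mono_on hpi.le
    · exact (continuous_const.mul hc1).intervalIntegrable _ _
    · exact (continuous_const.mul hc2).intervalIntegrable _ _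
    · intro s _
      have hwn : 0 < ‖w s‖ := norm_pos_iff.2 (hw0 s)
      have hwn1 : ‖w s‖ < 1 := by
        have := hwm s
        rwa [mem_ball_zero_iff] at this
      have e4 := mul_le_mul_of_nonneg_right (hcert _ hwn hwn1) (norm_nonneg (lgd (rt k L) (z s)))
      have e5 : (2 * π)⁻¹ * (2 * π * EN N P ‖w s‖ * ‖lgd (rt k L) (z s)‖) =
          EN N P ‖w s‖ * ‖lgd (rt k L) (z s)‖ := by
        rw [← mul_assoc, ← mul_assoc, inv_mul_cancel₀ hpi.ne', one_mul]
      rw [e5, ← mul_assoc]
      exact e4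
  obtain ⟨t, _, ht⟩ := isCompact_Icc.exists_isMaxOn (nonempty_Icc.2 hpi.le) hENc.continuousOn
  refine ⟨t, hkey.trans ?_⟩
  have e1 : ∫ t' in (0 : ℝ)..2 * π, EN N (cmp (rot t' P) (rt k L)) r ≤
      ∫ _t' in (0 : ℝ)..2 * π, EN N (cmp (rot t P) (rt k L)) r := by
    apply intervalIntegral.integral_mono_on hpi.le (hENc.intervalIntegrable _ _)
      (continuous_const.intervalIntegrable _ _)
    intro t' ht'
    exact ht ht'
  rw [intervalIntegral.integral_const, sub_zero, smul_eq_mul] at e1
  have e2 := mul_le_mul_of_nonneg_left e1 (inv_pos.2 hpi).le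
  rwa [← mul_assoc, inv_mul_cancel₀ hpi.ne', one_mul] at e2

end Pool.Agent.H49.SZ
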