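import Pool.Agent.H49.SZ.Ser

set_option autoImplicit false

/-!
# [H49 SZ TAY] Taylor coefficients
-/

namespace Pool.Agent.H49.SZ

open Set Metric Real Filter Topology

theorem tc_zero (G : ℂ → ℂ) : tc G 0 = G 0 := by simp [tc]

theorem tc_hasSum {G : ℂ → ℂ} {R : ℝ} (hG : DifferentiableOn ℂ G (ball 0 R)) {z : ℂ}
    (hz : z ∈ ball (0 : ℂ) R) : HasSum (fun n => tc G n * z ^ n) (G z) := by
  have h1 := Complex.hasSum_taylorSeries_on_ball hG hz
  have h2 : (fun n : ℕ => ((n.factorial : ℂ))⁻¹ • (z - 0) ^ n • iteratedDeriv n G 0) =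
      fun n => tc G n * z ^ n := by
    funext n
    simp only [tc, sub_zero, smul_eq_mul]
    ring
  rw [h2] at h1
  exact h1

theorem tc_congr {G₁ G₂ : ℂ → ℂ} {r : ℝ} (hr : 0 < r) (h : ∀ z ∈ ball (0 : ℂ) r, G₁ z = G₂ z)
    (n : ℕ) : tc G₁ n = tc G₂ n := by
  have h1 : G₁ =ᶠ[𝓝 0] G₂ := by
    filter_upwards [ball_mem_nhds (0 : ℂ) hr] with z hz using h z hz
  rw [tc, tc, h1.iteratedDeriv_eq]

theorem tc_summable {G : ℂ → ℂ} {R : ℝ} (hG : DifferentiableOn ℂ G (ball 0 R)) {r : ℝ}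
    (hr : 0 ≤ r) (hrR : r < R) : Summable fun n => ‖tc G n‖ * r ^ n := by
  have hz : (r : ℂ) ∈ ball (0 : ℂ) R := by
    rw [mem_ball_zero_iff, Complex.norm_real, Real.norm_eq_abs, abs_of_nonneg hr]
    exact hrR
  have h1 := (tc_hasSum hG hz).summable.norm
  have h2 : (fun n => ‖tc G n * (r : ℂ) ^ n‖) = fun n => ‖tc G n‖ * r ^ n := by
    funext n
    rw [norm_mul, norm_pow, Complex.norm_real, Real.norm_eq_abs, abs_of_nonneg hr]
  rwa [h2] at h1

theorem tc_eq_avg {G : ℂ → ℂ} {R : ℝ} (hG : DifferentiableOn ℂ G (ball 0 R)) {r : ℝ} (hr : 0 < r)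
    (hrR : r < R) (n : ℕ) : tc G n = circleAverage (fun z => G z * (z ^ n)⁻¹) 0 r := by
  rw [← avg_term hr (tc_summable hG hr.le hrR) n]
  apply circleAverage_congr_sphere
  intro z hz
  have hz' : z ∈ ball (0 : ℂ) R := by
    rw [mem_sphere_zero_iff_norm, abs_of_pos hr] at hz
    rw [mem_ball_zero_iff, hz]
    exact hrR
  change (∑' j, tc G j * z ^ j) * (z ^ n)⁻¹ = G z * (z ^ n)⁻¹
  rw [(tc_hasSum hG hz').tsum_eq]

theorem diff_series {a : ℕ → ℂ} {r : ℝ} (_hr : 0 ≤ r) (hs : Summable fun n => ‖a n‖ * r ^ n) :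
    DifferentiableOn ℂ (fun z => ∑' n, a n * z ^ n) (ball 0 r) := by
  apply Complex.differentiableOn_tsum_of_summable_norm hs
  · intro n
    fun_prop
  · exact isOpen_ball
  · intro n w hw
    rw [mem_ball_zero_iff] at hw
    rw [norm_mul, norm_pow]
    exact mul_le_mul_of_nonneg_left (pow_le_pow_left₀ (norm_nonneg w) hw.le n) (norm_nonneg _)

theorem tc_unique {G : ℂ → ℂ} {a : ℕ → ℂ} {r : ℝ} (hr : 0 < r)
    (h : ∀ z ∈ ball (0 : ℂ) r, HasSum (fun n => a n * z ^ n) (G z)) (n : ℕ) : tc G n = a n := by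
  have hr2 : 0 < r / 2 := by linarith
  have hr4 : 0 < r / 4 := by linarith
  have hs : ∀ ρ : ℝ, 0 ≤ ρ → ρ < r → Summable fun n => ‖a n‖ * ρ ^ n := by
    intro ρ h0 h1
    have hz : (ρ : ℂ) ∈ ball (0 : ℂ) r := by
      rw [mem_ball_zero_iff, Complex.norm_real, Real.norm_eq_abs, abs_of_nonneg h0]
      exact h1
    have h1 := (h _ hz).summable.norm
    have h2 : (fun n => ‖a n * (ρ : ℂ) ^ n‖) = fun n => ‖a n‖ * ρ ^ n := by
      funext n
      rw [norm_mul, norm_pow, Complex.norm_real, Real.norm_eq_abs, abs_of_nonneg h0]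
    rwa [h2] at h1
  have hd := diff_series hr2.le (hs _ hr2.le (by linarith))
  rw [tc_congr (G₂ := fun z => ∑' n, a n * z ^ n) hr (fun z hz => (h z hz).tsum_eq.symm) n,
    tc_eq_avg hd hr4 (by linarith) n]
  exact avg_term hr4 (hs _ hr4.le (by linarith)) n

theorem norm_avg_le {F : ℂ → ℂ} {r M : ℝ} (hM : ∀ z : ℂ, ‖z‖ = |r| → ‖F z‖ ≤ M) :
    ‖circleAverage F 0 r‖ ≤ M := by
  have hpi : (0 : ℝ) < 2 * π := by positivity
  rw [circleAverage, norm_smul, Real.norm_eq_abs, abs_of_pos (inv_pos.2 hpi)]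
  have h1 : ‖∫ t in (0 : ℝ)..2 * π, F (circleMap 0 r t)‖ ≤ M * |2 * π - 0| := by
    apply intervalIntegral.norm_integral_le_of_norm_le_const
    intro t _
    exact hM _ (by rw [norm_circleMap_zero])
  rw [sub_zero, abs_of_pos hpi] at h1
  rw [inv_mul_le_iff₀ hpi]
  linarith

theorem tc_bound {G : ℂ → ℂ} {R : ℝ} (hG : DifferentiableOn ℂ G (ball 0 R)) {r M : ℝ}
    (hr : 0 < r) (hrR : r < R) (hM : ∀ z : ℂ, ‖z‖ = r → ‖G z‖ ≤ M) (n : ℕ) :
    ‖tc G n‖ ≤ M / r ^ n := by
  rw [tc_eq_avg hG hr hrR n]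
  apply norm_avg_le
  intro z hz
  rw [abs_of_pos hr] at hz
  rw [norm_mul, norm_inv, norm_pow, hz, div_eq_mul_inv]
  exact mul_le_mul_of_nonneg_right (hM z hz) (by positivity)

theorem tc_re {G : ℂ → ℂ} (hG : DifferentiableOn ℂ G (ball 0 1))
    (hre : ∀ z ∈ ball (0 : ℂ) 1, (G z).re ≤ 0) {n : ℕ} (hn : n ≠ 0) :
    ‖tc G n‖ ≤ -2 * (G 0).re := by
  have hpi : (0 : ℝ) < 2 * π := by positivity
  have key : ∀ r : ℝ, 0 < r → r < 1 → ‖tc G n‖ * r ^ n ≤ -2 * (G 0).re := by
    intro r h0 h1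
    have hGc : Continuous fun t : ℝ => G (circleMap 0 r t) := cont_circle hG.continuousOn h0.le h1
    have hic : Continuous fun t : ℝ => (circleMap 0 r t ^ n)⁻¹ := by
      apply Continuous.inv₀ ((continuous_circleMap 0 r).pow n)
      intro t
      exact pow_ne_zero _ (circleMap_ne h0.ne' t)
    have hB : circleAverage (fun z => (starRingEnd ℂ) (G z) * (z ^ n)⁻¹) 0 r = 0 := by
      have e1 := avg_term_neg h0 (tc_summable hG h0.le h1) hn
      rw [circleAverage] at e1
      have e2 : ∫ t in (0 : ℝ)..2 * π, (∑' j, tc G j * circleMap 0 r t ^ j) * circleMap 0 r t ^ n =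
          0 := by
        rcases smul_eq_zero.1 e1 with h | h
        · exact absurd h (inv_pos.2 hpi).ne'
        · exact h
      have e3 : ∀ t : ℝ, (starRingEnd ℂ) (G (circleMap 0 r t)) * (circleMap 0 r t ^ n)⁻¹ =
          ((r : ℂ) ^ (2 * n))⁻¹ * (starRingEnd ℂ)
            ((∑' j, tc G j * circleMap 0 r t ^ j) * circleMap 0 r t ^ n) := by
        intro t
        rw [(tc_hasSum hG (circleMap_mem h0.le h1 t)).tsum_eq, map_mul, map_pow]
        have e4 : circleMap 0 r t * (starRingEnd ℂ) (circleMap 0 r t) = (r : ℂ) ^ 2 := by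
          rw [Complex.mul_conj, Complex.normSq_eq_norm_sq, norm_circleMap_zero, sq_abs]
          push_cast
          rfl
        have hz0 : circleMap 0 r t ≠ 0 := circleMap_ne h0.ne' t
        have hr0 : (r : ℂ) ≠ 0 := by exact_mod_cast h0.ne'
        have e5 : (starRingEnd ℂ) (circleMap 0 r t) ^ n =
            (r : ℂ) ^ (2 * n) * (circleMap 0 r t ^ n)⁻¹ := by
          rw [pow_mul, ← e4, mul_pow]
          field_simp
        rw [e5]
        have hr2 : (r : ℂ) ^ (2 * n) ≠ 0 := pow_ne_zero _ hr0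
        field_simp
      rw [circleAverage]
      simp only [e3]
      rw [intervalIntegral.integral_const_mul]
      have e6 : ∫ t in (0 : ℝ)..2 * π, (starRingEnd ℂ)
          ((∑' j, tc G j * circleMap 0 r t ^ j) * circleMap 0 r t ^ n) = 0 := by
        rw [intervalIntegral.intervalIntegral_eq_integral_uIoc, integral_conj]
        rw [intervalIntegral.intervalIntegral_eq_integral_uIoc] at e2
        rcases smul_eq_zero.1 e2 with h | h
        · rw [h, zero_smul]
        · rw [h, map_zero, smul_zero]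
      rw [e6, mul_zero, smul_zero]
    have hA := tc_eq_avg hG h0 h1 n
    have hsum : tc G n = circleAverage (fun z => ((2 * (G z).re : ℝ) : ℂ) * (z ^ n)⁻¹) 0 r := by
      have e0 : circleAverage (fun z => ((2 * (G z).re : ℝ) : ℂ) * (z ^ n)⁻¹) 0 r =
          circleAverage (fun z => G z * (z ^ n)⁻¹) 0 r +
            circleAverage (fun z => (starRingEnd ℂ) (G z) * (z ^ n)⁻¹) 0 r := by
        rw [circleAverage, circleAverage, circleAverage, ← smul_add,
          ← intervalIntegral.integral_add]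
        · congr 1
          apply intervalIntegral.integral_congr
          intro t _
          simp only
          rw [← add_mul, Complex.add_conj]
        · exact (hGc.mul hic).intervalIntegrable _ _
        · exact ((Complex.continuous_conj.comp hGc).mul hic).intervalIntegrable _ _
      rw [hA, e0, hB, add_zero]
    have h0avg : (G 0).re = (2 * π)⁻¹ * ∫ t in (0 : ℝ)..2 * π, (G (circleMap 0 r t)).re := by
      have e1 := tc_eq_avg hG h0 h1 0
      rw [tc_zero, circleAverage] at e1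
      have e2 := congrArg Complex.re e1
      simp only [pow_zero, inv_one, mul_one, Complex.smul_re, smul_eq_mul] at e2
      rw [e2]
      congr 1
      have hint : IntervalIntegrable (fun t : ℝ => G (circleMap 0 r t)) MeasureTheory.volume 0
          (2 * π) := hGc.intervalIntegrable 0 (2 * π)
      have e3 := Complex.reCLM.intervalIntegral_comp_comm hint
      exact e3.symm
    rw [hsum, circleAverage, norm_smul, Real.norm_eq_abs, abs_of_pos (inv_pos.2 hpi)]
    have e1 : ‖∫ t in (0 : ℝ)..2 * π, ((2 * (G (circleMap 0 r t)).re : ℝ) : ℂ) *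
        (circleMap 0 r t ^ n)⁻¹‖ ≤ ∫ t in (0 : ℝ)..2 * π,
          (-2 * (G (circleMap 0 r t)).re) * (r ^ n)⁻¹ := by
      apply (intervalIntegral.norm_integral_le_integral_norm hpi.le).trans
      apply le_of_eq
      apply intervalIntegral.integral_congr
      intro t _
      simp only
      have e4 := hre _ (circleMap_mem h0.le h1 t)
      rw [norm_mul, norm_inv, norm_pow, norm_circleMap_zero, Complex.norm_real,
        Real.norm_eq_abs, abs_of_pos h0, abs_of_nonpos (by linarith)]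
      ring
    rw [intervalIntegral.integral_mul_const, intervalIntegral.integral_const_mul] at e1
    have e5 : 0 < r ^ n := pow_pos h0 n
    calc (2 * π)⁻¹ * ‖∫ t in (0 : ℝ)..2 * π, ((2 * (G (circleMap 0 r t)).re : ℝ) : ℂ) *
          (circleMap 0 r t ^ n)⁻¹‖ * r ^ n
        ≤ (2 * π)⁻¹ * (-2 * (∫ t in (0 : ℝ)..2 * π, (G (circleMap 0 r t)).re) * (r ^ n)⁻¹) *
          r ^ n := by
          apply mul_le_mul_of_nonneg_right _ e5.le
          exact mul_le_mul_of_nonneg_left e1 (inv_pos.2 hpi).le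
      _ = -2 * (G 0).re := by
          rw [h0avg]
          field_simp
  have hlim : Tendsto (fun r : ℝ => ‖tc G n‖ * r ^ n) (𝓝[<] 1) (𝓝 (‖tc G n‖ * 1 ^ n)) := by
    apply Tendsto.mono_left _ nhdsWithin_le_nhds
    exact (continuous_const.mul (continuous_pow n)).tendsto 1
  rw [one_pow, mul_one] at hlim
  apply le_of_tendsto hlim
  have h2 : ∀ᶠ r : ℝ in 𝓝[<] 1, 0 < r := by
    apply nhdsWithin_le_nhds
    exact lt_mem_nhds one_pos
  filter_upwards [h2, self_mem_nhdsWithin] with r hr0 hr1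
  exact key r hr0 hr1

/-- functions which agree up to order `m` -/
theorem tc_trunc {G₁ G₂ : ℂ → ℂ} {r M : ℝ} (hr : 0 < r) (h₁ : DifferentiableOn ℂ G₁ (ball 0 r))
    (h₂ : DifferentiableOn ℂ G₂ (ball 0 r)) {m : ℕ}
    (h : ∀ z ∈ ball (0 : ℂ) r, ‖G₁ z - G₂ z‖ ≤ M * ‖z‖ ^ (m + 1)) {n : ℕ} (hn : n ≤ m) :
    tc G₁ n = tc G₂ n := by
  have hM : 0 ≤ |M| := abs_nonneg M
  have key : ∀ ρ : ℝ, 0 < ρ → ρ < min r 1 → ‖tc G₁ n - tc G₂ n‖ ≤ |M| * ρ := by
    intro ρ h0 h1
    have hρr : ρ < r := lt_of_lt_of_le h1 (min_le_left _ _)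
    have hρ1 : ρ < 1 := lt_of_lt_of_le h1 (min_le_right _ _)
    have hc : ∀ {G : ℂ → ℂ}, DifferentiableOn ℂ G (ball 0 r) →
        IntervalIntegrable (fun t : ℝ => G (circleMap 0 ρ t) * (circleMap 0 ρ t ^ n)⁻¹)
          MeasureTheory.volume 0 (2 * π) := by
      intro G hG
      apply Continuous.intervalIntegrable
      apply Continuous.mul
      · apply hG.continuousOn.comp_continuous (continuous_circleMap 0 ρ)
        intro t
        rw [mem_ball_zero_iff, norm_circleMap_zero, abs_of_pos h0]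
        exact hρr
      · apply Continuous.inv₀ ((continuous_circleMap 0 ρ).pow n)
        intro t
        exact pow_ne_zero _ (circleMap_ne h0.ne' t)
    have e1 : tc G₁ n - tc G₂ n = circleAverage (fun z => (G₁ z - G₂ z) * (z ^ n)⁻¹) 0 ρ := by
      rw [tc_eq_avg h₁ h0 hρr n, tc_eq_avg h₂ h0 hρr n, circleAverage, circleAverage,
        circleAverage, ← smul_sub, ← intervalIntegral.integral_sub (hc h₁) (hc h₂)]
      congr 1
      apply intervalIntegral.integral_congr
      intro t _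
      simp only
      ring
    rw [e1]
    apply norm_avg_le
    intro z hz
    rw [abs_of_pos h0] at hz
    have hzr : z ∈ ball (0 : ℂ) r := by rw [mem_ball_zero_iff, hz]; exact hρr
    have e2 := h z hzr
    rw [hz] at e2
    rw [norm_mul, norm_inv, norm_pow, hz]
    have e3 : 0 < ρ ^ n := pow_pos h0 n
    rw [← div_eq_mul_inv, div_le_iff₀ e3]
    calc ‖G₁ z - G₂ z‖ ≤ M * ρ ^ (m + 1) := e2
      _ ≤ |M| * ρ ^ (m + 1) := mul_le_mul_of_nonneg_right (le_abs_self M) (by positivity)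
      _ ≤ |M| * ρ ^ (n + 1) := by
          apply mul_le_mul_of_nonneg_left _ hM
          exact pow_le_pow_of_le_one h0.le hρ1.le (by omega)
      _ = |M| * ρ * ρ ^ n := by ring
  have h3 : ‖tc G₁ n - tc G₂ n‖ ≤ 0 := by
    apply le_of_forall_pos_le_add
    intro ε hε
    set ρ : ℝ := min (min r 1 / 2) (ε / (|M| + 1)) with hρ
    have hmin : 0 < min r 1 := lt_min hr one_pos
    have hp : 0 < ρ := lt_min (by linarith) (by positivity)
    have h4 := key ρ hp (lt_of_le_of_lt (min_le_left _ _) (by linarith))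
    have h5 : |M| * ρ ≤ ε := by
      calc |M| * ρ ≤ (|M| + 1) * (ε / (|M| + 1)) :=
            mul_le_mul (by linarith) (min_le_right _ _) hp.le (by positivity)
        _ = ε := by field_simp
    linarith
  exact sub_eq_zero.1 (norm_le_zero_iff.1 h3)

theorem tc_scale {G : ℂ → ℂ} {R : ℝ} (hR : 0 < R) (hG : DifferentiableOn ℂ G (ball 0 R)) (s : ℂ)
    (n : ℕ) : tc (fun z => G (s * z)) n = s ^ n * tc G n := by
  have hr : 0 < R / (‖s‖ + 1) := by positivity
  apply tc_unique hr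
  intro z hz
  rw [mem_ball_zero_iff, lt_div_iff₀ (by positivity)] at hz
  have hz2 : s * z ∈ ball (0 : ℂ) R := by
    rw [mem_ball_zero_iff, norm_mul]
    nlinarith [norm_nonneg s, norm_nonneg z]
  have h1 := tc_hasSum hG hz2
  have h2 : (fun n => tc G n * (s * z) ^ n) = fun n => s ^ n * tc G n * z ^ n := by
    funext n
    rw [mul_pow]
    ring
  rwa [h2] at h1

theorem ser_summable {l : ℕ → ℂ} {B : ℝ} (hB : ∀ j, ‖l j‖ ≤ B) {r : ℝ} (h0 : 0 ≤ r) (h1 : r < 1) :
    Summable fun n => ‖l n‖ * r ^ n := by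
  apply Summable.of_nonneg_of_le (fun n => by positivity)
    (fun n => mul_le_mul_of_nonneg_right (hB n) (by positivity))
  exact (summable_geometric_of_lt_one h0 h1).mul_left B

theorem ser_hasSum {l : ℕ → ℂ} {B : ℝ} (hB : ∀ j, ‖l j‖ ≤ B) {z : ℂ} (hz : z ∈ ball (0 : ℂ) 1) :
    HasSum (fun n => l n * z ^ n) (ser l z) := by
  rw [mem_ball_zero_iff] at hz
  apply Summable.hasSum
  apply Summable.of_norm
  simpa only [norm_mul, norm_pow] using ser_summable hB (norm_nonneg z) hz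

theorem ser_diff {l : ℕ → ℂ} {B : ℝ} (hB : ∀ j, ‖l j‖ ≤ B) :
    DifferentiableOn ℂ (ser l) (ball 0 1) := by
  intro z hz
  rw [mem_ball_zero_iff] at hz
  obtain ⟨r, h1, h2⟩ := exists_between hz
  have hr : 0 ≤ r := (norm_nonneg z).trans h1.le
  have h3 := diff_series hr (ser_summable hB hr h2)
  have h4 : z ∈ ball (0 : ℂ) r := by rw [mem_ball_zero_iff]; exact h1
  exact ((h3 z h4).differentiableAt (isOpen_ball.mem_nhds h4)).differentiableWithinAt

theorem tc_ser {l : ℕ → ℂ} {B : ℝ} (hB : ∀ j, ‖l j‖ ≤ B) (n : ℕ) : tc (ser l) n = l n :=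
  tc_unique one_pos (fun _ hz => ser_hasSum hB hz) n

theorem ser_tc {G : ℂ → ℂ} (hG : DifferentiableOn ℂ G (ball 0 1)) {z : ℂ}
    (hz : z ∈ ball (0 : ℂ) 1) : ser (tc G) z = G z := (tc_hasSum hG hz).tsum_eq

theorem UU.congr {L K : ℂ → ℂ} (hL : UU L) (h : ∀ z ∈ ball (0 : ℂ) 1, L z = K z) : UU K := by
  have h0 : (0 : ℂ) ∈ ball (0 : ℂ) 1 := mem_ball_self one_pos
  refine ⟨hL.diff.congr fun z hz => (h z hz).symm, fun z hz => ?_, ?_, ?_⟩
  · rw [← h z hz]; exact hL.re z hz
  · rw [← h 0 h0]; exact hL.im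
  · intro z hz w hw e
    apply hL.inj hz hw
    simp only [fn, h z hz, h w hw]
    exact e

end Pool.Agent.H49.SZ
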