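import Pool.Agent.H49.SZ.Tay

set_option autoImplicit false

/-!
# [H49 SZ VP] Fejer kernels (see VP.lean)

`Φ(t) = conj (H(e^{it})) / ‖H(e^{it})‖` (continuous), `Φh i = (2π)⁻¹ ∫ Φ(t) e^{-i i t} dt` (`i : ℤ`),
`g z = ∑ (1/(3m)) Φh(a-b) z^(2m-1+a-b)` over the pairs `(a,b) ∈ [0,2m)² \ [0,m)²` (as `∑_{[0,2m)²} - ∑_{[0,m)²}`).

* bound: on `|z| = 1`, `z = e^{iθ}`: `z^(m+1) g z = z^(3m) (1/(3m)) (2π)⁻¹ ∫ Φ(t) (|D_{2m}(θ-t)|² - |D_m(θ-t)|²) dt`,
  `D_n(x) = ∑_{a<n} e^{iax}`, `(2π)⁻¹ ∫ |D_n|² = n`; so the modulus is `≤ (2m + m)/(3m) = 1`; inside by the maximum principle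
  (`Complex.norm_le_of_forall_mem_frontier_norm_le`).
* coefficient: `tc (z^(m+1) g H) (3m)` = average over `|z| = 1` of `z^(m+1) g H z^(-3m)` (`tc_eq_avg`, `r = 1 < R`)
  `= (1/(3m)) ∑ Φh(a-b) avg(z^(a-b) H) = (1/3) ∑_{j<2m} w_j Φh(-j) tc H j`, `w_j = 1` for `j ≤ m`, `(2m-j)/m` for `m < j < 2m`
  (`avg_term`, `avg_term_neg` for `H = ser (tc H)`); the average of `‖H‖ = Φ H` is `∑ Φh(-j) tc H j` (termwise integration);
  `|Φh| ≤ 1`.  So the difference of `(1/3) avg ‖H‖` and the coefficient is at most `∑_{j>m} ‖tc H j‖`.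
-/

namespace Pool.Agent.H49.SZ

open Set Metric Real Filter Topology

/-- average over the period -/
noncomputable def av (F : ℝ → ℂ) : ℂ := (2 * π)⁻¹ • ∫ t in (0 : ℝ)..2 * π, F t

theorem av_mul_left (c : ℂ) (F : ℝ → ℂ) : av (fun t => c * F t) = c * av F := by
  rw [av, av, intervalIntegral.integral_const_mul, mul_smul_comm]

theorem av_sum {ι : Type} (s : Finset ι) {F : ι → ℝ → ℂ} (hF : ∀ i ∈ s, Continuous (F i)) :
    av (fun t => ∑ i ∈ s, F i t) = ∑ i ∈ s, av (F i) := by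
  simp only [av]
  rw [intervalIntegral.integral_finsetSum, Finset.smul_sum]
  intro i hi
  exact (hF i hi).intervalIntegrable _ _

theorem norm_av (F : ℝ → ℂ) : ‖av F‖ ≤ (2 * π)⁻¹ * ∫ t in (0 : ℝ)..2 * π, ‖F t‖ := by
  have hpi : (0 : ℝ) < 2 * π := by positivity
  rw [av, norm_smul, Real.norm_eq_abs, abs_of_pos (inv_pos.2 hpi)]
  exact mul_le_mul_of_nonneg_left (intervalIntegral.norm_integral_le_integral_norm hpi.le)
    (inv_pos.2 hpi).le

/-- the point on the unit circle -/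
noncomputable def ec (t : ℝ) : ℂ := circleMap 0 1 t

theorem cont_ec : Continuous ec := continuous_circleMap 0 1

theorem ec_ne (t : ℝ) : ec t ≠ 0 := circleMap_ne one_ne_zero t

theorem norm_ec (t : ℝ) : ‖ec t‖ = 1 := by
  rw [ec, norm_circleMap_zero, abs_one]

theorem cont_mon (a b : ℕ) : Continuous fun t => ec t ^ a * (ec t ^ b)⁻¹ :=
  (cont_ec.pow a).mul ((cont_ec.pow b).inv₀ fun t => pow_ne_zero _ (ec_ne t))

theorem av_mon (a b : ℕ) : av (fun t => ec t ^ a * (ec t ^ b)⁻¹) = if a = b then 1 else 0 := by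
  rw [av]
  have h1 := int_circle (r := 1) one_ne_zero a b
  simp only [ec]
  rw [h1]
  split_ifs
  · rw [Complex.real_smul]
    have : ((2 * π : ℝ) : ℂ) ≠ 0 := by exact_mod_cast (by positivity : (2 * π : ℝ) ≠ 0)
    rw [Complex.ofReal_inv, inv_mul_cancel₀ this]
  · rw [smul_zero]

/-- the Fejer kernel -/
noncomputable def KK (n : ℕ) (z w : ℂ) : ℂ :=
  ∑ a ∈ Finset.range n, ∑ b ∈ Finset.range n, w ^ b * (w ^ a)⁻¹ * (z ^ a * (z ^ b)⁻¹)

theorem KK_eq (n : ℕ) {z w : ℂ} (hz : ‖z‖ = 1) (hw : ‖w‖ = 1) :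
    KK n z w = ((‖∑ a ∈ Finset.range n, (z * w⁻¹) ^ a‖ ^ 2 : ℝ) : ℂ) := by
  have hz0 : z ≠ 0 := by rintro rfl; simp at hz
  have hw0 : w ≠ 0 := by rintro rfl; simp at hw
  have hzc : (starRingEnd ℂ) z = z⁻¹ := by
    rw [Complex.inv_def, Complex.normSq_eq_norm_sq, hz]
    simp
  have hwc : (starRingEnd ℂ) w = w⁻¹ := by
    rw [Complex.inv_def, Complex.normSq_eq_norm_sq, hw]
    simp
  have h1 : ((‖∑ a ∈ Finset.range n, (z * w⁻¹) ^ a‖ ^ 2 : ℝ) : ℂ) =
      (∑ a ∈ Finset.range n, (z * w⁻¹) ^ a) *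
        (starRingEnd ℂ) (∑ a ∈ Finset.range n, (z * w⁻¹) ^ a) := by
    rw [Complex.mul_conj, Complex.normSq_eq_norm_sq]
  rw [h1, map_sum, Finset.sum_mul_sum, KK]
  apply Finset.sum_congr rfl
  intro a _
  apply Finset.sum_congr rfl
  intro b _
  rw [map_pow, map_mul, map_inv₀, hzc, hwc, inv_inv, mul_pow, mul_pow, inv_pow, inv_pow]
  ring

theorem cont_KK (n : ℕ) {z : ℂ} : Continuous fun t => KK n z (ec t) := by
  unfold KK
  refine continuous_finsetSum _ fun a _ => continuous_finsetSum _ fun b _ => ?_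
  exact (cont_mon b a).mul continuous_const

theorem int_KK (n : ℕ) {z : ℂ} (hz : ‖z‖ = 1) :
    (2 * π)⁻¹ * ∫ t in (0 : ℝ)..2 * π, ‖KK n z (ec t)‖ = n := by
  have hz0 : z ≠ 0 := by rintro rfl; simp at hz
  have h1 : ∀ t, KK n z (ec t) = ((‖KK n z (ec t)‖ : ℝ) : ℂ) := by
    intro t
    rw [KK_eq n hz (norm_ec t), Complex.norm_real, Real.norm_eq_abs, abs_of_nonneg (by positivity)]
  have h2 : av (fun t => KK n z (ec t)) = n := by
    have hc : ∀ a b : ℕ, Continuous fun t => ec t ^ b * (ec t ^ a)⁻¹ * (z ^ a * (z ^ b)⁻¹) :=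
      fun a b => (cont_mon b a).mul continuous_const
    have e0 := av_sum (Finset.range n) (F := fun a t => ∑ b ∈ Finset.range n,
      ec t ^ b * (ec t ^ a)⁻¹ * (z ^ a * (z ^ b)⁻¹))
      (fun a _ => continuous_finsetSum _ fun b _ => hc a b)
    unfold KK
    rw [e0]
    have h3 : ∀ a ∈ Finset.range n, av (fun t => ∑ b ∈ Finset.range n,
        ec t ^ b * (ec t ^ a)⁻¹ * (z ^ a * (z ^ b)⁻¹)) = 1 := by
      intro a ha
      have e1 := av_sum (Finset.range n) (F := fun b t =>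
        ec t ^ b * (ec t ^ a)⁻¹ * (z ^ a * (z ^ b)⁻¹)) (fun b _ => hc a b)
      rw [e1]
      have h4 : ∀ b ∈ Finset.range n, av (fun t => ec t ^ b * (ec t ^ a)⁻¹ * (z ^ a * (z ^ b)⁻¹)) =
          if b = a then 1 else 0 := by
        intro b _
        have h5 : (fun t => ec t ^ b * (ec t ^ a)⁻¹ * (z ^ a * (z ^ b)⁻¹)) =
            fun t => (z ^ a * (z ^ b)⁻¹) * (ec t ^ b * (ec t ^ a)⁻¹) := by
          funext t
          ring
        rw [h5, av_mul_left, av_mon]
        split_ifs with h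
        · subst h
          rw [mul_inv_cancel₀ (pow_ne_zero _ hz0), one_mul]
        · rw [mul_zero]
      rw [Finset.sum_congr rfl h4, Finset.sum_ite_eq' (Finset.range n) a, if_pos ha]
    rw [Finset.sum_congr rfl h3]
    simp
  have h3 : av (fun t => KK n z (ec t)) =
      (((2 * π)⁻¹ * ∫ t in (0 : ℝ)..2 * π, ‖KK n z (ec t)‖ : ℝ) : ℂ) := by
    rw [av]
    have h4 : ∫ t in (0 : ℝ)..2 * π, KK n z (ec t) =
        ((∫ t in (0 : ℝ)..2 * π, ‖KK n z (ec t)‖ : ℝ) : ℂ) := by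
      rw [← intervalIntegral.integral_ofReal]
      apply intervalIntegral.integral_congr
      intro t _
      exact h1 t
    rw [h4, Complex.real_smul]
    push_cast
    rfl
  rw [h3] at h2
  exact_mod_cast h2

/-- counting pairs -/
theorem sum_pairs (f : ℕ → ℂ) (n : ℕ) :
    ∑ a ∈ Finset.range n, ∑ b ∈ Finset.range n, (if a ≤ b then f (b - a) else 0) =
      ∑ j ∈ Finset.range n, ((n : ℂ) - j) * f j := by
  induction n with
  | zero => simp
  | succ n ih =>
    have h1 : ∀ a ∈ Finset.range (n + 1), ∑ b ∈ Finset.range (n + 1),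
        (if a ≤ b then f (b - a) else 0) =
        ∑ b ∈ Finset.range n, (if a ≤ b then f (b - a) else 0) + f (n - a) := by
      intro a ha
      have ha' : a ≤ n := by
        have := Finset.mem_range.1 ha
        omega
      rw [Finset.sum_range_succ, if_pos ha']
    rw [Finset.sum_congr rfl h1, Finset.sum_add_distrib, Finset.sum_range_succ, ih]
    have h2 : ∑ b ∈ Finset.range n, (if n ≤ b then f (b - n) else 0) = 0 := by
      apply Finset.sum_eq_zero
      intro b hb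
      have := Finset.mem_range.1 hb
      rw [if_neg (by omega)]
    have h3 : ∑ a ∈ Finset.range (n + 1), f (n - a) = ∑ j ∈ Finset.range (n + 1), f j := by
      have := Finset.sum_range_reflect f (n + 1)
      simpa using this
    rw [h2, add_zero, h3, Finset.sum_range_succ, Finset.sum_range_succ, ← add_assoc,
      ← Finset.sum_add_distrib]
    congr 1
    · apply Finset.sum_congr rfl
      intro j _
      push_cast
      ring
    · push_cast
      ring

theorem sum_weights (f : ℕ → ℂ) (k : ℕ) :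
    ∑ j ∈ Finset.range (2 * (k + 1)), ((2 * (k + 1) : ℕ) - j : ℂ) * f j -
      ∑ j ∈ Finset.range (k + 1), ((k + 1 : ℕ) - j : ℂ) * f j =
      (k + 1) * ∑ j ∈ Finset.range (k + 2), f j +
        ∑ i ∈ Finset.range k, ((k : ℂ) - i) * f (i + (k + 1) + 1) := by
  have h1 : 2 * (k + 1) = (k + 1) + (k + 1) := by ring
  rw [h1, Finset.sum_range_add (n := k + 1) (m := k + 1)]
  have h2 : ∑ x ∈ Finset.range (k + 1), (((k + 1) + (k + 1) : ℕ) - ((k + 1 + x : ℕ) : ℂ)) *
      f (k + 1 + x) = (k + 1) * f (k + 1) +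
        ∑ i ∈ Finset.range k, ((k : ℂ) - i) * f (i + (k + 1) + 1) := by
    rw [Finset.sum_range_succ', add_comm]
    congr 1
    · push_cast
      ring
    · apply Finset.sum_congr rfl
      intro i _
      have e1 : k + 1 + (i + 1) = i + (k + 1) + 1 := by ring
      rw [e1]
      push_cast
      ring
  rw [h2, Finset.sum_range_succ (fun j => f j) (k + 1)]
  have h3 : ∑ x ∈ Finset.range (k + 1), (((k + 1) + (k + 1) : ℕ) - (x : ℂ)) * f x =
      ∑ j ∈ Finset.range (k + 1), ((k + 1 : ℕ) - j : ℂ) * f j +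
        (k + 1) * ∑ x ∈ Finset.range (k + 1), f x := by
    rw [Finset.mul_sum, ← Finset.sum_add_distrib]
    apply Finset.sum_congr rfl
    intro j _
    push_cast
    ring
  rw [h3]
  ring

end Pool.Agent.H49.SZ
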